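import Mathlib

/-!
# An invariant finite energy FKG percolation on `ℤ^2` that does not percolate in the half-plane

We build a bond percolation on `ℤ^2` which is invariant under all automorphisms, has finite energy,
satisfies the FKG inequality and percolates almost surely, but has almost surely no infinite cluster
inside the half-plane.

Construction. Fix rapidly growing sizes `L_n` (`LL n`), with `L_n = 20 * mm n * ell n` and
`ell (n+1) = 10 * L_n`, where `mm n` is about `n^(1/4)`. The base obstacle of scale `n` is the set of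
the edges leaving the box `[-L_n, L_n] x [0, L_n]` through its left, right or top side. Each image of
the base obstacle under an automorphism of `ℤ^2` is present with probability
`10^(-13) / ((n+1) * L_n^2)`, independently. An edge is closed when it is closed by itself (with
probability `10^(-16)`), or when it belongs to a present obstacle of some scale `n` and is not immune
to the scale `n` (it is immune with a tiny probability). All bits are independent.

* FKG: the configuration is a monotone function of independent bits (Harris inequality).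
* Finite energy: almost surely only finitely many obstacles cover a given edge.
* Half-plane: the expected number of upright obstacles of scale `n` around the origin is of order
  `1/n`, so there are infinitely many of them, and each one encloses a box of the half-plane.
* Plane: almost surely, for all large `n`, near the origin at scale `n` there is at most one obstacle
  of scale `n`, no obstacle of larger scale, and no long chain of smaller obstacles (a multi-scale
  induction). One obstacle does not surround the origin, so by planar duality (proved through a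
  parity function) no closed contour surrounds a large box.
-/

namespace Pool.Agent.Results.MP_77ae5d_pr.FKGWithoutHalfPlane

section

open MeasureTheory

/-- The square lattice `ℤ^2`: two points are adjacent when their (squared) Euclidean distance
is `1`. -/
def lattice : SimpleGraph (ℤ × ℤ) where
  Adj x y := (x.1 - y.1) ^ 2 + (x.2 - y.2) ^ 2 = 1
  symm := ⟨fun x y h => by rw [← h]; ring⟩
  loopless := ⟨fun x h => by simp at h⟩

/-- The edge set of `ℤ^2`. -/
abbrev Edge : Type := lattice.edgeSet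

/-- A bond configuration: `ω e = true` means that the edge `e` is open. Configurations are ordered
coordinatewise (`false ≤ true`). -/
abbrev Config : Type := Edge → Bool

/-- The subgraph of open edges. -/
def openGraph (ω : Config) : SimpleGraph (ℤ × ℤ) where
  Adj x y := ∃ h : lattice.Adj x y, ω ⟨s(x, y), h⟩ = true
  symm := ⟨fun x y h => by
    obtain ⟨h, hω⟩ := h
    refine ⟨h.symm, ?_⟩
    have : (⟨s(y, x), h.symm⟩ : Edge) = ⟨s(x, y), h⟩ := Subtype.ext Sym2.eq_swap
    rw [this]; exact hω⟩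
  loopless := ⟨fun x h => lattice.loopless.irrefl x h.1⟩

/-- The subgraph of the open edges with both endpoints in the half-plane `H = {(x, y) : y ≥ 0}`. -/
def halfPlaneGraph (ω : Config) : SimpleGraph (ℤ × ℤ) where
  Adj x y := 0 ≤ x.2 ∧ 0 ≤ y.2 ∧ (openGraph ω).Adj x y
  symm := ⟨fun _ _ h => ⟨h.2.1, h.1, h.2.2.symm⟩⟩
  loopless := ⟨fun x h => (openGraph ω).loopless.irrefl x h.2.2⟩

/-- The graph `G` has an infinite connected component. -/
def HasInfiniteComponent (G : SimpleGraph (ℤ × ℤ)) : Prop :=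
  ∃ C : G.ConnectedComponent, C.supp.Infinite

/-- Invariance of the law `μ` under every graph automorphism of `ℤ^2`. -/
def IsInvariant (μ : Measure Config) : Prop :=
  ∀ φ : lattice ≃g lattice, μ.map (fun ω e => ω (φ.mapEdgeSet e)) = μ

/-- The sigma-algebra generated by the states of all edges other than `e`. -/
@[reducible] def otherEdges (e : Edge) : MeasurableSpace Config :=
  MeasurableSpace.comap (fun (ω : Config) (f : {f : Edge // f ≠ e}) => ω f) inferInstance

/-- Finite energy: for every edge `e`, almost surely the conditional probability that `e` is open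
given the states of all the other edges is strictly between `0` and `1`. -/
def HasFiniteEnergy (μ : Measure Config) : Prop :=
  ∀ e : Edge, ∀ᵐ ω ∂μ,
    0 < (μ[Set.indicator {ω : Config | ω e = true} (fun _ => (1 : ℝ)) | otherEdges e]) ω ∧
    (μ[Set.indicator {ω : Config | ω e = true} (fun _ => (1 : ℝ)) | otherEdges e]) ω < 1

/-- The FKG inequality: `μ(A ∩ B) ≥ μ(A) μ(B)` for all increasing events `A`, `B`. -/
def SatisfiesFKG (μ : Measure Config) : Prop :=
  ∀ A B : Set Config, MeasurableSet A → MeasurableSet B → IsUpperSet A → IsUpperSet B →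
    μ A * μ B ≤ μ (A ∩ B)

/-- Almost surely there is an infinite open cluster. -/
def Percolates (μ : Measure Config) : Prop :=
  ∀ᵐ ω ∂μ, HasInfiniteComponent (openGraph ω)

end

section

open MeasureTheory

variable {d : ℕ}

/-- The nearest-neighbour graph on `ℤ^d`. -/
def latticeD (d : ℕ) : SimpleGraph (Fin d → ℤ) where
  Adj x y := ∑ i, (x i - y i) ^ 2 = 1
  symm := ⟨fun x y h => by
    rw [← h]; exact Finset.sum_congr rfl fun i _ => by ring⟩
  loopless := ⟨fun x h => by simp at h⟩

lemma unit_iff (u : Fin d → ℤ) :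
    ∑ i, u i ^ 2 = 1 ↔ ∃ i, (u i = 1 ∨ u i = -1) ∧ ∀ j, j ≠ i → u j = 0 := by
  classical
  constructor
  · intro h
    have hex : ∃ i, u i ≠ 0 := by
      by_contra hcon
      push Not at hcon
      simp [hcon] at h
    obtain ⟨i, hi⟩ := hex
    have hsplit := Finset.add_sum_erase Finset.univ (fun i => u i ^ 2) (Finset.mem_univ i)
    have hnn : 0 ≤ ∑ j ∈ Finset.univ.erase i, u j ^ 2 :=
      Finset.sum_nonneg fun j _ => sq_nonneg _
    have h1 : 1 ≤ u i ^ 2 := by
      have : 0 < u i ^ 2 := by positivity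
      omega
    have h2 : u i ^ 2 = 1 := by
      linarith
    have h3 : ∑ j ∈ Finset.univ.erase i, u j ^ 2 = 0 := by
      linarith
    refine ⟨i, mul_self_eq_one_iff.1 (by rw [← sq]; exact h2), ?_⟩
    intro j hj
    have := (Finset.sum_eq_zero_iff_of_nonneg (fun j _ => sq_nonneg (u j))).1 h3 j
      (Finset.mem_erase.2 ⟨hj, Finset.mem_univ j⟩)
    exact pow_eq_zero_iff (two_ne_zero) |>.1 this
  · rintro ⟨i, hi, h0⟩
    rw [Finset.sum_eq_single i]
    · rcases hi with h | h <;> simp [h]
    · intro j _ hj; simp [h0 j hj]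
    · intro h; exact absurd (Finset.mem_univ i) h

/-- unit vectors -/
def IsUnitVec (u : Fin d → ℤ) : Prop := ∑ i, u i ^ 2 = 1

lemma adj_iff_sub (x y : Fin d → ℤ) : (latticeD d).Adj x y ↔ IsUnitVec (y - x) := by
  unfold IsUnitVec latticeD
  simp only [Pi.sub_apply]
  rw [Finset.sum_congr rfl fun i _ => (by ring : (x i - y i) ^ 2 = (y i - x i) ^ 2)]

lemma IsUnitVec.neg {u : Fin d → ℤ} (h : IsUnitVec u) : IsUnitVec (-u) := by
  unfold IsUnitVec at *
  simpa using h

lemma IsUnitVec.ne_zero {u : Fin d → ℤ} (h : IsUnitVec u) : u ≠ 0 := by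
  rintro rfl
  simp [IsUnitVec] at h

lemma isUnitVec_single (i : Fin d) : IsUnitVec (Pi.single i 1 : Fin d → ℤ) := by
  classical
  rw [IsUnitVec, unit_iff]
  exact ⟨i, Or.inl (by simp), fun j hj => by simp [hj]⟩

lemma adj_add {x u : Fin d → ℤ} (h : IsUnitVec u) : (latticeD d).Adj x (x + u) := by
  rw [adj_iff_sub]; simpa using h

section
variable (φ : latticeD d ≃g latticeD d)

lemma unit_map {x u : Fin d → ℤ} (h : IsUnitVec u) : IsUnitVec (φ (x + u) - φ x) := by
  rw [← adj_iff_sub]
  exact φ.map_rel_iff.2 (adj_add h)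

lemma opp_of_unit {v u : Fin d → ℤ} (hu : IsUnitVec u) (h1 : IsUnitVec (v - u))
    (h2 : IsUnitVec (v + u)) : v = 0 := by
  unfold IsUnitVec at *
  simp only [Pi.sub_apply, Pi.add_apply] at h1 h2
  have key : 2 * ∑ i, v i ^ 2 = 0 := by
    have : ∑ i, (v i - u i) ^ 2 + ∑ i, (v i + u i) ^ 2
        = 2 * ∑ i, v i ^ 2 + 2 * ∑ i, u i ^ 2 := by
      rw [← Finset.sum_add_distrib, Finset.mul_sum, Finset.mul_sum, ← Finset.sum_add_distrib]
      exact Finset.sum_congr rfl fun i _ => by ring
    rw [h1, h2, hu] at this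
    linarith
  have key2 : ∑ i, v i ^ 2 = 0 := by linarith
  funext i
  have := (Finset.sum_eq_zero_iff_of_nonneg (fun j _ => sq_nonneg (v j))).1 key2 i
    (Finset.mem_univ i)
  exact pow_eq_zero_iff (two_ne_zero) |>.1 this

lemma map_opp (x u : Fin d → ℤ) (hu : IsUnitVec u) :
    φ (x + u) + φ (x - u) = φ x + φ x := by
  set a := φ (x + u) - φ x with ha
  set b := φ (x - u) - φ x with hb
  have hua : IsUnitVec a := unit_map φ hu
  have hub : IsUnitVec b := by
    have := unit_map φ (x := x) hu.neg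
    simpa [hb, sub_eq_add_neg] using this
  obtain ⟨q, hq⟩ := φ.surjective (φ x + a + b)
  have e1 : (latticeD d).Adj (x + u) q := by
    rw [← φ.map_rel_iff, hq, adj_iff_sub]
    have : φ x + a + b - φ (x + u) = b := by rw [ha]; abel
    rwa [this]
  have e2 : (latticeD d).Adj (x - u) q := by
    rw [← φ.map_rel_iff, hq, adj_iff_sub]
    have : φ x + a + b - φ (x - u) = a := by rw [hb]; abel
    rwa [this]
  rw [adj_iff_sub] at e1 e2
  have e3 : q - x = 0 := by
    apply opp_of_unit hu
    · have : q - x - u = q - (x + u) := by abel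
      rwa [this]
    · have : q - x + u = q - (x - u) := by abel
      rwa [this]
  have e4 : q = x := by simpa [sub_eq_zero] using e3
  rw [e4] at hq
  have e5 : a + b = 0 := by
    have : φ x + (a + b) = φ x := by rw [← add_assoc]; exact hq.symm
    simpa using this
  have : φ (x + u) + φ (x - u) = φ x + φ x + (a + b) := by rw [ha, hb]; abel
  rw [this, e5, add_zero]

lemma common_nbr {u w v : Fin d → ℤ} (hu : IsUnitVec u) (hw : IsUnitVec w) (h1 : w ≠ u)
    (h2 : w ≠ -u) (hv1 : IsUnitVec (v - u)) (hv2 : IsUnitVec (v - w)) : v = 0 ∨ v = u + w := by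
  unfold IsUnitVec at *
  rw [unit_iff] at *
  obtain ⟨i, hui, hu0⟩ := hu
  obtain ⟨j, hwj, hw0⟩ := hw
  obtain ⟨k, hk, hk0⟩ := hv1
  obtain ⟨l, hl, hl0⟩ := hv2
  simp only [Pi.sub_apply] at hk hk0 hl hl0
  have hij : i ≠ j := by
    rintro rfl
    rcases hui with h | h <;> rcases hwj with h' | h'
    · exact h1 (funext fun m => by
        by_cases hm : m = i
        · rw [hm, h, h']
        · rw [hu0 m hm, hw0 m hm])
    · exact h2 (funext fun m => by
        by_cases hm : m = i
        · simp [hm, h, h']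
        · simp [hu0 m hm, hw0 m hm])
    · exact h2 (funext fun m => by
        by_cases hm : m = i
        · simp [hm, h, h']
        · simp [hu0 m hm, hw0 m hm])
    · exact h1 (funext fun m => by
        by_cases hm : m = i
        · rw [hm, h, h']
        · rw [hu0 m hm, hw0 m hm])
  have hwi : w i = 0 := hw0 i hij
  have huj : u j = 0 := hu0 j hij.symm
  by_cases hki : k = i
  · left
    subst hki
    have hvj : v j = 0 := by
      have := hk0 j hij.symm
      omega
    have hlj : l = j := by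
      by_contra hne
      have := hl0 j (Ne.symm hne)
      rw [hvj] at this
      omega
    subst hlj
    funext m
    by_cases hm : m = k
    · have := hl0 k hij
      rw [hm]; simp only [Pi.zero_apply]; omega
    · have := hk0 m hm
      have := hu0 m hm
      simp only [Pi.zero_apply]; omega
  · right
    have hvi : v i = u i := by
      have := hk0 i (Ne.symm hki)
      omega
    have hli : l = i := by
      by_contra hne
      have := hl0 i (Ne.symm hne)
      omega
    subst hli
    funext m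
    by_cases hm : m = l
    · rw [hm]; simp only [Pi.add_apply]; omega
    · have := hl0 m hm
      have := hu0 m hm
      simp only [Pi.add_apply]; omega

lemma map_square (x u w : Fin d → ℤ) (hu : IsUnitVec u) (hw : IsUnitVec w) (h1 : w ≠ u)
    (h2 : w ≠ -u) : φ (x + u + w) = φ (x + u) + φ (x + w) - φ x := by
  set a := φ (x + u) - φ x with ha
  set b := φ (x + w) - φ x with hb
  have hua : IsUnitVec a := unit_map φ hu
  have hub : IsUnitVec b := unit_map φ hw
  obtain ⟨q, hq⟩ := φ.surjective (φ x + a + b)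
  have e1 : (latticeD d).Adj (x + u) q := by
    rw [← φ.map_rel_iff, hq, adj_iff_sub]
    have : φ x + a + b - φ (x + u) = b := by rw [ha]; abel
    rwa [this]
  have e2 : (latticeD d).Adj (x + w) q := by
    rw [← φ.map_rel_iff, hq, adj_iff_sub]
    have : φ x + a + b - φ (x + w) = a := by rw [hb]; abel
    rwa [this]
  rw [adj_iff_sub] at e1 e2
  have e3 : q - x = 0 ∨ q - x = u + w := by
    apply common_nbr hu hw h1 h2
    · have : q - x - u = q - (x + u) := by abel
      rwa [this]
    · have : q - x - w = q - (x + w) := by abel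
      rwa [this]
  rcases e3 with e3 | e3
  · exfalso
    have e4 : q = x := by simpa [sub_eq_zero] using e3
    rw [e4] at hq
    have e5 : a + b = 0 := by
      have : φ x + (a + b) = φ x := by rw [← add_assoc]; exact hq.symm
      simpa using this
    have e6 := map_opp φ x u hu
    have e7 : φ (x - u) = φ (x + w) := by
      have h7 : φ (x + w) = φ x + b := by rw [hb]; abel
      have h8 : φ (x + u) = φ x + a := by rw [ha]; abel
      have h9 : b = -a := by rw [eq_neg_iff_add_eq_zero, add_comm]; exact e5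
      rw [h7, h9]
      rw [h8] at e6
      have : φ (x - u) = φ x + φ x - (φ x + a) := by rw [← e6]; abel
      rw [this]; abel
    have e8 := φ.injective e7
    apply h2
    have : x + -u = x + w := by rw [← sub_eq_add_neg]; exact e8
    exact (add_left_cancel this).symm
  · have e4 : q = x + u + w := by
      have : q = x + (q - x) := by abel
      rw [this, e3]; abel
    rw [e4] at hq
    rw [hq, ha, hb]; abel

/-- Induction along unit steps. -/
lemma lattice_induction {P : (Fin d → ℤ) → Prop} (h0 : P 0)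
    (hstep : ∀ x u, IsUnitVec u → P x → P (x + u)) : ∀ x, P x := by
  classical
  intro x
  induction hn : ∑ i, (x i).natAbs using Nat.strong_induction_on generalizing x with
  | _ n ih =>
    by_cases hx : x = 0
    · rw [hx]; exact h0
    · obtain ⟨i, hi⟩ : ∃ i, x i ≠ 0 := by
        by_contra hcon
        push Not at hcon
        exact hx (funext hcon)
      set u : Fin d → ℤ := Pi.single i (Int.sign (x i)) with hu
      have hus : Int.sign (x i) = 1 ∨ Int.sign (x i) = -1 := by
        rcases lt_or_gt_of_ne hi with h | h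
        · right; exact Int.sign_eq_neg_one_of_neg h
        · left; exact Int.sign_eq_one_of_pos h
      have huv : IsUnitVec u := by
        rw [IsUnitVec, unit_iff]
        exact ⟨i, by simpa [hu] using hus, fun j hj => by simp [hu, hj]⟩
      have hlt : ∑ j, ((x - u) j).natAbs < n := by
        rw [← hn]
        apply Finset.sum_lt_sum
        · intro j _
          by_cases hj : j = i
          · subst hj
            simp only [hu, Pi.sub_apply, Pi.single_eq_same]
            rcases lt_or_gt_of_ne hi with h | h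
            · rw [Int.sign_eq_neg_one_of_neg h]; omega
            · rw [Int.sign_eq_one_of_pos h]; omega
          · simp [hu, hj]
        · refine ⟨i, Finset.mem_univ i, ?_⟩
          simp only [hu, Pi.sub_apply, Pi.single_eq_same]
          rcases lt_or_gt_of_ne hi with h | h
          · rw [Int.sign_eq_neg_one_of_neg h]; omega
          · rw [Int.sign_eq_one_of_pos h]; omega
      have := hstep (x - u) u huv (ih _ hlt (x - u) rfl)
      simpa using this

lemma map_diff (x u : Fin d → ℤ) (hu : IsUnitVec u) : φ (x + u) - φ x = φ u - φ 0 := by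
  have main : ∀ x : Fin d → ℤ, ∀ u, IsUnitVec u → φ (x + u) - φ x = φ u - φ 0 := by
    apply lattice_induction
    · intro u _; simp
    · intro x w hw ih u hu
      rw [← ih u hu]
      by_cases h1 : u = w
      · subst h1
        have := map_opp φ (x + u) u hu
        simp only [add_sub_cancel_right] at this
        rw [sub_eq_sub_iff_add_eq_add, this]
      · by_cases h2 : u = -w
        · subst h2
          have := map_opp φ x w hw
          have e : x + w + -w = x := by abel
          rw [e, sub_eq_sub_iff_add_eq_add, ← this, sub_eq_add_neg, add_comm]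
        · have := map_square φ x w u hw hu h1 h2
          rw [this]; abel
  exact main x u hu

lemma map_neg_unit (u : Fin d → ℤ) (hu : IsUnitVec u) : φ (-u) - φ 0 = -(φ u - φ 0) := by
  have := map_opp φ 0 u hu
  simp only [zero_add, zero_sub] at this
  have h : φ (-u) = φ 0 + φ 0 - φ u := by rw [← this]; abel
  rw [h]; abel

/-- Every automorphism of the lattice graph is a signed permutation followed by a translation. -/
theorem aut_classification :
    ∃ (σ : Equiv.Perm (Fin d)) (ε a : Fin d → ℤ), (∀ j, ε j = 1 ∨ ε j = -1) ∧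
      ∀ x j, φ x j = a j + ε j * x (σ j) := by
  classical
  set D : Fin d → (Fin d → ℤ) := fun i => φ (Pi.single i 1) - φ 0 with hD
  have hDu : ∀ i, IsUnitVec (D i) := fun i => by
    have := unit_map φ (x := 0) (isUnitVec_single i)
    simpa [hD] using this
  have hlin : ∀ x : Fin d → ℤ, φ x = φ 0 + ∑ i, x i • D i := by
    apply lattice_induction
    · simp
    · intro x w hw ih
      have h1 := map_diff φ x w hw
      have h2 : φ w - φ 0 = ∑ i, w i • D i := by
        obtain ⟨i, hi, hi0⟩ := (unit_iff w).1 hw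
        rw [Finset.sum_eq_single i]
        · rcases hi with h | h
          · have : w = Pi.single i 1 := by
              funext j
              by_cases hj : j = i
              · subst hj; simp [h]
              · simp [hi0 j hj, hj]
            rw [h, one_smul, hD, this]
          · have : w = -(Pi.single i 1) := by
              funext j
              by_cases hj : j = i
              · subst hj; simp [h]
              · simp [hi0 j hj, hj]
            rw [h, hD]
            simp only [neg_smul, one_smul]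
            rw [this]
            exact map_neg_unit φ _ (isUnitVec_single i)
        · intro j _ hj; simp [hi0 j hj]
        · intro h; exact absurd (Finset.mem_univ i) h
      have h3 : φ (x + w) = φ x + (φ w - φ 0) := by rw [← h1]; abel
      rw [h3, h2, ih, add_assoc, ← Finset.sum_add_distrib]
      congr 1
      exact Finset.sum_congr rfl fun i _ => by rw [Pi.add_apply, add_smul]
  choose τ hτ hτ0 using fun i => (unit_iff (D i)).1 (hDu i)
  have hinj : Function.Injective τ := by
    intro i j hij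
    by_contra hne
    have hcase : D i = D j ∨ D i = -D j := by
      rcases hτ i with h | h <;> rcases hτ j with h' | h'
      · left; funext m
        by_cases hm : m = τ i
        · rw [hm, h]; rw [hij, h']
        · rw [hτ0 i m hm, hτ0 j m (hij ▸ hm)]
      · right; funext m
        by_cases hm : m = τ i
        · rw [hm, h]; rw [hij, Pi.neg_apply, h']; simp
        · rw [hτ0 i m hm, Pi.neg_apply, hτ0 j m (hij ▸ hm)]; simp
      · right; funext m
        by_cases hm : m = τ i
        · rw [hm, h]; rw [hij, Pi.neg_apply, h']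
        · rw [hτ0 i m hm, Pi.neg_apply, hτ0 j m (hij ▸ hm)]; simp
      · left; funext m
        by_cases hm : m = τ i
        · rw [hm, h]; rw [hij, h']
        · rw [hτ0 i m hm, hτ0 j m (hij ▸ hm)]
    rcases hcase with h | h
    · have : φ (Pi.single i 1) = φ (Pi.single j 1) := sub_left_injective h
      have := congrFun (φ.injective this) i
      simp [hne] at this
    · have h' : φ (Pi.single i 1) - φ 0 = φ (-(Pi.single j 1)) - φ 0 := by
        rw [map_neg_unit φ _ (isUnitVec_single j)]; exact h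
      have : φ (Pi.single i 1) = φ (-(Pi.single j 1)) := sub_left_injective h'
      have := congrFun (φ.injective this) i
      simp [hne] at this
  have hbij : Function.Bijective τ := Finite.injective_iff_bijective.1 hinj
  set T : Equiv.Perm (Fin d) := Equiv.ofBijective τ hbij with hT
  refine ⟨T.symm, fun j => D (T.symm j) j, φ 0, ?_, ?_⟩
  · intro j
    have h := hτ (T.symm j)
    have h' : τ (T.symm j) = j := T.apply_symm_apply j
    rw [h'] at h
    exact h
  · intro x j
    rw [hlin x, Pi.add_apply, Finset.sum_apply, Finset.sum_eq_single (T.symm j)]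
    · simp only [Pi.smul_apply, smul_eq_mul]; ring
    · intro i _ hi
      have : j ≠ τ i := by
        intro h
        apply hi
        rw [h]
        exact (T.symm_apply_apply i).symm
      simp [hτ0 i j this]
    · intro h; exact absurd (Finset.mem_univ _) h

end

end

section

open MeasureTheory

/-- the group of automorphisms of the square lattice -/
abbrev Aut : Type := lattice ≃g lattice

/-- comparison of the two descriptions of the square lattice -/
def isoD : latticeD 2 ≃g lattice where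
  toEquiv := finTwoArrowEquiv ℤ
  map_rel_iff' := by
    intro x y
    show (x 0 - y 0) ^ 2 + (x 1 - y 1) ^ 2 = 1 ↔ ∑ i, (x i - y i) ^ 2 = 1
    rw [Fin.sum_univ_two]

/-- sign of a bit -/
def sg (b : Bool) : ℤ := if b then 1 else -1

/-- the eight signed permutations of the coordinates -/
def act (D : Bool × Bool × Bool) (p : ℤ × ℤ) : ℤ × ℤ :=
  (sg D.2.1 * (if D.1 then p.2 else p.1), sg D.2.2 * (if D.1 then p.1 else p.2))

lemma exists_sg {ε : ℤ} (h : ε = 1 ∨ ε = -1) : ∃ b, sg b = ε := by
  rcases h with rfl | rfl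
  · exact ⟨true, rfl⟩
  · exact ⟨false, rfl⟩

lemma aut_form (φ : Aut) : ∃ D, ∀ p, φ p = φ (0, 0) + act D p := by
  obtain ⟨σ, ε, a, hε, hφ⟩ := aut_classification (isoD.trans (φ.trans isoD.symm))
  have h1 : ∀ x : Fin 2 → ℤ, ∀ j, isoD.symm (φ (isoD x)) j = a j + ε j * x (σ j) := hφ
  have h2 : ∀ (p : ℤ × ℤ) , φ p = (a 0 + ε 0 * ![p.1, p.2] (σ 0), a 1 + ε 1 * ![p.1, p.2] (σ 1)) := by
    intro p
    have h3 : isoD ![p.1, p.2] = p := rfl
    have h4 := h1 ![p.1, p.2]
    rw [h3] at h4
    have h5 : φ p = isoD (isoD.symm (φ p)) := (isoD.apply_symm_apply _).symm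
    rw [h5]
    have h6 : ∀ x : Fin 2 → ℤ, isoD x = (x 0, x 1) := fun _ => rfl
    rw [h6, h4, h4]
  obtain ⟨b0, hb0⟩ := exists_sg (hε 0)
  obtain ⟨b1, hb1⟩ := exists_sg (hε 1)
  have h01 : ∀ i : Fin 2, i = 0 ∨ i = 1 := by decide
  have hne : σ 0 ≠ σ 1 := fun h => by simpa using σ.injective h
  rcases h01 (σ 0) with h | h
  · have h' : σ 1 = 1 := by
      rcases h01 (σ 1) with h' | h'
      · exact absurd (h.trans h'.symm) hne
      · exact h'
    refine ⟨(false, b0, b1), fun p => ?_⟩
    rw [h2 p, h2 (0, 0), h, h']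
    unfold act
    rw [hb0, hb1]
    simp
  · have h' : σ 1 = 0 := by
      rcases h01 (σ 1) with h' | h'
      · exact h'
      · exact absurd (h.trans h'.symm) hne
    refine ⟨(true, b0, b1), fun p => ?_⟩
    rw [h2 p, h2 (0, 0), h, h']
    unfold act
    rw [hb0, hb1]
    simp

/-- sup-distance on `ℤ^2` -/
def kd (p q : ℤ × ℤ) : ℕ := max (p.1 - q.1).natAbs (p.2 - q.2).natAbs

lemma kd_comm (p q : ℤ × ℤ) : kd p q = kd q p := by
  unfold kd; omega

lemma kd_self (p : ℤ × ℤ) : kd p p = 0 := by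
  unfold kd; omega

lemma kd_triangle (p q r : ℤ × ℤ) : kd p r ≤ kd p q + kd q r := by
  unfold kd; omega

lemma kd_le_iff {p q : ℤ × ℤ} {r : ℕ} : kd p q ≤ r ↔
    (p.1 - q.1 ≤ r ∧ q.1 - p.1 ≤ r) ∧ (p.2 - q.2 ≤ r ∧ q.2 - p.2 ≤ r) := by
  unfold kd; omega

lemma sg_natAbs (b : Bool) (x y : ℤ) : (sg b * x - sg b * y).natAbs = (x - y).natAbs := by
  cases b <;> simp only [sg, if_true, Bool.false_eq_true, if_false] <;> omega

lemma kd_act (D : Bool × Bool × Bool) (p q : ℤ × ℤ) : kd (act D p) (act D q) = kd p q := by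
  obtain ⟨s, a, b⟩ := D
  unfold kd act
  simp only [sg_natAbs]
  cases s
  · simp
  · simp only [if_true]
    omega

/-- automorphisms preserve the sup-distance -/
lemma kd_map (φ : Aut) (p q : ℤ × ℤ) : kd (φ p) (φ q) = kd p q := by
  obtain ⟨D, hD⟩ := aut_form φ
  rw [hD p, hD q]
  have := kd_act D p q
  unfold kd at this ⊢
  simp only [Prod.fst_add, Prod.snd_add]
  have e1 : (φ (0, 0)).1 + (act D p).1 - ((φ (0, 0)).1 + (act D q).1)
      = (act D p).1 - (act D q).1 := by ring
  have e2 : (φ (0, 0)).2 + (act D p).2 - ((φ (0, 0)).2 + (act D q).2)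
      = (act D p).2 - (act D q).2 := by ring
  rw [e1, e2]
  exact this

/-- the linear part of an automorphism -/
noncomputable def lin (φ : Aut) : Bool × Bool × Bool := (aut_form φ).choose

lemma lin_spec (φ : Aut) (p : ℤ × ℤ) : φ p = φ (0, 0) + act (lin φ) p := (aut_form φ).choose_spec p

/-- an automorphism is determined by the preimage of a point and its linear part -/
lemma aut_inj (x : ℤ × ℤ) : Function.Injective fun φ : Aut => (φ.symm x, lin φ) := by
  intro φ ψ h
  simp only [Prod.mk.injEq] at h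
  obtain ⟨h1, h2⟩ := h
  have e1 := lin_spec φ (φ.symm x)
  have e2 := lin_spec ψ (ψ.symm x)
  rw [RelIso.apply_symm_apply] at e1 e2
  have e3 : φ (0, 0) = ψ (0, 0) := by
    rw [h1, h2] at e1
    have : φ (0, 0) + act (lin ψ) (ψ.symm x) = ψ (0, 0) + act (lin ψ) (ψ.symm x) := by
      rw [← e1, ← e2]
    exact add_right_cancel this
  ext1 p
  rw [lin_spec φ p, lin_spec ψ p, e3, h2]

instance : Countable Aut := (aut_inj (0, 0)).countable

end

section

/-- edges in coordinates: `(x, y, false)` is horizontal, `(x, y, true)` vertical -/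
abbrev CE : Type := ℤ × ℤ × Bool

/-- second endpoint -/
def ep2 : CE → ℤ × ℤ
  | (x, y, false) => (x + 1, y)
  | (x, y, true) => (x, y + 1)

/-- first endpoint -/
def ep1 (e : CE) : ℤ × ℤ := (e.1, e.2.1)

/-- the edge belongs to the unit square with lower left corner `s` -/
def inSq (s : ℤ × ℤ) (e : CE) : Prop :=
  e = (s.1, s.2, false) ∨ e = (s.1, s.2 + 1, false) ∨ e = (s.1, s.2, true) ∨
    e = (s.1 + 1, s.2, true)

/-- boundary edges of `C` -/
def bd (C : Finset (ℤ × ℤ)) (e : CE) : Prop := ¬ (ep1 e ∈ C ↔ ep2 e ∈ C)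

/-- two boundary edges in a common unit square -/
def bdAdj (C : Finset (ℤ × ℤ)) (e e' : CE) : Prop :=
  bd C e ∧ bd C e' ∧ ∃ s, inSq s e ∧ inSq s e'

/-- the class of a boundary edge -/
def cls (C : Finset (ℤ × ℤ)) (e0 : CE) : Set CE := {e | Relation.ReflTransGen (bdAdj C) e0 e}

lemma rtg_symm {α : Type*} {r : α → α → Prop} (hr : ∀ a b, r a b → r b a) {a b : α}
    (h : Relation.ReflTransGen r a b) : Relation.ReflTransGen r b a := by
  induction h with
  | refl => exact Relation.ReflTransGen.refl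
  | tail _ h ih => exact Relation.ReflTransGen.head (hr _ _ h) ih

lemma bdAdj_symm (C : Finset (ℤ × ℤ)) (e e' : CE) (h : bdAdj C e e') : bdAdj C e' e := by
  obtain ⟨h1, h2, s, h3, h4⟩ := h
  exact ⟨h2, h1, s, h4, h3⟩

lemma cls_bd {C : Finset (ℤ × ℤ)} {e0 e : CE} (h0 : bd C e0) (h : e ∈ cls C e0) : bd C e := by
  induction h with
  | refl => exact h0
  | tail _ h _ => exact h.2.1

lemma cls_eq {C : Finset (ℤ × ℤ)} {e0 e : CE} (h : e ∈ cls C e0) : cls C e = cls C e0 := by
  ext e'
  constructor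
  · intro h'; exact Relation.ReflTransGen.trans h h'
  · intro h'
    exact Relation.ReflTransGen.trans (rtg_symm (bdAdj_symm C) h) h'

open Classical in
/-- indicator of a class -/
noncomputable def ph (K : Set CE) (e : CE) : ZMod 2 := if e ∈ K then 1 else 0

open Classical in
/-- indicator of `C` -/
noncomputable def ch (C : Finset (ℤ × ℤ)) (p : ℤ × ℤ) : ZMod 2 := if p ∈ C then 1 else 0

lemma ph_of_bd {C : Finset (ℤ × ℤ)} {K : Set CE} {e : CE} (h : e ∈ K ↔ bd C e) :
    ph K e = ch C (ep1 e) + ch C (ep2 e) := by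
  unfold ph ch
  by_cases h1 : ep1 e ∈ C <;> by_cases h2 : ep2 e ∈ C
  · have : e ∉ K := by rw [h]; simp [bd, h1, h2]
    simp only [this, h1, h2, if_true, if_false]; decide
  · have : e ∈ K := by rw [h]; simp [bd, h1, h2]
    simp only [this, h1, h2, if_true, if_false]; decide
  · have : e ∈ K := by rw [h]; simp [bd, h1, h2]
    simp only [this, h1, h2, if_true, if_false]; decide
  · have : e ∉ K := by rw [h]; simp [bd, h1, h2]
    simp only [this, h1, h2, if_false]; decide

lemma square_cond {C : Finset (ℤ × ℤ)} {e0 : CE} (h0 : bd C e0) (x y : ℤ) :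
    ph (cls C e0) (x, y, false) + ph (cls C e0) (x, y + 1, false) =
      ph (cls C e0) (x, y, true) + ph (cls C e0) (x + 1, y, true) := by
  set K := cls C e0 with hK
  by_cases hex : ∃ e ∈ K, inSq (x, y) e
  · obtain ⟨e, heK, hes⟩ := hex
    have hiff : ∀ e', inSq (x, y) e' → (e' ∈ K ↔ bd C e') := by
      intro e' he'
      constructor
      · exact fun h => cls_bd h0 h
      · intro h
        exact Relation.ReflTransGen.tail heK ⟨cls_bd h0 heK, h, (x, y), hes, he'⟩
    rw [ph_of_bd (hiff _ (Or.inl rfl)), ph_of_bd (hiff _ (Or.inr (Or.inl rfl))),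
      ph_of_bd (hiff _ (Or.inr (Or.inr (Or.inl rfl)))),
      ph_of_bd (hiff _ (Or.inr (Or.inr (Or.inr rfl))))]
    simp only [ep1, ep2]
    generalize ch C (x, y) = a
    generalize ch C (x + 1, y) = b
    generalize ch C (x, y + 1) = c
    generalize ch C (x + 1, y + 1) = d
    revert a b c d
    decide
  · push Not at hex
    have h : ∀ e, inSq (x, y) e → ph K e = 0 := by
      intro e he
      have : e ∉ K := fun h => hex e h he
      simp [ph, this]
    rw [h _ (Or.inl rfl), h _ (Or.inr (Or.inl rfl)), h _ (Or.inr (Or.inr (Or.inl rfl))),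
      h _ (Or.inr (Or.inr (Or.inr rfl)))]

/-- the potential of a class -/
noncomputable def pot (K : Set CE) (X0 : ℤ) (p : ℤ × ℤ) : ZMod 2 :=
  ∑ s ∈ Finset.Ico p.1 X0, ph K (s, p.2, false)

section
variable {C : Finset (ℤ × ℤ)} {X0 : ℤ} (hX : ∀ p ∈ C, (-X0 < p.1 ∧ p.1 < X0) ∧ (-X0 < p.2 ∧ p.2 < X0))
  {e0 : CE} (h0 : bd C e0)

include hX in
lemma bd_bound {e : CE} (h : bd C e) : (-X0 - 1 < e.1 ∧ e.1 < X0) ∧ (-X0 - 1 < e.2.1 ∧ e.2.1 < X0) := by
  obtain ⟨x, y, b⟩ := e
  unfold bd at h
  have hor : ep1 (x, y, b) ∈ C ∨ ep2 (x, y, b) ∈ C := by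
    by_contra hcon
    push Not at hcon
    apply h
    simp [hcon.1, hcon.2]
  rcases hor with h1 | h1
  · have := hX _ h1
    simp only [ep1] at this
    simp only
    omega
  · have := hX _ h1
    cases b <;> simp only [ep2] at this <;> simp only <;> omega

include hX in
lemma bd_bound_h {x y : ℤ} (h : bd C (x, y, false)) : -X0 < y := by
  have hor : ep1 (x, y, false) ∈ C ∨ ep2 (x, y, false) ∈ C := by
    by_contra hcon
    push Not at hcon
    apply h
    simp [hcon.1, hcon.2]
  rcases hor with h1 | h1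
  · exact (hX _ h1).2.1
  · exact (hX _ h1).2.1

include hX h0

lemma ph_zero {e : CE} (h : ¬ bd C e) : ph (cls C e0) e = 0 := by
  have : e ∉ cls C e0 := fun h' => h (cls_bd h0 h')
  simp [ph, this]

lemma pot_step_x (x y : ℤ) : pot (cls C e0) X0 (x, y) =
    ph (cls C e0) (x, y, false) + pot (cls C e0) X0 (x + 1, y) := by
  unfold pot
  simp only
  by_cases h : x < X0
  · rw [← Finset.insert_Ico_add_one_left_eq_Ico h, Finset.sum_insert (by simp)]
  · rw [Finset.Ico_eq_empty (by omega), Finset.Ico_eq_empty (by omega)]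
    rw [ph_zero hX h0 (fun hb => h (bd_bound hX hb).1.2)]
    simp

lemma pot_step_y (x y : ℤ) : pot (cls C e0) X0 (x, y) =
    ph (cls C e0) (x, y, true) + pot (cls C e0) X0 (x, y + 1) := by
  have key : ∀ n : ℕ, ∀ x : ℤ, (X0 - x).toNat = n → pot (cls C e0) X0 (x, y) =
      ph (cls C e0) (x, y, true) + pot (cls C e0) X0 (x, y + 1) := by
    intro n
    induction n with
    | zero =>
      intro x hx
      have hx' : X0 ≤ x := by omega
      unfold pot
      simp only
      rw [Finset.Ico_eq_empty (by omega)]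
      rw [ph_zero hX h0 (fun hb => by have := (bd_bound hX hb).1.2; simp only at this; omega)]
      simp
    | succ n ih =>
      intro x hx
      have h1 := ih (x + 1) (by omega)
      rw [pot_step_x hX h0 x y, pot_step_x hX h0 x (y + 1), h1]
      have h2 := square_cond h0 x y
      generalize ph (cls C e0) (x, y, false) = a at *
      generalize ph (cls C e0) (x, y + 1, false) = b at *
      generalize ph (cls C e0) (x, y, true) = c at *
      generalize ph (cls C e0) (x + 1, y, true) = d at *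
      generalize pot (cls C e0) X0 (x + 1, y + 1) = g at *
      clear h1 ih hx
      revert h2
      revert a b c d g
      decide
  exact key _ x rfl

lemma pot_far {p : ℤ × ℤ} (h : X0 < kd p (0, 0)) : pot (cls C e0) X0 p = 0 := by
  obtain ⟨x, y⟩ := p
  have hrow : ∀ x y : ℤ, (X0 ≤ y ∨ y ≤ -X0) → pot (cls C e0) X0 (x, y) = 0 := by
    intro x y hy
    unfold pot
    apply Finset.sum_eq_zero
    intro s _
    apply ph_zero hX h0
    intro hb
    have h1 := bd_bound hX hb
    have h2 := bd_bound_h hX hb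
    simp only at h1 h2
    omega
  have hright : ∀ x y : ℤ, X0 ≤ x → pot (cls C e0) X0 (x, y) = 0 := by
    intro x y hx
    unfold pot
    rw [Finset.Ico_eq_empty (by simp only; omega)]
    simp
  have hleft : ∀ x y : ℤ, x ≤ -X0 - 1 → pot (cls C e0) X0 (x, y) = 0 := by
    intro x y hx
    have key : ∀ n : ℕ, ∀ y : ℤ, (X0 - y).toNat = n → pot (cls C e0) X0 (x, y) = 0 := by
      intro n
      induction n with
      | zero => intro y hy; exact hrow x y (by omega)
      | succ n ih =>
        intro y hy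
        rw [pot_step_y hX h0 x y, ih (y + 1) (by omega)]
        rw [ph_zero hX h0 (fun hb => by have := (bd_bound hX hb).1.1; simp only at this; omega)]
        simp
    exact key _ y rfl
  by_cases h1 : X0 ≤ y ∨ y ≤ -X0
  · exact hrow x y h1
  · by_cases h2 : X0 ≤ x
    · exact hright x y h2
    · apply hleft
      unfold kd at h
      simp only at h
      omega

end

/-- connectedness for king moves inside a set -/
def KConn (V : Set (ℤ × ℤ)) (p q : ℤ × ℤ) : Prop :=
  Relation.ReflTransGen (fun a b => a ∈ V ∧ b ∈ V ∧ kd a b ≤ 1) p q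

lemma KConn.symm {V : Set (ℤ × ℤ)} {p q : ℤ × ℤ} (h : KConn V p q) : KConn V q p := by
  apply rtg_symm _ h
  rintro a b ⟨h1, h2, h3⟩
  exact ⟨h2, h1, by rw [kd_comm]; exact h3⟩

/-- the vertices of a class -/
def verts (K : Set CE) : Set (ℤ × ℤ) := {p | ∃ e ∈ K, p = ep1 e ∨ p = ep2 e}

lemma inSq_kd {s : ℤ × ℤ} {e e' : CE} (h : inSq s e) (h' : inSq s e') {p q : ℤ × ℤ}
    (hp : p = ep1 e ∨ p = ep2 e) (hq : q = ep1 e' ∨ q = ep2 e') : kd p q ≤ 1 := by
  have key : ∀ {e : CE} {p : ℤ × ℤ}, inSq s e → (p = ep1 e ∨ p = ep2 e) →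
      (p.1 = s.1 ∨ p.1 = s.1 + 1) ∧ (p.2 = s.2 ∨ p.2 = s.2 + 1) := by
    intro e p h hp
    rcases h with rfl | rfl | rfl | rfl <;> rcases hp with rfl | rfl <;> simp [ep1, ep2]
  have h1 := key h hp
  have h2 := key h' hq
  rw [kd_le_iff]
  omega

lemma verts_conn {C : Finset (ℤ × ℤ)} {e0 : CE} {p q : ℤ × ℤ} (hp : p ∈ verts (cls C e0))
    (hq : q ∈ verts (cls C e0)) : KConn (verts (cls C e0)) p q := by
  have hsq : ∀ e : CE, ∃ s, inSq s e := by
    rintro ⟨x, y, b⟩
    cases b
    · exact ⟨(x, y), Or.inl rfl⟩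
    · exact ⟨(x, y), Or.inr (Or.inr (Or.inl rfl))⟩
  have main : ∀ e, e ∈ cls C e0 → ∀ p, (p = ep1 e ∨ p = ep2 e) →
      KConn (verts (cls C e0)) (ep1 e0) p := by
    intro e he
    induction he with
    | refl =>
      intro p hp
      obtain ⟨s, hs⟩ := hsq e0
      refine Relation.ReflTransGen.single ⟨?_, ?_, inSq_kd hs hs (Or.inl rfl) hp⟩
      · exact ⟨e0, Relation.ReflTransGen.refl, Or.inl rfl⟩
      · exact ⟨e0, Relation.ReflTransGen.refl, hp⟩
    | tail h1 h2 ih =>
      rename_i e e'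
      intro p hp
      have h3 := ih (ep1 e) (Or.inl rfl)
      obtain ⟨_, _, s, hs, hs'⟩ := id h2
      refine Relation.ReflTransGen.tail h3 ⟨⟨e, h1, Or.inl rfl⟩, ?_, inSq_kd hs hs' (Or.inl rfl) hp⟩
      exact ⟨e', Relation.ReflTransGen.tail h1 h2, hp⟩
  obtain ⟨e, he, hpe⟩ := hp
  obtain ⟨e', he', hqe⟩ := hq
  exact (main e he p hpe).symm.trans (main e' he' q hqe)

/-- lattice neighbours in coordinates -/
lemma adj_cases {p q : ℤ × ℤ} (h : lattice.Adj p q) :
    (∃ e : CE, p = ep1 e ∧ q = ep2 e) ∨ (∃ e : CE, p = ep2 e ∧ q = ep1 e) := by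
  obtain ⟨a, b⟩ := p
  obtain ⟨c, d⟩ := q
  have h' : (a - c) ^ 2 + (b - d) ^ 2 = 1 := h
  have h1 : (a - c) ^ 2 ≤ 1 := by nlinarith [sq_nonneg (b - d)]
  have h2 : (b - d) ^ 2 ≤ 1 := by nlinarith [sq_nonneg (a - c)]
  have h3 : -1 ≤ a - c ∧ a - c ≤ 1 := abs_le.1 (by
    rw [← sq_le_one_iff_abs_le_one]; exact h1)
  have h4 : -1 ≤ b - d ∧ b - d ≤ 1 := abs_le.1 (by
    rw [← sq_le_one_iff_abs_le_one]; exact h2)
  have h5 : a - c = -1 ∨ a - c = 0 ∨ a - c = 1 := by omega
  have h6 : b - d = -1 ∨ b - d = 0 ∨ b - d = 1 := by omega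
  rcases h5 with h5 | h5 | h5 <;> rcases h6 with h6 | h6 | h6 <;> rw [h5, h6] at h' <;>
    norm_num at h'
  · left
    refine ⟨(a, b, false), rfl, ?_⟩
    simp only [ep2, Prod.mk.injEq]; omega
  · left
    refine ⟨(a, b, true), rfl, ?_⟩
    simp only [ep2, Prod.mk.injEq]; omega
  · right
    refine ⟨(c, d, true), ?_, rfl⟩
    simp only [ep2, Prod.mk.injEq]; omega
  · right
    refine ⟨(c, d, false), ?_, rfl⟩
    simp only [ep2, Prod.mk.injEq]; omega

lemma adj_ep (e : CE) : lattice.Adj (ep1 e) (ep2 e) := by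
  obtain ⟨x, y, b⟩ := e
  cases b
  · show (x - (x + 1)) ^ 2 + (y - y) ^ 2 = 1
    ring
  · show (x - x) ^ 2 + (y - (y + 1)) ^ 2 = 1
    ring

/-- planar duality: a finite set containing the origin is surrounded by a king-connected set of
endpoints of boundary edges -/
theorem duality (C : Finset (ℤ × ℤ)) (hC : (0, 0) ∈ C) :
    ∃ (V : Set (ℤ × ℤ)) (f : ℤ × ℤ → ZMod 2) (X0 : ℕ),
      V.Nonempty ∧
      (∀ p ∈ V, ∃ q, lattice.Adj p q ∧ ¬ (p ∈ C ↔ q ∈ C)) ∧
      (∀ p ∈ V, ∀ q ∈ V, KConn V p q) ∧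
      f (0, 0) = 1 ∧
      (∀ p q, lattice.Adj p q → p ∉ V → f p = f q) ∧
      (∀ p, X0 < kd p (0, 0) → f p = 0) := by
  classical
  -- a bound for `C`
  obtain ⟨X0, hX0⟩ : ∃ X0 : ℕ, ∀ p ∈ C, kd p (0, 0) < X0 := by
    refine ⟨(C.sup fun p => kd p (0, 0)) + 1, fun p hp => ?_⟩
    have := Finset.le_sup (f := fun p => kd p (0, 0)) hp
    omega
  have hX : ∀ p ∈ C, (-(X0 : ℤ) < p.1 ∧ p.1 < X0) ∧ (-(X0 : ℤ) < p.2 ∧ p.2 < X0) := by
    intro p hp
    have := hX0 p hp
    unfold kd at this
    simp only at this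
    omega
  have hX0pos : 0 < X0 := lt_of_le_of_lt (Nat.zero_le _) (hX0 _ hC)
  -- parity of the boundary edges on the axis
  set A : Finset ℤ := (Finset.Ico (0 : ℤ) X0).filter fun s => bd C (s, 0, false) with hA
  have hcard : (A.card : ZMod 2) = 1 := by
    have h1 : (A.card : ZMod 2) = ∑ s ∈ Finset.Ico (0 : ℤ) X0,
        (ch C (s, 0) + ch C (s + 1, 0)) := by
      rw [hA, Finset.card_filter]
      push_cast
      apply Finset.sum_congr rfl
      intro s _
      have := ph_of_bd (C := C) (K := {e | bd C e}) (e := (s, 0, false)) Iff.rfl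
      simp only [ph, Set.mem_ofPred_eq, ep1, ep2] at this
      exact this
    have h2 : ∀ n : ℕ, ∑ s ∈ Finset.Ico (0 : ℤ) n, (ch C (s, 0) + ch C (s + 1, 0)) =
        ch C (0, 0) + ch C ((n : ℤ), 0) := by
      intro n
      induction n with
      | zero =>
        simp only [Nat.cast_zero, Finset.Ico_self, Finset.sum_empty]
        generalize ch C (0, 0) = a
        revert a; decide
      | succ n ih =>
        have : Finset.Ico (0 : ℤ) ((n + 1 : ℕ) : ℤ) = insert (n : ℤ) (Finset.Ico (0 : ℤ) n) := by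
          ext s; simp only [Finset.mem_Ico, Finset.mem_insert]; push_cast; omega
        rw [this, Finset.sum_insert (by simp), ih]
        push_cast
        generalize ch C (0, 0) = a
        generalize ch C ((n : ℤ), 0) = b
        generalize ch C ((n : ℤ) + 1, 0) = c
        revert a b c; decide
    rw [h1, h2 X0]
    have h3 : ch C (0, 0) = 1 := by simp [ch, hC]
    have h4 : ch C ((X0 : ℤ), 0) = 0 := by
      have : ((X0 : ℤ), (0 : ℤ)) ∉ C := fun h => by
        have := hX _ h; simp only at this; omega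
      simp [ch, this]
    rw [h3, h4, add_zero]
  -- a class of odd parity
  obtain ⟨s0, hs0, hodd⟩ : ∃ s0 ∈ A,
      ((A.filter fun s => cls C (s, 0, false) = cls C (s0, 0, false)).card : ZMod 2) = 1 := by
    by_contra hcon
    push Not at hcon
    have h1 := Finset.card_eq_sum_card_image (fun s : ℤ => cls C (s, 0, false)) A
    have h2 : (A.card : ZMod 2) = 0 := by
      rw [h1]
      push_cast
      apply Finset.sum_eq_zero
      intro K hK
      obtain ⟨s0, hs0, rfl⟩ := Finset.mem_image.1 hK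
      have h3 := hcon s0 hs0
      have h4 : ∀ z : ZMod 2, z ≠ 1 → z = 0 := by decide
      exact h4 _ h3
    rw [hcard] at h2
    exact one_ne_zero h2
  have hb0 : bd C (s0, 0, false) := (Finset.mem_filter.1 hs0).2
  set K := cls C (s0, 0, false) with hK
  refine ⟨verts K, pot K X0, X0 + 1, ?_, ?_, ?_, ?_, ?_, ?_⟩
  · exact ⟨(s0, 0), (s0, 0, false), Relation.ReflTransGen.refl, Or.inl rfl⟩
  · rintro p ⟨e, he, hp⟩
    have hb := cls_bd hb0 he
    rcases hp with rfl | rfl
    · exact ⟨ep2 e, adj_ep e, hb⟩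
    · exact ⟨ep1 e, (adj_ep e).symm, fun h => hb h.symm⟩
  · intro p hp q hq
    exact verts_conn hp hq
  · unfold pot
    simp only
    rw [← hodd]
    rw [Finset.card_filter]
    push_cast
    rw [hA, Finset.sum_filter]
    apply Finset.sum_congr rfl
    intro s _
    by_cases hs : (s, (0 : ℤ), false) ∈ K
    · have h1 : bd C (s, 0, false) := cls_bd hb0 hs
      have h2 : cls C (s, 0, false) = K := cls_eq hs
      simp [ph, hs, h1, h2]
    · have h2 : ¬ (cls C (s, 0, false) = K) := by
        intro h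
        apply hs
        rw [← h]
        exact Relation.ReflTransGen.refl
      simp [ph, hs, h2]
  · intro p q hadj hpV
    rcases adj_cases hadj with ⟨e, rfl, rfl⟩ | ⟨e, rfl, rfl⟩
    · have hne : e ∉ K := fun h => hpV ⟨e, h, Or.inl rfl⟩
      have hz : ph K e = 0 := by simp [ph, hne]
      obtain ⟨x, y, b⟩ := e
      cases b
      · have := pot_step_x hX hb0 x y
        rw [← hK, hz, zero_add] at this
        exact this
      · have := pot_step_y hX hb0 x y
        rw [← hK, hz, zero_add] at this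
        exact this
    · have hne : e ∉ K := fun h => hpV ⟨e, h, Or.inr rfl⟩
      have hz : ph K e = 0 := by simp [ph, hne]
      obtain ⟨x, y, b⟩ := e
      cases b
      · have := pot_step_x hX hb0 x y
        rw [← hK, hz, zero_add] at this
        exact this.symm
      · have := pot_step_y hX hb0 x y
        rw [← hK, hz, zero_add] at this
        exact this.symm
  · intro p hp
    apply pot_far hX hb0
    push_cast at hp ⊢
    omega

end

section

lemma KConn.mono {V W : Set (ℤ × ℤ)} (h : V ⊆ W) {p q : ℤ × ℤ} (hc : KConn V p q) :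
    KConn W p q := by
  induction hc with
  | refl => exact Relation.ReflTransGen.refl
  | tail _ hab ih => exact Relation.ReflTransGen.tail ih ⟨h hab.1, h hab.2.1, hab.2.2⟩

lemma kd_lip {a b x : ℤ × ℤ} (h : kd a b ≤ 1) : kd a x ≤ kd b x + 1 ∧ kd b x ≤ kd a x + 1 := by
  have h1 := kd_triangle a b x
  have h2 := kd_triangle b a x
  rw [kd_comm b a] at h2
  omega

/-- truncation of a chain at its first exit from a box -/
lemma trunc {V : Set (ℤ × ℤ)} {x : ℤ × ℤ} {b : ℕ} {u w : ℤ × ℤ} (h : KConn V u w)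
    (hu : kd u x ≤ b) (hw : b < kd w x) :
    ∃ w', kd w' x = b + 1 ∧ KConn {p | p ∈ V ∧ kd p x ≤ b + 1} u w' := by
  have key : (kd w x ≤ b ∧ KConn {p | p ∈ V ∧ kd p x ≤ b + 1} u w) ∨
      ∃ w', kd w' x = b + 1 ∧ KConn {p | p ∈ V ∧ kd p x ≤ b + 1} u w' := by
    clear hw
    induction h with
    | refl => exact Or.inl ⟨hu, Relation.ReflTransGen.refl⟩
    | tail hprev hstep ih =>
      rename_i w w'
      rcases ih with ⟨h1, h2⟩ | h
      · obtain ⟨hwV, hwV', hk⟩ := hstep
        have h3 := kd_lip (x := x) hk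
        have h4 : KConn {p | p ∈ V ∧ kd p x ≤ b + 1} u w' :=
          Relation.ReflTransGen.tail h2 ⟨⟨hwV, by omega⟩, ⟨hwV', by omega⟩, hk⟩
        by_cases h5 : kd w' x ≤ b
        · exact Or.inl ⟨h5, h4⟩
        · exact Or.inr ⟨w', by omega, h4⟩
      · exact Or.inr h
  rcases key with ⟨h1, _⟩ | h
  · omega
  · exact h

/-- a chain crossing an annulus contains a chain inside the annulus -/
lemma extract {V : Set (ℤ × ℤ)} {x : ℤ × ℤ} {a b : ℕ} (hab : a < b) {u w : ℤ × ℤ}
    (h : KConn V u w) (hu : kd u x ≤ a) (hw : b ≤ kd w x) :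
    ∃ u' w', u' ∈ V ∧ kd u' x = a ∧ kd w' x = b ∧
      KConn {p | p ∈ V ∧ a ≤ kd p x ∧ kd p x ≤ b} u' w' := by
  have key : kd w x ≤ a ∨ (a < kd w x ∧ kd w x < b ∧ ∃ u' ∈ V, kd u' x = a ∧
      KConn {p | p ∈ V ∧ a ≤ kd p x ∧ kd p x ≤ b} u' w) ∨
      ∃ u' w', u' ∈ V ∧ kd u' x = a ∧ kd w' x = b ∧
      KConn {p | p ∈ V ∧ a ≤ kd p x ∧ kd p x ≤ b} u' w' := by
    clear hw
    induction h with
    | refl => exact Or.inl hu
    | tail hprev hstep ih =>
      rename_i w w'
      obtain ⟨hwV, hwV', hk⟩ := hstep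
      have h3 := kd_lip (x := x) hk
      rcases ih with h | ⟨h1, h2, u', hu', hu'a, hc⟩ | h
      · by_cases h4 : kd w' x ≤ a
        · exact Or.inl h4
        · right
          have h5 : kd w x = a := by omega
          have h6 : KConn {p | p ∈ V ∧ a ≤ kd p x ∧ kd p x ≤ b} w w' :=
            Relation.ReflTransGen.single ⟨⟨hwV, by omega, by omega⟩, ⟨hwV', by omega, by omega⟩, hk⟩
          by_cases h7 : kd w' x < b
          · exact Or.inl ⟨by omega, h7, w, hwV, h5, h6⟩
          · exact Or.inr ⟨w, w', hwV, h5, by omega, h6⟩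
      · by_cases h4 : kd w' x ≤ a
        · exact Or.inl h4
        · right
          have h6 : KConn {p | p ∈ V ∧ a ≤ kd p x ∧ kd p x ≤ b} u' w' :=
            Relation.ReflTransGen.tail hc
              ⟨⟨hwV, by omega, by omega⟩, ⟨hwV', by omega, by omega⟩, hk⟩
          by_cases h7 : kd w' x < b
          · exact Or.inl ⟨by omega, h7, u', hu', hu'a, h6⟩
          · exact Or.inr ⟨u', w', hu', hu'a, by omega, h6⟩
      · exact Or.inr (Or.inr h)
  rcases key with h | ⟨_, h, _⟩ | h
  · omega
  · omega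
  · exact h

/-- a long chain in `W` near `y` -/
def Arm (W : Set (ℤ × ℤ)) (l : ℕ) (y : ℤ × ℤ) : Prop :=
  ∃ u w, kd u y ≤ l ∧ 2 * l < kd w y ∧ KConn {p | p ∈ W ∧ kd p y ≤ 2 * l + 1} u w

lemma arm_of_chain {W : Set (ℤ × ℤ)} {l : ℕ} (hl : 1 ≤ l) {u w y : ℤ × ℤ} (h : KConn W u w)
    (huw : 4 * l ≤ kd u w) (hy : kd u y ≤ l) : Arm W l y := by
  have h1 := kd_triangle u y w
  rw [kd_comm y w] at h1
  obtain ⟨w', hw', hc⟩ := trunc (b := 2 * l) (x := y) h (by omega) (by omega)
  exact ⟨u, w', hy, by omega, hc⟩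

/-- the deterministic step of the multi-scale analysis -/
lemma step_det {V W : Set (ℤ × ℤ)} {x : ℤ × ℤ} {l L : ℕ} (hl : 1 ≤ l) (hL : 20 * l ≤ L)
    (harm : Arm V (10 * L) x)
    (hO : ∃ c : ℤ × ℤ, ∀ p ∈ V, kd p x ≤ 20 * L + 1 → p ∉ W → kd p c ≤ L + 1) :
    ∃ u1 u2, kd u1 x ≤ 20 * L ∧ kd u2 x ≤ 20 * L ∧ 11 * l ≤ kd u1 u2 ∧
      (∀ y, kd u1 y ≤ l → Arm W l y) ∧ (∀ y, kd u2 y ≤ l → Arm W l y) := by
  obtain ⟨u, w, hu, hw, hc⟩ := harm
  obtain ⟨c, hc0⟩ := hO
  have hfree : ∃ a, (a = 10 * L ∨ a = 14 * L) ∧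
      ∀ p ∈ V, a ≤ kd p x → kd p x ≤ a + L → p ∈ W := by
    by_cases h1 : ∀ p ∈ V, 10 * L ≤ kd p x → kd p x ≤ 10 * L + L → p ∈ W
    · exact ⟨10 * L, Or.inl rfl, h1⟩
    · push Not at h1
      obtain ⟨p, hpV, hp1, hp2, hpW⟩ := h1
      refine ⟨14 * L, Or.inr rfl, ?_⟩
      intro q hqV hq1 hq2
      by_contra hqW
      have e1 := hc0 p hpV (by omega) hpW
      have e2 := hc0 q hqV (by omega) hqW
      have e3 := kd_triangle q c p
      rw [kd_comm c p] at e3
      have e4 := kd_triangle q p x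
      omega
  obtain ⟨a, ha, hfree⟩ := hfree
  obtain ⟨u1, w1, hu1V, hu1, hw1, hc1⟩ := extract (a := a) (b := a + L) (x := x) (by omega) hc
    (by omega) (by omega)
  have hc1' : KConn {p | p ∈ W ∧ a ≤ kd p x ∧ kd p x ≤ a + L} u1 w1 :=
    hc1.mono (fun p hp => (⟨hfree p hp.1.1 hp.2.1 hp.2.2, hp.2⟩ :
      p ∈ W ∧ a ≤ kd p x ∧ kd p x ≤ a + L))
  obtain ⟨u2, w2, hu2V, hu2, hw2, hc2⟩ := extract (a := a + 11 * l) (b := a + L) (x := x)
    (by omega) hc1' (by omega) (by omega)
  have d1 := kd_triangle w1 u1 x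
  have d2 := kd_triangle w2 u2 x
  have d3 := kd_triangle u2 u1 x
  rw [kd_comm w1 u1] at d1
  rw [kd_comm w2 u2] at d2
  rw [kd_comm u2 u1] at d3
  refine ⟨u1, u2, by omega, by omega, by omega, ?_, ?_⟩
  · intro y hy
    exact arm_of_chain hl (hc1'.mono fun p hp => hp.1) (by omega) hy
  · intro y hy
    exact arm_of_chain hl (hc2.mono fun p hp => hp.1.1) (by omega) hy

end

section

/-- ratio parameter, about `n^(1/4)` -/
def mm (n : ℕ) : ℕ := Nat.sqrt (Nat.sqrt n) + 1

/-- the length scales -/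
def ell : ℕ → ℕ
  | 0 => 1
  | n + 1 => 10 * (20 * mm n * ell n)

/-- the sizes of the obstacles -/
def LL (n : ℕ) : ℕ := 20 * mm n * ell n

lemma ell_succ (n : ℕ) : ell (n + 1) = 10 * LL n := rfl

lemma mm_pos (n : ℕ) : 1 ≤ mm n := by unfold mm; omega

lemma ell_pos (n : ℕ) : 1 ≤ ell n := by
  induction n with
  | zero => exact le_rfl
  | succ n ih =>
    have := mm_pos n
    show 1 ≤ 10 * (20 * mm n * ell n)
    have h2 : 1 ≤ mm n * ell n := Nat.mul_pos this ih
    nlinarith

lemma LL_ge (n : ℕ) : 20 * ell n ≤ LL n := by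
  have := mm_pos n
  unfold LL
  nlinarith [ell_pos n]

lemma LL_ge' (n : ℕ) : 20 ≤ LL n := by
  have := LL_ge n
  have := ell_pos n
  omega

lemma ell_le_succ (n : ℕ) : 200 * ell n ≤ ell (n + 1) := by
  rw [ell_succ]
  have := LL_ge n
  omega

lemma ell_mono : Monotone ell := monotone_nat_of_le_succ fun n => by
  have := ell_le_succ n
  omega

lemma LL_le_ell {i n : ℕ} (h : i < n) : 10 * LL i ≤ ell n := by
  rw [← ell_succ]
  exact ell_mono h

lemma ell_gt (n : ℕ) : n < ell n := by
  induction n with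
  | zero => exact Nat.one_pos
  | succ n ih =>
    have := ell_le_succ n
    omega

lemma ell_zero : ell 0 = 1 := rfl

attribute [irreducible] mm ell LL

/-- the box of a base obstacle -/
def QQ (L : ℕ) (p : ℤ × ℤ) : Prop := -(L : ℤ) ≤ p.1 ∧ p.1 ≤ L ∧ 0 ≤ p.2 ∧ p.2 ≤ L

/-- the edges of the base obstacle: edges leaving the box through its left, right or top side -/
def Ob (L : ℕ) (e : Edge) : Prop := ∃ u v, e.1 = s(u, v) ∧ QQ L u ∧ ¬ QQ L v ∧ 0 ≤ v.2

/-- a set of vertices containing the endpoints of the base obstacle -/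
def VO (L : ℕ) (p : ℤ × ℤ) : Prop := (-(L : ℤ) - 1 ≤ p.1 ∧ p.1 ≤ L + 1) ∧
  (0 ≤ p.2 ∧ p.2 ≤ L + 1) ∧ (p.1 ≤ -(L : ℤ) ∨ (L : ℤ) ≤ p.1 ∨ (L : ℤ) ≤ p.2)

lemma adj_kd {p q : ℤ × ℤ} (h : lattice.Adj p q) : kd p q ≤ 1 := by
  rcases adj_cases h with ⟨⟨x, y, b⟩, rfl, rfl⟩ | ⟨⟨x, y, b⟩, rfl, rfl⟩ <;> cases b <;>
    (rw [kd_le_iff]; simp only [ep1, ep2]; omega)

/-- adjacent points differ in exactly one coordinate, by one -/
lemma adj_coord {p q : ℤ × ℤ} (h : lattice.Adj p q) :
    (p.1 = q.1 ∧ (p.2 = q.2 + 1 ∨ q.2 = p.2 + 1)) ∨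
    (p.2 = q.2 ∧ (p.1 = q.1 + 1 ∨ q.1 = p.1 + 1)) := by
  rcases adj_cases h with ⟨⟨x, y, b⟩, rfl, rfl⟩ | ⟨⟨x, y, b⟩, rfl, rfl⟩ <;> cases b <;>
    simp [ep1, ep2]

lemma Ob_VO {L : ℕ} {e : Edge} (h : Ob L e) {p : ℤ × ℤ} (hp : p ∈ e.1) : VO L p := by
  obtain ⟨u, v, he, hu, hv, hv2⟩ := h
  have hadj : lattice.Adj u v := by
    have := e.2
    rw [he] at this
    exact this
  have hc := adj_coord hadj
  rw [he, Sym2.mem_iff] at hp
  unfold QQ at hu hv
  unfold VO
  rcases hp with rfl | rfl <;> omega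

/-- indices of the independent bits: presence of obstacles, holes, single edges -/
abbrev Idx : Type := (ℕ × Aut) ⊕ (ℕ × Edge) ⊕ Edge

/-- `v (ia n g) = false` when the obstacle `g(Ob (LL n))` is present -/
abbrev ia (n : ℕ) (g : Aut) : Idx := Sum.inl (n, g)
/-- `v (ih n e) = true` when the edge `e` is immune to the obstacles of scale `n` -/
abbrev ih (n : ℕ) (e : Edge) : Idx := Sum.inr (Sum.inl (n, e))
/-- `v (ic e) = false` when the edge `e` is closed by itself -/
abbrev ic (e : Edge) : Idx := Sum.inr (Sum.inr e)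

open Classical in
/-- the configuration -/
noncomputable def F (v : Idx → Bool) : Config := fun e =>
  decide (v (ic e) = true ∧
    ∀ n (g : Aut), Ob (LL n) (g.symm.mapEdgeSet e) → v (ia n g) = true ∨ v (ih n e) = true)

lemma F_true {v : Idx → Bool} {e : Edge} : F v e = true ↔ v (ic e) = true ∧
    ∀ n (g : Aut), Ob (LL n) (g.symm.mapEdgeSet e) → v (ia n g) = true ∨ v (ih n e) = true := by
  simp [F]

lemma F_false {v : Idx → Bool} {e : Edge} : F v e = false ↔ v (ic e) = false ∨
    ∃ n, ∃ g : Aut, Ob (LL n) (g.symm.mapEdgeSet e) ∧ v (ia n g) = false ∧ v (ih n e) = false := by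
  rw [← Bool.not_eq_true, F_true]
  push Not
  constructor
  · intro h
    by_cases h1 : v (ic e) = true
    · obtain ⟨n, g, h2, h3, h4⟩ := h h1
      exact Or.inr ⟨n, g, h2, by simpa using h3, by simpa using h4⟩
    · exact Or.inl (by simpa using h1)
  · rintro (h | ⟨n, g, h2, h3, h4⟩) h1
    · rw [h] at h1; exact absurd h1 (by simp)
    · exact ⟨n, g, h2, by simp [h3], by simp [h4]⟩

/-- the vertex is touched by an obstacle of scale `n` -/
def Hit (n : ℕ) (v : Idx → Bool) (p : ℤ × ℤ) : Prop :=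
  ∃ g : Aut, v (ia n g) = false ∧ VO (LL n) (g.symm p)

/-- the vertex is touched by a single closed edge -/
def Hit0 (v : Idx → Bool) (p : ℤ × ℤ) : Prop := ∃ e : Edge, p ∈ e.1 ∧ v (ic e) = false

/-- vertices touched at scales below `n` -/
def Bl (n : ℕ) (v : Idx → Bool) : Set (ℤ × ℤ) := {p | Hit0 v p ∨ ∃ i < n, Hit i v p}

lemma closed_hit {v : Idx → Bool} {e : Edge} (h : F v e = false) {p : ℤ × ℤ} (hp : p ∈ e.1) :
    Hit0 v p ∨ ∃ n, Hit n v p := by
  rcases F_false.1 h with h | ⟨n, g, h1, h2, _⟩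
  · exact Or.inl ⟨e, hp, h⟩
  · refine Or.inr ⟨n, g, h2, ?_⟩
    apply Ob_VO h1
    have : (g.symm.mapEdgeSet e).1 = Sym2.map g.symm e.1 := rfl
    rw [this, Sym2.mem_map]
    exact ⟨p, hp, rfl⟩

/-- the long-chain event -/
def T (n : ℕ) (v : Idx → Bool) (y : ℤ × ℤ) : Prop := Arm (Bl n v) (ell n) y

/-! ### finite sets of indices -/

/-- edge with given coordinates -/
def ce (e : CE) : Edge := ⟨s(ep1 e, ep2 e), adj_ep e⟩

lemma ce_surj (e : Edge) {p : ℤ × ℤ} (hp : p ∈ e.1) : ∃ c : CE, ce c = e ∧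
    (p = ep1 c ∨ p = ep2 c) := by
  obtain ⟨e, he⟩ := e
  induction e using Sym2.ind with
  | _ x y =>
    have hadj : lattice.Adj x y := he
    rw [Sym2.mem_iff] at hp
    rcases adj_cases hadj with ⟨c, rfl, rfl⟩ | ⟨c, rfl, rfl⟩
    · exact ⟨c, rfl, hp⟩
    · refine ⟨c, Subtype.ext ?_, hp.symm⟩
      exact Sym2.eq_swap

open Classical in
/-- finitely many edges, containing all those touching the box -/
noncomputable def eNear (y : ℤ × ℤ) (r : ℕ) : Finset Edge :=
  ((Finset.Icc (y.1 - r - 1) (y.1 + r) ×ˢ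
    (Finset.Icc (y.2 - r - 1) (y.2 + r) ×ˢ (Finset.univ : Finset Bool))) : Finset CE).image ce

lemma mem_eNear {y : ℤ × ℤ} {r : ℕ} {e : Edge} {p : ℤ × ℤ} (hp : p ∈ e.1) (h : kd p y ≤ r) :
    e ∈ eNear y r := by
  classical
  obtain ⟨c, rfl, hc⟩ := ce_surj e hp
  unfold eNear
  rw [Finset.mem_image]
  refine ⟨c, ?_, rfl⟩
  rw [kd_le_iff] at h
  obtain ⟨x, y', b⟩ := c
  simp only [Finset.mem_product, Finset.mem_Icc, Finset.mem_univ, and_true]
  rcases hc with rfl | rfl
  · simp only [ep1] at h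
    omega
  · cases b <;> simp only [ep2] at h <;> omega

lemma of_mem_eNear {y : ℤ × ℤ} {r : ℕ} {e : Edge} (h : e ∈ eNear y r) :
    ∃ p ∈ e.1, kd p y ≤ r + 1 := by
  classical
  unfold eNear at h
  rw [Finset.mem_image] at h
  obtain ⟨⟨x, y', b⟩, hc, rfl⟩ := h
  simp only [Finset.mem_product, Finset.mem_Icc, Finset.mem_univ, and_true] at hc
  refine ⟨ep1 (x, y', b), Sym2.mem_mk_left _ _, ?_⟩
  rw [kd_le_iff]
  simp only [ep1]
  push_cast
  omega

lemma card_eNear (y : ℤ × ℤ) (r : ℕ) : (eNear y r).card ≤ 2 * (2 * r + 2) ^ 2 := by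
  classical
  unfold eNear
  refine Finset.card_image_le.trans ?_
  rw [Finset.card_product, Finset.card_product, Int.card_Icc, Int.card_Icc]
  simp only [Finset.card_univ, Fintype.card_bool]
  have h1 : (y.1 + ↑r + 1 - (y.1 - ↑r - 1)).toNat = 2 * r + 2 := by omega
  have h2 : (y.2 + ↑r + 1 - (y.2 - ↑r - 1)).toNat = 2 * r + 2 := by omega
  rw [h1, h2]
  apply le_of_eq
  ring

/-- positions from which the base obstacle is within distance `r` -/
noncomputable def Nf (L r : ℕ) : Finset (ℤ × ℤ) :=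
  (Finset.Icc (-(L : ℤ) - r - 1) (-(L : ℤ) + r) ×ˢ Finset.Icc (-(r : ℤ)) (L + 1 + r)) ∪
  (Finset.Icc ((L : ℤ) - r) (L + 1 + r) ×ˢ Finset.Icc (-(r : ℤ)) (L + 1 + r)) ∪
  (Finset.Icc (-(L : ℤ) - r - 1) (L + 1 + r) ×ˢ Finset.Icc ((L : ℤ) - r) (L + 1 + r))

lemma mem_Nf {L r : ℕ} {p s : ℤ × ℤ} (hp : VO L p) (h : kd p s ≤ r) : s ∈ Nf L r := by
  rw [kd_le_iff] at h
  unfold VO at hp
  unfold Nf
  simp only [Finset.mem_union, Finset.mem_product, Finset.mem_Icc]
  omega

lemma Nf_bound {L r : ℕ} {s : ℤ × ℤ} (h : s ∈ Nf L r) : kd s (0, 0) ≤ L + r + 1 := by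
  unfold Nf at h
  simp only [Finset.mem_union, Finset.mem_product, Finset.mem_Icc] at h
  rw [kd_le_iff]
  push_cast
  omega

lemma card_Nf (L r : ℕ) : (Nf L r).card ≤ 14 * ((r + 1) * (L + r + 1)) := by
  unfold Nf
  refine (Finset.card_union_le _ _).trans ?_
  refine (Nat.add_le_add_right (Finset.card_union_le _ _) _).trans ?_
  rw [Finset.card_product, Finset.card_product, Finset.card_product]
  simp only [Int.card_Icc]
  have h1 : (-(L : ℤ) + r + 1 - (-(L : ℤ) - r - 1)).toNat = 2 * r + 2 := by omega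
  have h2 : ((L : ℤ) + 1 + r + 1 - (-(r : ℤ))).toNat = L + 2 * r + 2 := by omega
  have h3 : ((L : ℤ) + 1 + r + 1 - ((L : ℤ) - r)).toNat = 2 * r + 2 := by omega
  have h4 : ((L : ℤ) + 1 + r + 1 - (-(L : ℤ) - r - 1)).toNat = 2 * L + 2 * r + 3 := by omega
  rw [h1, h2, h3, h4]
  nlinarith

/-- finitely many automorphisms, containing all those which bring the obstacle near `x` -/
noncomputable def Hf (L : ℕ) (x : ℤ × ℤ) (r : ℕ) : Finset Aut :=
  Finset.preimage (Nf L r ×ˢ (Finset.univ : Finset (Bool × Bool × Bool)))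
    (fun g : Aut => (g.symm x, lin g)) (aut_inj x).injOn

lemma mem_Hf_iff {L r : ℕ} {x : ℤ × ℤ} {g : Aut} : g ∈ Hf L x r ↔ g.symm x ∈ Nf L r := by
  simp [Hf]

lemma mem_Hf {L r : ℕ} {x p : ℤ × ℤ} {g : Aut} (hp : VO L (g.symm p)) (h : kd p x ≤ r) :
    g ∈ Hf L x r := by
  rw [mem_Hf_iff]
  apply mem_Nf hp
  have := kd_map g.symm p x
  rw [this]; exact h

lemma card_Hf (L : ℕ) (x : ℤ × ℤ) (r : ℕ) : (Hf L x r).card ≤ 112 * ((r + 1) * (L + r + 1)) := by
  have h1 : (Hf L x r).card ≤ (Nf L r ×ˢ (Finset.univ : Finset (Bool × Bool × Bool))).card := by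
    apply Finset.card_le_card_of_injOn (fun g : Aut => (g.symm x, lin g))
    · intro g hg
      have := mem_Hf_iff.1 hg
      simp [this]
    · exact (aut_inj x).injOn
  have h2 : (Finset.univ : Finset (Bool × Bool × Bool)).card = 8 := by decide
  rw [Finset.card_product, h2] at h1
  have h3 := card_Nf L r
  omega

lemma Hf_far {L r : ℕ} {x y : ℤ × ℤ} {g : Aut} (hx : g ∈ Hf L x r) (hy : g ∈ Hf L y r) :
    kd x y ≤ 2 * (L + r + 1) := by
  rw [mem_Hf_iff] at hx hy
  have h1 := Nf_bound hx
  have h2 := Nf_bound hy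
  have h3 := kd_triangle (g.symm x) (0, 0) (g.symm y)
  rw [kd_comm (0, 0) (g.symm y), kd_map g.symm x y] at h3
  omega

open Classical in
/-- the indices on which the long-chain event depends -/
noncomputable def JJ (n : ℕ) (y : ℤ × ℤ) : Finset Idx :=
  (eNear y (2 * ell n + 1)).image ic ∪
    (Finset.range n).biUnion fun i => (Hf (LL i) y (2 * ell n + 1)).image (ia i)

/-- the event depends only on the bits in `J` -/
def Dep (J : Set Idx) (f : (Idx → Bool) → Prop) : Prop :=
  ∀ v v' : Idx → Bool, (∀ i ∈ J, v i = v' i) → (f v → f v')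

lemma T_dep (n : ℕ) (y : ℤ × ℤ) : Dep (JJ n y) fun v => T n v y := by
  classical
  have h0 : ∀ v v' : Idx → Bool, (∀ i ∈ JJ n y, v i = v' i) → ∀ p, kd p y ≤ 2 * ell n + 1 →
      p ∈ Bl n v → p ∈ Bl n v' := by
    intro v v' hv p hp hb
    rcases hb with ⟨e, he, hve⟩ | ⟨i, hi, g, hg, hVO⟩
    · refine Or.inl ⟨e, he, ?_⟩
      rw [← hv, hve]
      unfold JJ
      rw [Finset.mem_union]
      exact Or.inl (Finset.mem_image_of_mem _ (mem_eNear he hp))
    · refine Or.inr ⟨i, hi, g, ?_, hVO⟩
      rw [← hv, hg]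
      unfold JJ
      rw [Finset.mem_union]
      refine Or.inr ?_
      rw [Finset.mem_biUnion]
      exact ⟨i, Finset.mem_range.2 hi, Finset.mem_image_of_mem _ (mem_Hf hVO hp)⟩
  intro v v' hv hT
  obtain ⟨u, w, hu, hw, hc⟩ := hT
  refine ⟨u, w, hu, hw, hc.mono ?_⟩
  rintro p ⟨h1, h2⟩
  exact ⟨h0 v v' (fun i hi => hv i (by exact_mod_cast hi)) p h2 h1, h2⟩

lemma JJ_disj {n : ℕ} {y y' : ℤ × ℤ} (h : 9 * ell n < kd y y') : Disjoint (JJ n y) (JJ n y') := by
  classical
  rw [Finset.disjoint_left]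
  intro i hi hi'
  unfold JJ at hi hi'
  rw [Finset.mem_union, Finset.mem_image, Finset.mem_biUnion] at hi hi'
  have hl := ell_pos n
  rcases hi with ⟨e, he, rfl⟩ | ⟨k, hk, hi⟩
  · rcases hi' with ⟨e', he', hee⟩ | ⟨k', hk', hi'⟩
    · have h1 : e' = e := by simpa [ic] using hee
      subst h1
      obtain ⟨p, hp, hpy⟩ := of_mem_eNear he
      obtain ⟨p', hp', hpy'⟩ := of_mem_eNear he'
      have h2 : kd p p' ≤ 1 := by
        obtain ⟨e, hadj⟩ := e'
        induction e using Sym2.ind with
        | _ a b =>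
          have hadj' : lattice.Adj a b := hadj
          have h3 := adj_kd hadj'
          rw [Sym2.mem_iff] at hp hp'
          rcases hp with rfl | rfl <;> rcases hp' with rfl | rfl
          · rw [kd_self]; exact Nat.zero_le _
          · exact h3
          · rw [kd_comm]; exact h3
          · rw [kd_self]; exact Nat.zero_le _
      have h4 := kd_triangle y p y'
      have h5 := kd_triangle p p' y'
      rw [kd_comm y p] at h4
      omega
    · rw [Finset.mem_image] at hi'
      obtain ⟨g, _, hg⟩ := hi'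
      simp [ia, ic] at hg
  · rw [Finset.mem_image] at hi
    obtain ⟨g, hg, rfl⟩ := hi
    rcases hi' with ⟨e', _, hee⟩ | ⟨k', hk', hi'⟩
    · simp [ia, ic] at hee
    · rw [Finset.mem_image] at hi'
      obtain ⟨g', hg', hgg⟩ := hi'
      have h1 : k' = k ∧ g' = g := by simpa [ia] using hgg
      obtain ⟨rfl, rfl⟩ := h1
      have h2 := Hf_far hg hg'
      have h3 := LL_le_ell (Finset.mem_range.1 hk')
      have h4 := LL_ge' k'
      omega

end

section

open MeasureTheory ProbabilityTheory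

section
variable {ι : Type*}

/-- independent bits, `v i = false` with probability `q i` -/
noncomputable def prodB (q : ι → unitInterval) : Measure (ι → Bool) :=
  Measure.infinitePi fun i => bernoulliMeasure false true (q i)

instance (q : ι → unitInterval) : IsProbabilityMeasure (prodB q) := by
  unfold prodB; infer_instance

/-- weight of a bit -/
noncomputable def wq (q : unitInterval) (b : Bool) : ℝ := if b then 1 - q else q

lemma wq_nonneg (q : unitInterval) (b : Bool) : 0 ≤ wq q b := by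
  unfold wq
  split_ifs
  · linarith [q.2.2]
  · exact q.2.1

lemma bern_real (q : unitInterval) (b : Bool) : (bernoulliMeasure false true q).real {b} = wq q b := by
  classical
  rw [bernoulliMeasure_real_apply q (measurableSet_singleton b)]
  cases b <;> simp [wq]

lemma prodB_box (q : ι → unitInterval) (J : Finset ι) (b : ι → Bool) :
    (prodB q).real {v | ∀ i ∈ J, v i = b i} = ∏ i ∈ J, wq (q i) (b i) := by
  have h1 : {v : ι → Bool | ∀ i ∈ J, v i = b i} = Set.pi (J : Set ι) fun i => {b i} := by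
    ext v; simp [Set.mem_pi]
  rw [h1, measureReal_def, prodB, Measure.infinitePi_pi _ (fun _ _ => measurableSet_singleton _),
    ENNReal.toReal_prod]
  exact Finset.prod_congr rfl fun i _ => bern_real _ _

lemma measurableSet_box (J : Finset ι) (b : ι → Bool) :
    MeasurableSet {v : ι → Bool | ∀ i ∈ J, v i = b i} := by
  have h1 : {v : ι → Bool | ∀ i ∈ J, v i = b i} = Set.pi (J : Set ι) fun i => {b i} := by
    ext v; simp [Set.mem_pi]
  rw [h1]
  exact MeasurableSet.pi (Finset.countable_toSet _) fun _ _ => measurableSet_singleton _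

lemma prodB_one (q : ι → unitInterval) (i : ι) (b : Bool) :
    (prodB q).real {v | v i = b} = wq (q i) b := by
  have := prodB_box q {i} (fun _ => b)
  simpa using this

lemma prodB_two [DecidableEq ι] (q : ι → unitInterval) {i j : ι} (hij : i ≠ j) :
    (prodB q).real {v | v i = false ∧ v j = false} = (q i : ℝ) * q j := by
  have := prodB_box q {i, j} (fun _ => false)
  rw [Finset.prod_pair hij] at this
  simpa [wq] using this

/-- the event depends only on the bits in `J` -/
def DepJ (J : Set ι) (A : Set (ι → Bool)) : Prop :=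
  ∀ v v' : ι → Bool, (∀ i ∈ J, v i = v' i) → v ∈ A → v' ∈ A

/-- the sigma-algebra of one bit -/
abbrev sgm (i : ι) : MeasurableSpace (ι → Bool) :=
  MeasurableSpace.comap (fun v => v i) inferInstance

lemma sgm_le (i : ι) : sgm i ≤ (inferInstance : MeasurableSpace (ι → Bool)) :=
  (measurable_pi_apply i).comap_le

lemma iIndep_sgm (q : ι → unitInterval) : iIndep (fun i : ι => sgm i) (prodB q) := by
  have := iIndepFun_infinitePi (P := fun i : ι => bernoulliMeasure false true (q i))
    (X := fun _ u => u) (fun _ => measurable_id)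
  exact this

lemma DepJ.measurableSet_iSup {J : Set ι} {A : Set (ι → Bool)} (hA : DepJ J A)
    (hm : MeasurableSet A) : MeasurableSet[⨆ i ∈ J, sgm i] A := by
  classical
  set mix : (ι → Bool) → (ι → Bool) := fun v i => if i ∈ J then v i else false with hmix
  have h1 : mix ⁻¹' A = A := by
    ext v
    rw [Set.mem_preimage]
    constructor
    · intro h
      exact hA _ _ (fun i hi => by simp [hmix, hi]) h
    · intro h
      exact hA _ _ (fun i hi => by simp [hmix, hi]) h
  have h2 : @Measurable _ _ (⨆ i ∈ J, sgm i) _ mix := by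
    refine @measurable_pi_lambda _ _ _ (⨆ i ∈ J, sgm i) _ _ ?_
    intro i
    by_cases hi : i ∈ J
    · have h3 : sgm i ≤ ⨆ i ∈ J, sgm i := le_iSup₂ (f := fun i (_ : i ∈ J) => sgm i) i hi
      have h4 : (fun v : ι → Bool => mix v i) = fun v => v i := by
        funext v; simp [hmix, hi]
      rw [h4]
      exact (comap_measurable _).mono h3 le_rfl
    · have h4 : (fun v : ι → Bool => mix v i) = fun _ => false := by
        funext v; simp [hmix, hi]
      rw [h4]
      exact measurable_const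
  rw [← h1]
  exact h2 hm

lemma prodB_indep (q : ι → unitInterval) {J J' : Set ι} (hd : Disjoint J J')
    {A B : Set (ι → Bool)} (hA : DepJ J A) (hB : DepJ J' B) (hmA : MeasurableSet A)
    (hmB : MeasurableSet B) : prodB q (A ∩ B) = prodB q A * prodB q B := by
  have h1 := indep_iSup_of_disjoint sgm_le (iIndep_sgm q) hd
  exact (Indep_iff _ _ _).1 h1 _ _ (hA.measurableSet_iSup hmA) (hB.measurableSet_iSup hmB)

lemma DepJ.measurable {J : Finset ι} {A : Set (ι → Bool)} (hA : DepJ (J : Set ι) A) :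
    MeasurableSet A := by
  classical
  have h1 : A = (fun (v : ι → Bool) (i : J) => v i) ⁻¹'
      {a : J → Bool | (fun i => if h : i ∈ J then a ⟨i, h⟩ else false) ∈ A} := by
    ext v
    simp only [Set.mem_preimage, Set.mem_ofPred_eq]
    constructor
    · intro h
      exact hA _ _ (fun i hi => by
        have : i ∈ J := hi
        simp [this]) h
    · intro h
      exact hA _ _ (fun i hi => by
        have : i ∈ J := hi
        simp [this]) h
  rw [h1]
  have h2 : Measurable (fun (v : ι → Bool) (i : J) => v i) := by fun_prop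
  exact h2 (Set.to_countable _).measurableSet

lemma DepJ.mono {J J' : Set ι} (h : J ⊆ J') {A : Set (ι → Bool)} (hA : DepJ J A) : DepJ J' A :=
  fun v v' hv => hA v v' fun i hi => hv i (h hi)

end

end

section

open MeasureTheory ProbabilityTheory

/-- density of the obstacles of scale `n` -/
noncomputable def dens (n : ℕ) : ℝ := (1 / 10 ^ 13) / ((n + 1) * (LL n : ℝ) ^ 2)

/-- density of the holes of scale `n` -/
noncomputable def hol (n : ℕ) : ℝ :=
  1 / (2 ^ (n + 1) * ((eNear (0, 0) (3 * LL n)).card + 1))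

lemma dens_pos (n : ℕ) : 0 < dens n := by
  unfold dens
  have := LL_ge' n
  have h : (0 : ℝ) < LL n := by exact_mod_cast (by omega : 0 < LL n)
  positivity

lemma dens_lt (n : ℕ) : dens n < 1 := by
  unfold dens
  have := LL_ge' n
  have h : (1 : ℝ) ≤ LL n := by exact_mod_cast (by omega : 1 ≤ LL n)
  rw [div_lt_one (by positivity)]
  have h2 : (1 : ℝ) ≤ (LL n : ℝ) ^ 2 := one_le_pow₀ h
  have h3 : (1 : ℝ) ≤ n + 1 := by linarith [Nat.cast_nonneg (α := ℝ) n]
  have h4 : (1 : ℝ) ≤ (n + 1) * (LL n : ℝ) ^ 2 := one_le_mul_of_one_le_of_one_le h3 h2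
  have : (1 : ℝ) / 10 ^ 13 < 1 := by norm_num
  linarith

lemma hol_pos (n : ℕ) : 0 < hol n := by unfold hol; positivity

lemma hol_lt (n : ℕ) : hol n < 1 := by
  unfold hol
  rw [div_lt_one (by positivity)]
  have h1 : (2 : ℝ) ≤ 2 ^ (n + 1) := by
    rw [pow_succ]
    have : (1 : ℝ) ≤ 2 ^ n := one_le_pow₀ (by norm_num)
    linarith
  have h2 : (1 : ℝ) ≤ ((eNear (0, 0) (3 * LL n)).card + 1 : ℝ) := by
    linarith [Nat.cast_nonneg (α := ℝ) (eNear (0, 0) (3 * LL n)).card]
  nlinarith

/-- the parameters of the bits -/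
noncomputable def qq : Idx → unitInterval
  | Sum.inl (n, _) => ⟨dens n, (dens_pos n).le, (dens_lt n).le⟩
  | Sum.inr (Sum.inl (n, _)) => ⟨1 - hol n, by linarith [hol_lt n], by linarith [hol_pos n]⟩
  | Sum.inr (Sum.inr _) => ⟨1 / 10 ^ 16, by norm_num, by norm_num⟩

lemma qq_a (n : ℕ) (g : Aut) : (qq (ia n g) : ℝ) = dens n := rfl
lemma qq_h (n : ℕ) (e : Edge) : (qq (ih n e) : ℝ) = 1 - hol n := rfl
lemma qq_c (e : Edge) : (qq (ic e) : ℝ) = 1 / 10 ^ 16 := rfl

/-- the law of the independent bits -/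
noncomputable abbrev base : Measure (Idx → Bool) := prodB qq

lemma mm_pow_le (n : ℕ) : (mm n) ^ 4 ≤ 16 * (n + 1) := by
  unfold mm
  set s := Nat.sqrt n with hs
  set t := Nat.sqrt s with ht
  have h1 : t * t ≤ s := Nat.sqrt_le s
  have h2 : s * s ≤ n := Nat.sqrt_le n
  rcases Nat.eq_zero_or_pos t with h | h
  · rw [h]; omega
  · have h3 : (t + 1) ^ 4 ≤ (2 * t) ^ 4 := Nat.pow_le_pow_left (by omega) 4
    have h4 : (2 * t) ^ 4 = 16 * ((t * t) * (t * t)) := by ring
    have h5 : (t * t) * (t * t) ≤ s * s := Nat.mul_le_mul h1 h1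
    omega

lemma mm_pow_ge (n : ℕ) : n + 1 ≤ (mm n) ^ 4 := by
  unfold mm
  set s := Nat.sqrt n with hs
  set t := Nat.sqrt s with ht
  have h1 : n < (s + 1) * (s + 1) := Nat.lt_succ_sqrt n
  have h2 : s < (t + 1) * (t + 1) := Nat.lt_succ_sqrt s
  have h3 : (t + 1) ^ 4 = ((t + 1) * (t + 1)) * ((t + 1) * (t + 1)) := by ring
  rw [h3]
  have h4 : (s + 1) * (s + 1) ≤ ((t + 1) * (t + 1)) * ((t + 1) * (t + 1)) :=
    Nat.mul_le_mul h2 h2
  omega

lemma VO_kd {L : ℕ} {p : ℤ × ℤ} (h : VO L p) : kd p (0, 0) ≤ L + 1 := by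
  unfold VO at h
  rw [kd_le_iff]
  push_cast
  omega

/-- at most one obstacle of scale `n` near `x` -/
def Two (n : ℕ) (v : Idx → Bool) (x : ℤ × ℤ) (r : ℕ) : Prop :=
  ∃ g ∈ Hf (LL n) x r, ∃ g' ∈ Hf (LL n) x r, g ≠ g' ∧ v (ia n g) = false ∧ v (ia n g') = false

lemma one_obstacle {n : ℕ} {v : Idx → Bool} {x : ℤ × ℤ} {r : ℕ} (h : ¬ Two n v x r) :
    ∃ g0 : Aut, ∀ g : Aut, v (ia n g) = false → g ∈ Hf (LL n) x r → g = g0 := by
  unfold Two at h
  push Not at h
  by_cases hex : ∃ g, v (ia n g) = false ∧ g ∈ Hf (LL n) x r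
  · obtain ⟨g0, h1, h2⟩ := hex
    refine ⟨g0, fun g hg1 hg2 => ?_⟩
    by_contra hne
    exact h g hg2 g0 h2 hne hg1 h1
  · push Not at hex
    exact ⟨RelIso.refl _, fun g hg1 hg2 => absurd hg2 (hex g hg1)⟩

/-- grid points -/
def gp (n : ℕ) (y : ℤ × ℤ) (a : ℤ × ℤ) : ℤ × ℤ := (y.1 + ell n * a.1, y.2 + ell n * a.2)

lemma exists_gp (n : ℕ) {y u : ℤ × ℤ} {R : ℕ} (h : kd u y ≤ ell n * R) :
    ∃ a ∈ Finset.Icc (-(R : ℤ)) R ×ˢ Finset.Icc (-(R : ℤ)) R, kd u (gp n y a) < ell n := by
  have hl := ell_pos n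
  set l : ℤ := (ell n : ℤ) with hl'
  have hlpos : 0 < l := by omega
  rw [kd_le_iff] at h
  push_cast at h
  rw [← hl'] at h
  have d1 := Int.emod_add_mul_ediv (u.1 - y.1) l
  have d2 := Int.emod_add_mul_ediv (u.2 - y.2) l
  have m1 := Int.emod_nonneg (u.1 - y.1) hlpos.ne'
  have m2 := Int.emod_nonneg (u.2 - y.2) hlpos.ne'
  have m3 := Int.emod_lt_of_pos (u.1 - y.1) hlpos
  have m4 := Int.emod_lt_of_pos (u.2 - y.2) hlpos
  refine ⟨((u.1 - y.1) / l, (u.2 - y.2) / l), ?_, ?_⟩
  · rw [Finset.mem_product, Finset.mem_Icc, Finset.mem_Icc]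
    refine ⟨⟨?_, ?_⟩, ?_, ?_⟩
    · rw [Int.le_ediv_iff_mul_le hlpos]; nlinarith [h.1.2]
    · apply Int.le_of_lt_add_one
      rw [Int.ediv_lt_iff_lt_mul hlpos]; nlinarith [h.1.1]
    · rw [Int.le_ediv_iff_mul_le hlpos]; nlinarith [h.2.2]
    · apply Int.le_of_lt_add_one
      rw [Int.ediv_lt_iff_lt_mul hlpos]; nlinarith [h.2.1]
  · have hk : kd u (gp n y ((u.1 - y.1) / l, (u.2 - y.2) / l)) ≤ ell n - 1 := by
      rw [kd_le_iff]
      simp only [gp]
      rw [← hl']
      have hc : ((ell n - 1 : ℕ) : ℤ) = l - 1 := by omega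
      rw [hc]
      constructor <;> constructor <;> linarith
    omega

lemma T_step {n : ℕ} {v : Idx → Bool} {y : ℤ × ℤ} (h : T (n + 1) v y) :
    Two n v y (20 * LL n + 1) ∨
    ∃ a ∈ Finset.Icc (-((400 * mm n : ℕ) : ℤ)) (400 * mm n : ℕ) ×ˢ
        Finset.Icc (-((400 * mm n : ℕ) : ℤ)) (400 * mm n : ℕ),
      ∃ b ∈ Finset.Icc (-((400 * mm n : ℕ) : ℤ)) (400 * mm n : ℕ) ×ˢ
        Finset.Icc (-((400 * mm n : ℕ) : ℤ)) (400 * mm n : ℕ),
      9 * ell n < kd (gp n y a) (gp n y b) ∧ T n v (gp n y a) ∧ T n v (gp n y b) := by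
  by_cases htwo : Two n v y (20 * LL n + 1)
  · exact Or.inl htwo
  · right
    obtain ⟨g0, hg0⟩ := one_obstacle htwo
    have hO : ∃ c : ℤ × ℤ, ∀ p ∈ Bl (n + 1) v, kd p y ≤ 20 * LL n + 1 → p ∉ Bl n v →
        kd p c ≤ LL n + 1 := by
      refine ⟨g0 (0, 0), fun p hp hpy hpn => ?_⟩
      rcases hp with h0 | ⟨i, hi, g, hg, hVO⟩
      · exact absurd (Or.inl h0) hpn
      · have hin : i = n := by
          by_contra hne
          exact hpn (Or.inr ⟨i, by omega, g, hg, hVO⟩)
        subst hin
        have h1 := hg0 g hg (mem_Hf hVO hpy)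
        subst h1
        have h2 := VO_kd hVO
        have h3 := kd_map g (g.symm p) (0, 0)
        rw [RelIso.apply_symm_apply] at h3
        rw [h3]; exact h2
    have h' : Arm (Bl (n + 1) v) (10 * LL n) y := by rw [← ell_succ]; exact h
    obtain ⟨u1, u2, h1, h2, h3, h4, h5⟩ := step_det (ell_pos n) (LL_ge n) h' hO
    have hR : 20 * LL n = ell n * (400 * mm n) := by unfold LL; ring
    rw [hR] at h1 h2
    obtain ⟨a, ha, hka⟩ := exists_gp n h1
    obtain ⟨b, hb, hkb⟩ := exists_gp n h2
    refine ⟨a, ha, b, hb, ?_, h4 _ hka.le, h5 _ hkb.le⟩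
    have t1 := kd_triangle u1 (gp n y a) u2
    have t2 := kd_triangle (gp n y a) (gp n y b) u2
    rw [kd_comm (gp n y b) u2] at t2
    omega

lemma depJ_T (n : ℕ) (y : ℤ × ℤ) : DepJ (JJ n y : Set Idx) {v | T n v y} :=
  fun v v' hv h => T_dep n y v v' hv h

lemma measurable_T (n : ℕ) (y : ℤ × ℤ) : MeasurableSet {v : Idx → Bool | T n v y} :=
  (depJ_T n y).measurable

open Classical in
lemma prob_Two (n : ℕ) (x : ℤ × ℤ) (r : ℕ) :
    base.real {v | Two n v x r} ≤ (((Hf (LL n) x r).card : ℝ) * dens n) ^ 2 := by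
  set H := Hf (LL n) x r with hH
  have h1 : {v : Idx → Bool | Two n v x r} ⊆ ⋃ p ∈ H.offDiag,
      {v : Idx → Bool | v (ia n p.1) = false ∧ v (ia n p.2) = false} := by
    rintro v ⟨g, hg, g', hg', hne, hv, hv'⟩
    rw [Set.mem_iUnion₂]
    exact ⟨(g, g'), Finset.mem_offDiag.2 ⟨hg, hg', hne⟩, hv, hv'⟩
  refine (measureReal_mono h1 (measure_ne_top _ _)).trans ((measureReal_biUnion_finset_le _ _).trans ?_)
  have h2 : ∀ p ∈ H.offDiag, base.real {v : Idx → Bool | v (ia n p.1) = false ∧
      v (ia n p.2) = false} = dens n * dens n := by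
    intro p hp
    have hne : ia n p.1 ≠ ia n p.2 := by
      intro h
      apply (Finset.mem_offDiag.1 hp).2.2
      simpa [ia] using h
    rw [prodB_two qq hne, qq_a, qq_a]
  rw [Finset.sum_congr rfl h2, Finset.sum_const, nsmul_eq_mul]
  have h3 : (H.offDiag.card : ℝ) ≤ (H.card : ℝ) ^ 2 := by
    rw [Finset.offDiag_card]
    have : H.card * H.card - H.card ≤ H.card ^ 2 := by
      rw [sq]; exact Nat.sub_le _ _
    exact_mod_cast this
  have h4 : 0 ≤ dens n * dens n := mul_self_nonneg _
  calc (H.offDiag.card : ℝ) * (dens n * dens n) ≤ (H.card : ℝ) ^ 2 * (dens n * dens n) :=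
        mul_le_mul_of_nonneg_right h3 h4
    _ = _ := by ring

lemma Hf_dens (n : ℕ) (x : ℤ × ℤ) {r K : ℕ} (hK : 112 * ((r + 1) * (LL n + r + 1)) ≤ K * (LL n) ^ 2) :
    ((Hf (LL n) x r).card : ℝ) * dens n ≤ K / 10 ^ 13 / (n + 1) := by
  have h1 := (card_Hf (LL n) x r).trans hK
  have h2 : ((Hf (LL n) x r).card : ℝ) ≤ K * (LL n : ℝ) ^ 2 := by exact_mod_cast h1
  have hL : (0 : ℝ) < LL n := by
    have := LL_ge' n
    exact_mod_cast (by omega : 0 < LL n)
  have hn : (0 : ℝ) < n + 1 := by positivity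
  calc ((Hf (LL n) x r).card : ℝ) * dens n ≤ (K * (LL n : ℝ) ^ 2) * dens n :=
        mul_le_mul_of_nonneg_right h2 (dens_pos n).le
    _ = K / 10 ^ 13 / (n + 1) := by
        unfold dens
        field_simp

theorem T_bound (n : ℕ) (y : ℤ × ℤ) :
    base.real {v | T n v y} ≤ (1 / 10 ^ 14) / ((n : ℝ) + 1) ^ 2 := by
  induction n generalizing y with
  | zero =>
    have h1 : {v : Idx → Bool | T 0 v y} ⊆ ⋃ e ∈ eNear y 1, {v : Idx → Bool | v (ic e) = false} := by
      rintro v ⟨u, w, hu, hw, hc⟩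
      rw [ell_zero] at hu hw
      have hu' : kd u y ≤ 1 := hu
      have hw' : 2 < kd w y := hw
      have hne : u ≠ w := fun h => by rw [h] at hu'; omega
      obtain ⟨b, hb, _⟩ : ∃ b, (u ∈ {p | p ∈ Bl 0 v ∧ kd p y ≤ 2 * ell 0 + 1} ∧
          b ∈ {p | p ∈ Bl 0 v ∧ kd p y ≤ 2 * ell 0 + 1} ∧ kd u b ≤ 1) ∧ True := by
        rcases Relation.ReflTransGen.cases_head hc with h | ⟨b, hb, _⟩
        · exact absurd h hne
        · exact ⟨b, hb, trivial⟩
      obtain ⟨⟨hB, _⟩, _⟩ := hb
      rcases hB with ⟨e, he, hv⟩ | ⟨i, hi, _⟩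
      · rw [Set.mem_iUnion₂]
        exact ⟨e, mem_eNear he hu', hv⟩
      · exact absurd hi (Nat.not_lt_zero i)
    refine (measureReal_mono h1 (measure_ne_top _ _)).trans ((measureReal_biUnion_finset_le _ _).trans ?_)
    have h2 : ∀ e ∈ eNear y 1, base.real {v : Idx → Bool | v (ic e) = false} = 1 / 10 ^ 16 := by
      intro e _
      rw [prodB_one, wq]
      simp only [Bool.false_eq_true, if_false]
      exact qq_c e
    rw [Finset.sum_congr rfl h2, Finset.sum_const, nsmul_eq_mul]
    have h3 : ((eNear y 1).card : ℝ) ≤ 32 := by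
      have := card_eNear y 1
      have h4 : (eNear y 1).card ≤ 32 := this.trans (by norm_num)
      exact_mod_cast h4
    calc ((eNear y 1).card : ℝ) * (1 / 10 ^ 16) ≤ 32 * (1 / 10 ^ 16) :=
          mul_le_mul_of_nonneg_right h3 (by norm_num)
      _ ≤ _ := by norm_num
  | succ n ih =>
    classical
    set R : ℕ := 400 * mm n with hR
    set G : Finset (ℤ × ℤ) := Finset.Icc (-(R : ℤ)) R ×ˢ Finset.Icc (-(R : ℤ)) R with hG
    set P : Finset ((ℤ × ℤ) × (ℤ × ℤ)) := (G ×ˢ G).filter fun p =>
      9 * ell n < kd (gp n y p.1) (gp n y p.2) with hP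
    have h1 : {v : Idx → Bool | T (n + 1) v y} ⊆ {v | Two n v y (20 * LL n + 1)} ∪
        ⋃ p ∈ P, ({v : Idx → Bool | T n v (gp n y p.1)} ∩ {v | T n v (gp n y p.2)}) := by
      intro v hv
      rcases T_step hv with h | ⟨a, ha, b, hb, hab, h1, h2⟩
      · exact Or.inl h
      · right
        rw [Set.mem_iUnion₂]
        exact ⟨(a, b), Finset.mem_filter.2 ⟨Finset.mem_product.2 ⟨ha, hb⟩, hab⟩, h1, h2⟩
    have hn1 : (1 : ℝ) ≤ (n : ℝ) + 1 := by linarith [Nat.cast_nonneg (α := ℝ) n]
    -- two obstacles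
    have h2 : base.real {v | Two n v y (20 * LL n + 1)} ≤ (1 / 10 ^ 16) / ((n : ℝ) + 1) ^ 2 := by
      refine (prob_Two n y _).trans ?_
      have hL := LL_ge' n
      have h3 := Hf_dens n y (r := 20 * LL n + 1) (K := 60000) (by nlinarith)
      have h4 : 0 ≤ ((Hf (LL n) y (20 * LL n + 1)).card : ℝ) * dens n :=
        mul_nonneg (Nat.cast_nonneg _) (dens_pos n).le
      calc _ ≤ (((60000 : ℕ) : ℝ) / 10 ^ 13 / (n + 1)) ^ 2 := pow_le_pow_left₀ h4 h3 2
        _ = (((60000 : ℕ) : ℝ) / 10 ^ 13) ^ 2 / ((n : ℝ) + 1) ^ 2 := by rw [div_pow]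
        _ ≤ _ := by
            apply div_le_div_of_nonneg_right _ (by positivity)
            norm_num
    -- two arms
    have h3 : base.real (⋃ p ∈ P, ({v : Idx → Bool | T n v (gp n y p.1)} ∩
        {v | T n v (gp n y p.2)})) ≤ (1 / 10 ^ 15) / ((n : ℝ) + 1) ^ 3 := by
      refine (measureReal_biUnion_finset_le _ _).trans ?_
      set t : ℝ := (1 / 10 ^ 14) / ((n : ℝ) + 1) ^ 2 with ht
      have h4 : ∀ p ∈ P, base.real ({v : Idx → Bool | T n v (gp n y p.1)} ∩
          {v | T n v (gp n y p.2)}) ≤ t * t := by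
        intro p hp
        have hfar := (Finset.mem_filter.1 hp).2
        have hdis : Disjoint (JJ n (gp n y p.1) : Set Idx) (JJ n (gp n y p.2)) :=
          Finset.disjoint_coe.2 (JJ_disj hfar)
        have h5 := prodB_indep qq hdis (depJ_T n _) (depJ_T n _) (measurable_T n _)
          (measurable_T n _)
        rw [measureReal_def, h5, ENNReal.toReal_mul]
        exact mul_le_mul (ih _) (ih _) ENNReal.toReal_nonneg (by positivity)
      refine (Finset.sum_le_sum h4).trans ?_
      rw [Finset.sum_const, nsmul_eq_mul]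
      have hcard : P.card ≤ (801 * mm n) ^ 4 := by
        refine (Finset.card_filter_le _ _).trans ?_
        rw [Finset.card_product, hG, Finset.card_product, Int.card_Icc]
        have e1 : ((R : ℤ) + 1 - (-(R : ℤ))).toNat = 2 * R + 1 := by omega
        rw [e1]
        have e2 : 2 * R + 1 ≤ 801 * mm n := by
          have := mm_pos n
          omega
        calc (2 * R + 1) * (2 * R + 1) * ((2 * R + 1) * (2 * R + 1)) = (2 * R + 1) ^ 4 := by ring
          _ ≤ (801 * mm n) ^ 4 := Nat.pow_le_pow_left e2 4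
      have hcard2 : P.card ≤ 801 ^ 4 * (16 * (n + 1)) := by
        refine hcard.trans ?_
        rw [mul_pow]
        exact Nat.mul_le_mul_left _ (mm_pow_le n)
      have hcard3 : (P.card : ℝ) ≤ 801 ^ 4 * (16 * ((n : ℝ) + 1)) := by exact_mod_cast hcard2
      calc (P.card : ℝ) * (t * t) ≤ (801 ^ 4 * (16 * ((n : ℝ) + 1))) * (t * t) :=
            mul_le_mul_of_nonneg_right hcard3 (by positivity)
        _ = (801 ^ 4 * 16 * (1 / 10 ^ 14) ^ 2) / ((n : ℝ) + 1) ^ 3 := by
            rw [ht]; field_simp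
        _ ≤ _ := by
            apply div_le_div_of_nonneg_right _ (by positivity)
            norm_num
    have h4 : (1 / 10 ^ 15) / ((n : ℝ) + 1) ^ 3 ≤ (1 / 10 ^ 15) / ((n : ℝ) + 1) ^ 2 := by
      apply div_le_div_of_nonneg_left (by norm_num) (by positivity)
      exact pow_le_pow_right₀ hn1 (by norm_num)
    have h5 : (1 / 10 ^ 16 : ℝ) / ((n : ℝ) + 1) ^ 2 + (1 / 10 ^ 15) / ((n : ℝ) + 1) ^ 2 ≤
        (1 / 10 ^ 14) / (((n + 1 : ℕ) : ℝ) + 1) ^ 2 := by
      rw [← add_div, div_le_div_iff₀ (by positivity) (by positivity)]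
      push_cast
      have h6 : ((n : ℝ) + 1 + 1) ^ 2 ≤ 4 * ((n : ℝ) + 1) ^ 2 := by nlinarith
      have h7 : 0 < ((n : ℝ) + 1) ^ 2 := by positivity
      nlinarith
    calc base.real {v | T (n + 1) v y} ≤ _ := measureReal_mono h1 (measure_ne_top _ _)
      _ ≤ _ := measureReal_union_le _ _
      _ ≤ (1 / 10 ^ 16) / ((n : ℝ) + 1) ^ 2 + (1 / 10 ^ 15) / ((n : ℝ) + 1) ^ 3 :=
          add_le_add h2 h3
      _ ≤ _ := by linarith

end

section

open MeasureTheory ProbabilityTheory Filter

lemma ae_eventually_not {Ω : Type*} [MeasurableSpace Ω] {μ : Measure Ω} [IsFiniteMeasure μ]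
    {s : ℕ → Set Ω} {a : ℕ → ℝ} (h : ∀ n, μ.real (s n) ≤ a n) (ha : Summable a) :
    ∀ᵐ x ∂μ, ∀ᶠ n in atTop, x ∉ s n := by
  apply ae_eventually_notMem
  have h1 : ∑' n, μ (s n) ≤ ∑' n, ENNReal.ofReal (a n) := by
    apply ENNReal.tsum_le_tsum
    intro n
    rw [← ENNReal.ofReal_toReal (measure_ne_top μ (s n))]
    exact ENNReal.ofReal_le_ofReal (h n)
  exact ne_top_of_le_ne_top ha.tsum_ofReal_ne_top h1

lemma summable_one : Summable fun n : ℕ => 1 / (((n : ℝ) + 1) * mm n) := by
  have h1 : Summable fun n : ℕ => 1 / ((n : ℝ) ^ (5 / 4 : ℝ)) :=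
    Real.summable_one_div_nat_rpow.2 (by norm_num)
  have h2 := (summable_nat_add_iff 1).2 h1
  refine Summable.of_nonneg_of_le (fun n => by positivity) (fun n => ?_) h2
  have hn : (0 : ℝ) < (n : ℝ) + 1 := by positivity
  have hm : ((n : ℝ) + 1) ^ (1 / 4 : ℝ) ≤ mm n := by
    have h3 : ((n : ℝ) + 1) ≤ (mm n : ℝ) ^ 4 := by exact_mod_cast mm_pow_ge n
    calc ((n : ℝ) + 1) ^ (1 / 4 : ℝ) ≤ ((mm n : ℝ) ^ 4) ^ (1 / 4 : ℝ) :=
          Real.rpow_le_rpow hn.le h3 (by norm_num)
      _ = mm n := by
          rw [← Real.rpow_natCast, ← Real.rpow_mul (Nat.cast_nonneg _)]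
          norm_num
  have h4 : (((n + 1 : ℕ) : ℝ)) ^ (5 / 4 : ℝ) ≤ ((n : ℝ) + 1) * mm n := by
    push_cast
    have : (5 / 4 : ℝ) = 1 + 1 / 4 := by norm_num
    rw [this, Real.rpow_add hn, Real.rpow_one]
    exact mul_le_mul_of_nonneg_left hm hn.le
  have h5 : (0 : ℝ) < (((n + 1 : ℕ) : ℝ)) ^ (5 / 4 : ℝ) := by positivity
  exact one_div_le_one_div_of_le h5 h4

lemma summable_two : Summable fun n : ℕ => 1 / ((n : ℝ) + 1) ^ 2 := by
  have h1 : Summable fun n : ℕ => 1 / ((n : ℝ) ^ 2) :=
    Real.summable_one_div_nat_pow.2 (by norm_num)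
  have h2 := (summable_nat_add_iff 1).2 h1
  refine h2.congr fun n => ?_
  push_cast
  rfl

lemma summable_three : Summable fun n : ℕ => (mm n : ℝ) ^ 2 / ((n : ℝ) + 1) ^ 2 := by
  have h1 : Summable fun n : ℕ => 1 / ((n : ℝ) ^ (3 / 2 : ℝ)) :=
    Real.summable_one_div_nat_rpow.2 (by norm_num)
  have h2 := ((summable_nat_add_iff 1).2 h1).mul_left 4
  refine Summable.of_nonneg_of_le (fun n => by positivity) (fun n => ?_) h2
  have hn : (0 : ℝ) < (n : ℝ) + 1 := by positivity
  have h3 : (mm n : ℝ) ^ 4 ≤ 16 * ((n : ℝ) + 1) := by exact_mod_cast mm_pow_le n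
  have h4 : (mm n : ℝ) ^ 2 ≤ 4 * ((n : ℝ) + 1) ^ (1 / 2 : ℝ) := by
    rw [← Real.sqrt_eq_rpow]
    have h5 : 0 ≤ 4 * Real.sqrt ((n : ℝ) + 1) := by positivity
    apply le_of_sq_le_sq _ h5
    rw [mul_pow, Real.sq_sqrt hn.le]
    calc ((mm n : ℝ) ^ 2) ^ 2 = (mm n : ℝ) ^ 4 := by ring
      _ ≤ 16 * ((n : ℝ) + 1) := h3
      _ = _ := by ring
  calc (mm n : ℝ) ^ 2 / ((n : ℝ) + 1) ^ 2 ≤ (4 * ((n : ℝ) + 1) ^ (1 / 2 : ℝ)) / ((n : ℝ) + 1) ^ 2 :=
        div_le_div_of_nonneg_right h4 (by positivity)
    _ = 4 * (1 / ((n + 1 : ℕ) : ℝ) ^ (3 / 2 : ℝ)) := by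
        push_cast
        have h6 : ((n : ℝ) + 1) ^ 2 = ((n : ℝ) + 1) ^ (1 / 2 : ℝ) * ((n : ℝ) + 1) ^ (3 / 2 : ℝ) := by
          rw [← Real.rpow_add hn]
          norm_num
        rw [h6]
        have h7 : (0 : ℝ) < ((n : ℝ) + 1) ^ (1 / 2 : ℝ) := by positivity
        have h8 : (0 : ℝ) < ((n : ℝ) + 1) ^ (3 / 2 : ℝ) := by positivity
        field_simp

/-- an obstacle of scale `n` comes within `25 ell n` of the origin -/
def EvA (n : ℕ) : Set (Idx → Bool) :=
  {v | ∃ g ∈ Hf (LL n) (0, 0) (25 * ell n), v (ia n g) = false}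

lemma prob_EvA (n : ℕ) : base.real (EvA n) ≤ 1 / (((n : ℝ) + 1) * mm n) := by
  have h1 : EvA n ⊆ ⋃ g ∈ Hf (LL n) (0, 0) (25 * ell n), {v : Idx → Bool | v (ia n g) = false} := by
    rintro v ⟨g, hg, hv⟩
    rw [Set.mem_iUnion₂]
    exact ⟨g, hg, hv⟩
  refine (measureReal_mono h1 (measure_ne_top _ _)).trans
    ((measureReal_biUnion_finset_le _ _).trans ?_)
  have h2 : ∀ g ∈ Hf (LL n) (0, 0) (25 * ell n),
      base.real {v : Idx → Bool | v (ia n g) = false} = dens n := by
    intro g _
    rw [prodB_one, wq]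
    simp only [Bool.false_eq_true, if_false]
    exact qq_a n g
  rw [Finset.sum_congr rfl h2, Finset.sum_const, nsmul_eq_mul]
  have h3 := card_Hf (LL n) (0, 0) (25 * ell n)
  have hl := ell_pos n
  have hL := LL_ge n
  have h4 : (Hf (LL n) (0, 0) (25 * ell n)).card ≤ 10000 * (ell n * LL n) := by
    refine h3.trans ?_
    have e1 : 25 * ell n + 1 ≤ 26 * ell n := by omega
    have e2 : LL n + 25 * ell n + 1 ≤ 3 * LL n := by omega
    have := Nat.mul_le_mul e1 e2
    nlinarith
  have h5 : ((Hf (LL n) (0, 0) (25 * ell n)).card : ℝ) ≤ 10000 * (ell n * LL n) := by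
    exact_mod_cast h4
  have hlr : (0 : ℝ) < ell n := by exact_mod_cast hl
  have hmr : (0 : ℝ) < mm n := by exact_mod_cast mm_pos n
  have hLr : (LL n : ℝ) = 20 * mm n * ell n := by
    unfold LL; push_cast; ring
  calc ((Hf (LL n) (0, 0) (25 * ell n)).card : ℝ) * dens n
      ≤ (10000 * (ell n * LL n)) * dens n := mul_le_mul_of_nonneg_right h5 (dens_pos n).le
    _ = (10000 / 20 / 10 ^ 13) * (1 / (((n : ℝ) + 1) * mm n)) := by
        unfold dens
        rw [hLr]
        field_simp
    _ ≤ 1 * (1 / (((n : ℝ) + 1) * mm n)) := by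
        apply mul_le_mul_of_nonneg_right _ (by positivity)
        norm_num
    _ = _ := one_mul _

lemma prob_EvB (n : ℕ) :
    base.real {v | Two n v (0, 0) (25 * ell (n + 1))} ≤ 1 / ((n : ℝ) + 1) ^ 2 := by
  refine (prob_Two n (0, 0) _).trans ?_
  have hL := LL_ge' n
  obtain ⟨K, hK⟩ : ∃ K : ℕ, K = 10 ^ 7 := ⟨_, rfl⟩
  have h3 := Hf_dens n (0, 0) (r := 25 * ell (n + 1)) (K := K) (by
    rw [ell_succ, hK]
    have e1 : 25 * (10 * LL n) + 1 ≤ 251 * LL n := by omega
    have e2 : LL n + 25 * (10 * LL n) + 1 ≤ 252 * LL n := by omega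
    have := Nat.mul_le_mul e1 e2
    nlinarith)
  have h4 : 0 ≤ ((Hf (LL n) (0, 0) (25 * ell (n + 1))).card : ℝ) * dens n :=
    mul_nonneg (Nat.cast_nonneg _) (dens_pos n).le
  have hKr : (K : ℝ) = 10 ^ 7 := by rw [hK]; norm_num
  calc _ ≤ ((K : ℝ) / 10 ^ 13 / (n + 1)) ^ 2 := pow_le_pow_left₀ h4 h3 2
    _ = ((K : ℝ) / 10 ^ 13) ^ 2 / ((n : ℝ) + 1) ^ 2 := by rw [div_pow]
    _ ≤ _ := by
        apply div_le_div_of_nonneg_right _ (by positivity)
        rw [hKr]; norm_num

/-- grid of the scale -/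
noncomputable def GG (n : ℕ) : Finset (ℤ × ℤ) :=
  Finset.Icc (-((5000 * mm n : ℕ) : ℤ)) (5000 * mm n : ℕ) ×ˢ
    Finset.Icc (-((5000 * mm n : ℕ) : ℤ)) (5000 * mm n : ℕ)

/-- there is a long chain near the origin -/
def EvC (n : ℕ) : Set (Idx → Bool) := {v | ∃ a ∈ GG n, T n v (gp n (0, 0) a)}

lemma prob_EvC (n : ℕ) : base.real (EvC n) ≤ (mm n : ℝ) ^ 2 / ((n : ℝ) + 1) ^ 2 := by
  have h1 : EvC n ⊆ ⋃ a ∈ GG n, {v : Idx → Bool | T n v (gp n (0, 0) a)} := by
    rintro v ⟨a, ha, hv⟩
    rw [Set.mem_iUnion₂]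
    exact ⟨a, ha, hv⟩
  refine (measureReal_mono h1 (measure_ne_top _ _)).trans
    ((measureReal_biUnion_finset_le _ _).trans ?_)
  refine (Finset.sum_le_sum fun a _ => T_bound n (gp n (0, 0) a)).trans ?_
  rw [Finset.sum_const, nsmul_eq_mul]
  have hcard : (GG n).card ≤ (10001 * mm n) ^ 2 := by
    unfold GG
    rw [Finset.card_product, Int.card_Icc]
    have e1 : (((5000 * mm n : ℕ) : ℤ) + 1 - (-((5000 * mm n : ℕ) : ℤ))).toNat
        = 2 * (5000 * mm n) + 1 := by omega
    rw [e1]
    have := mm_pos n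
    have e2 : 2 * (5000 * mm n) + 1 ≤ 10001 * mm n := by omega
    calc (2 * (5000 * mm n) + 1) * (2 * (5000 * mm n) + 1) = (2 * (5000 * mm n) + 1) ^ 2 := by ring
      _ ≤ _ := Nat.pow_le_pow_left e2 2
  have hcard2 : ((GG n).card : ℝ) ≤ (10001 * (mm n : ℝ)) ^ 2 := by exact_mod_cast hcard
  calc ((GG n).card : ℝ) * (1 / 10 ^ 14 / ((n : ℝ) + 1) ^ 2)
      ≤ (10001 * (mm n : ℝ)) ^ 2 * (1 / 10 ^ 14 / ((n : ℝ) + 1) ^ 2) :=
        mul_le_mul_of_nonneg_right hcard2 (by positivity)
    _ = (10001 ^ 2 / 10 ^ 14) * ((mm n : ℝ) ^ 2 / ((n : ℝ) + 1) ^ 2) := by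
        field_simp
    _ ≤ 1 * ((mm n : ℝ) ^ 2 / ((n : ℝ) + 1) ^ 2) := by
        apply mul_le_mul_of_nonneg_right _ (by positivity)
        norm_num
    _ = _ := one_mul _

/-- good scales -/
def GoodScale (v : Idx → Bool) (n : ℕ) : Prop :=
  v ∉ EvA n ∧ ¬ Two n v (0, 0) (25 * ell (n + 1)) ∧ v ∉ EvC n

theorem ae_good : ∀ᵐ v ∂base, ∀ᶠ n in atTop, GoodScale v n := by
  filter_upwards [ae_eventually_not prob_EvA summable_one,
    ae_eventually_not prob_EvB summable_two,
    ae_eventually_not prob_EvC summable_three] with v h1 h2 h3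
  filter_upwards [h1, h2, h3] with n h4 h5 h6
  exact ⟨h4, h5, h6⟩

end

section

open MeasureTheory ProbabilityTheory Filter

section
variable {V : Set (ℤ × ℤ)} {f : ℤ × ℤ → ZMod 2}
  (hf : ∀ p q, lattice.Adj p q → p ∉ V → f p = f q)

include hf

lemma const_box {r : ℕ} (hV : ∀ p ∈ V, r ≤ kd p (0, 0)) (z : ℤ × ℤ) (hz : kd z (0, 0) < r) :
    f z = f (0, 0) := by
  induction hn : z.1.natAbs + z.2.natAbs using Nat.strong_induction_on generalizing z with
  | _ n ih =>
    obtain ⟨a, b⟩ := z
    simp only at hn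
    have hzV : (a, b) ∉ V := fun h => by have := hV _ h; omega
    have step : ∀ a' b' : ℤ, lattice.Adj (a, b) (a', b') → kd (a', b') (0, 0) < r →
        a'.natAbs + b'.natAbs < n → f (a, b) = f (0, 0) := by
      intro a' b' hadj hk hlt
      rw [hf _ _ hadj hzV]
      exact ih _ hlt (a', b') hk rfl
    rcases lt_trichotomy a 0 with ha | ha | ha
    · apply step (a + 1) b
      · show (a - (a + 1)) ^ 2 + (b - b) ^ 2 = 1
        ring
      · unfold kd at hz ⊢; simp only at hz ⊢; omega
      · omega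
    · rcases lt_trichotomy b 0 with hb | hb | hb
      · apply step a (b + 1)
        · show (a - a) ^ 2 + (b - (b + 1)) ^ 2 = 1
          ring
        · unfold kd at hz ⊢; simp only at hz ⊢; omega
        · omega
      · rw [ha, hb]
      · apply step a (b - 1)
        · show (a - a) ^ 2 + (b - (b - 1)) ^ 2 = 1
          ring
        · unfold kd at hz ⊢; simp only at hz ⊢; omega
        · omega
    · apply step (a - 1) b
      · show (a - (a - 1)) ^ 2 + (b - b) ^ 2 = 1
        ring
      · unfold kd at hz ⊢; simp only at hz ⊢; omega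
      · omega

lemma zero_of_path {X0 : ℕ} (hfar : ∀ p, X0 < kd p (0, 0) → f p = 0) (P : ℕ → ℤ × ℤ)
    (hadj : ∀ t, lattice.Adj (P t) (P (t + 1))) (hV : ∀ t, P t ∉ V)
    (hesc : ∀ t, kd (P t) (P 0) = t) : f (P 0) = 0 := by
  have h1 : ∀ t, f (P t) = f (P 0) := by
    intro t
    induction t with
    | zero => rfl
    | succ t ih => rw [← ih, hf _ _ (hadj t) (hV t)]
  rw [← h1 (X0 + kd (P 0) (0, 0) + 1)]
  apply hfar
  have h2 := hesc (X0 + kd (P 0) (0, 0) + 1)
  have h3 := kd_triangle (P (X0 + kd (P 0) (0, 0) + 1)) (0, 0) (P 0)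
  rw [kd_comm (0, 0) (P 0)] at h3
  omega

end

/-- straight rays -/
def ray (z d : ℤ × ℤ) (t : ℕ) : ℤ × ℤ := (z.1 + t * d.1, z.2 + t * d.2)

/-- the four axis directions -/
def IsDir (d : ℤ × ℤ) : Prop := d = (1, 0) ∨ d = (-1, 0) ∨ d = (0, 1) ∨ d = (0, -1)

lemma ray_adj (z : ℤ × ℤ) {d : ℤ × ℤ} (hd : IsDir d) (t : ℕ) :
    lattice.Adj (ray z d t) (ray z d (t + 1)) := by
  show ((z.1 + t * d.1) - (z.1 + (t + 1 : ℕ) * d.1)) ^ 2 +
    ((z.2 + t * d.2) - (z.2 + (t + 1 : ℕ) * d.2)) ^ 2 = 1
  rcases hd with rfl | rfl | rfl | rfl <;> push_cast <;> ring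

lemma ray_kd (z : ℤ × ℤ) {d : ℤ × ℤ} (hd : IsDir d) (t : ℕ) :
    kd (ray z d t) (ray z d 0) = t := by
  unfold kd ray
  rcases hd with rfl | rfl | rfl | rfl <;> simp

/-- near the obstacle shape there is always a free ray -/
lemma free_ray {L rho : ℕ} (hL : 4 * rho + 4 ≤ L) (x : ℤ × ℤ) :
    ∃ z d, IsDir d ∧ kd z x ≤ 2 * rho + 2 ∧
      ∀ t : ℕ, ∀ p, VO L p → rho < kd (ray z d t) p := by
  obtain ⟨x1, x2⟩ := x
  obtain ⟨w, hw⟩ : ∃ w : ℤ, w = 2 * rho + 2 := ⟨_, rfl⟩
  have h1 : ∃ z1 : ℤ, (z1 = x1 - w ∨ z1 = x1 ∨ z1 = x1 + w) ∧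
      ¬ (-(L : ℤ) - 1 - rho ≤ z1 ∧ z1 ≤ -(L : ℤ) + rho) ∧
      ¬ ((L : ℤ) - rho ≤ z1 ∧ z1 ≤ L + 1 + rho) := by
    by_contra hcon
    push Not at hcon
    have e1 := hcon (x1 - w) (Or.inl rfl)
    have e2 := hcon x1 (Or.inr (Or.inl rfl))
    have e3 := hcon (x1 + w) (Or.inr (Or.inr rfl))
    omega
  have h2 : ∃ z2 : ℤ, (z2 = x2 ∨ z2 = x2 + w) ∧
      ¬ ((L : ℤ) - rho ≤ z2 ∧ z2 ≤ L + 1 + rho) := by
    by_contra hcon
    push Not at hcon
    have e2 := hcon x2 (Or.inl rfl)
    have e3 := hcon (x2 + w) (Or.inr rfl)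
    omega
  obtain ⟨z1, hz1, hz1a, hz1b⟩ := h1
  obtain ⟨z2, hz2, hz2a⟩ := h2
  have hk : kd (z1, z2) (x1, x2) ≤ 2 * rho + 2 := by
    rw [kd_le_iff]
    simp only
    push_cast
    omega
  have key : ∀ (d : ℤ × ℤ), IsDir d → (∀ t : ℕ, ∀ p, VO L p →
      ¬ kd (ray (z1, z2) d t) p ≤ rho) → ∃ z d, IsDir d ∧ kd z (x1, x2) ≤ 2 * rho + 2 ∧
      ∀ t : ℕ, ∀ p, VO L p → rho < kd (ray z d t) p := by
    intro d hd h
    exact ⟨(z1, z2), d, hd, hk, fun t p hp => not_le.1 (h t p hp)⟩
  by_cases c1 : (L : ℤ) + 1 + rho < z2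
  · apply key (0, 1) (Or.inr (Or.inr (Or.inl rfl)))
    intro t p hp h
    rw [kd_le_iff] at h
    unfold VO at hp
    simp only [ray, mul_zero, mul_one, add_zero] at h
    omega
  · by_cases c2 : z1 < -(L : ℤ) - 1 - rho
    · apply key (-1, 0) (Or.inr (Or.inl rfl))
      intro t p hp h
      rw [kd_le_iff] at h
      unfold VO at hp
      simp only [ray, mul_zero, mul_neg, mul_one, add_zero] at h
      omega
    · by_cases c3 : (L : ℤ) + 1 + rho < z1
      · apply key (1, 0) (Or.inl rfl)
        intro t p hp h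
        rw [kd_le_iff] at h
        unfold VO at hp
        simp only [ray, mul_zero, mul_one, add_zero] at h
        omega
      · apply key (0, -1) (Or.inr (Or.inr (Or.inr rfl)))
        intro t p hp h
        rw [kd_le_iff] at h
        unfold VO at hp
        simp only [ray, mul_zero, mul_neg, mul_one, add_zero] at h
        omega

/-- if all large scales are good then there is an infinite cluster -/
theorem perc_det {v : Idx → Bool} (hv : ∀ᶠ n in atTop, GoodScale v n) :
    HasInfiniteComponent (openGraph (F v)) := by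
  classical
  obtain ⟨n0, hn0⟩ := eventually_atTop.1 hv
  by_contra hno
  unfold HasInfiniteComponent at hno
  push Not at hno
  have hfin : ∀ z : ℤ × ℤ, ((openGraph (F v)).connectedComponentMk z).supp.Finite :=
    fun z => hno _
  -- the finite set
  set N : ℕ := 20 * ell n0 with hN
  set B : Finset (ℤ × ℤ) := Finset.Icc (-(N : ℤ)) N ×ˢ Finset.Icc (-(N : ℤ)) N with hB
  have hBmem : ∀ z, z ∈ B ↔ kd z (0, 0) ≤ N := by
    intro z
    rw [hB, Finset.mem_product, Finset.mem_Icc, Finset.mem_Icc, kd_le_iff]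
    simp only
    omega
  set C : Finset (ℤ × ℤ) := B.biUnion fun z => (hfin z).toFinset with hC
  have hCmem : ∀ p, p ∈ C ↔ ∃ z ∈ B, (openGraph (F v)).Reachable p z := by
    intro p
    rw [hC, Finset.mem_biUnion]
    constructor
    · rintro ⟨z, hz, hp⟩
      rw [Set.Finite.mem_toFinset, SimpleGraph.ConnectedComponent.mem_supp_iff,
        SimpleGraph.ConnectedComponent.eq] at hp
      exact ⟨z, hz, hp⟩
    · rintro ⟨z, hz, hp⟩
      refine ⟨z, hz, ?_⟩
      rw [Set.Finite.mem_toFinset, SimpleGraph.ConnectedComponent.mem_supp_iff,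
        SimpleGraph.ConnectedComponent.eq]
      exact hp
  have hBC : ∀ z, kd z (0, 0) ≤ N → z ∈ C := fun z hz =>
    (hCmem z).2 ⟨z, (hBmem z).2 hz, SimpleGraph.Reachable.refl _⟩
  obtain ⟨V, f, X0, hVne, hVbd, hVconn, hf0, hf, hfar⟩ :=
    duality C (hBC _ (by rw [kd_self]; exact Nat.zero_le _))
  -- vertices of `V` are hit
  have hhit : ∀ p ∈ V, Hit0 v p ∨ ∃ n, Hit n v p := by
    intro p hp
    obtain ⟨q, hadj, hpq⟩ := hVbd p hp
    have hcl : F v ⟨s(p, q), hadj⟩ = false := by
      by_contra hop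
      rw [Bool.not_eq_false] at hop
      apply hpq
      have hadj' : (openGraph (F v)).Adj p q := ⟨hadj, hop⟩
      rw [hCmem, hCmem]
      constructor
      · rintro ⟨z, hz, hr⟩
        exact ⟨z, hz, hadj'.symm.reachable.trans hr⟩
      · rintro ⟨z, hz, hr⟩
        exact ⟨z, hz, hadj'.reachable.trans hr⟩
    exact closed_hit hcl (Sym2.mem_mk_left p q)
  have hVN : ∀ p ∈ V, N ≤ kd p (0, 0) := by
    intro p hp
    obtain ⟨q, hadj, hpq⟩ := hVbd p hp
    by_contra hlt
    apply hpq
    have h1 := kd_lip (x := (0, 0)) (adj_kd hadj)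
    exact ⟨fun _ => hBC q (by omega), fun _ => hBC p (by omega)⟩
  -- minimal norm
  obtain ⟨v0, hv0, hmin⟩ : ∃ v0 ∈ V, ∀ p ∈ V, kd v0 (0, 0) ≤ kd p (0, 0) := by
    have hne : ((fun p : ℤ × ℤ => kd p (0, 0)) '' V).Nonempty := hVne.image _
    obtain ⟨v0, hv0, h0⟩ := Nat.sInf_mem hne
    refine ⟨v0, hv0, fun p hp => ?_⟩
    simp only at h0
    rw [h0]
    exact Nat.sInf_le (Set.mem_image_of_mem _ hp)
  set r : ℕ := kd v0 (0, 0) with hr
  have hrN : N ≤ r := hVN v0 hv0
  -- the scale
  obtain ⟨n, hn, hn1, hn2⟩ : ∃ n, n0 ≤ n ∧ 20 * ell n ≤ r ∧ r < 20 * ell (n + 1) := by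
    have hex : ∃ m, r < 20 * ell m := ⟨r, by have := ell_gt r; omega⟩
    have h1 := Nat.find_spec hex
    have h2 : n0 < Nat.find hex := by
      by_contra hcon
      have := ell_mono (not_lt.1 hcon)
      omega
    refine ⟨Nat.find hex - 1, by omega, ?_, ?_⟩
    · have := Nat.find_min hex (m := Nat.find hex - 1) (by omega)
      omega
    · have : Nat.find hex - 1 + 1 = Nat.find hex := by omega
      rw [this]; exact h1
  have hl := ell_pos n
  have hLge := LL_ge n
  have hl1 : ell (n + 1) = 10 * LL n := ell_succ n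
  obtain ⟨hgA, hgB, hgC⟩ := hn0 n hn
  obtain ⟨g0, hg0⟩ := one_obstacle hgB
  -- scales at most `n`
  have hscale : ∀ p ∈ V, kd p (0, 0) ≤ 25 * ell (n + 1) → p ∉ Bl n v →
      VO (LL n) (g0.symm p) := by
    intro p hp hk hnot
    rcases hhit p hp with h | ⟨i, g, hg, hVO⟩
    · exact absurd (Or.inl h) hnot
    · rcases lt_trichotomy i n with hi | hi | hi
      · exact absurd (Or.inr ⟨i, hi, g, hg, hVO⟩) hnot
      · subst hi
        have := hg0 g hg (mem_Hf hVO hk)
        rw [← this]; exact hVO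
      · exfalso
        apply (hn0 i (by omega)).1
        have hmono := ell_mono (show n + 1 ≤ i by omega)
        exact ⟨g, mem_Hf hVO (by omega), hg⟩
  -- no long chains
  have hshort : ∀ u w, kd u (0, 0) ≤ 25 * ell (n + 1) → KConn (Bl n v) u w →
      4 * ell n ≤ kd u w → False := by
    intro u w hu hc hk
    apply hgC
    have hR : 25 * ell (n + 1) = ell n * (5000 * mm n) := by
      rw [hl1]; unfold LL; ring
    obtain ⟨a, ha, hka⟩ := exists_gp n (y := (0, 0)) (u := u) (R := 5000 * mm n) (by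
      rw [← hR]; exact hu)
    exact ⟨a, ha, arm_of_chain hl hc hk hka.le⟩
  -- near the obstacle or small
  have hA : ∀ u ∈ V, kd u (0, 0) ≤ 24 * ell (n + 1) →
      (∃ p, VO (LL n) (g0.symm p) ∧ kd u p ≤ 4 * ell n) ∨ ∀ w ∈ V, kd u w < 4 * ell n := by
    intro u hu hk
    by_contra hcon
    push Not at hcon
    obtain ⟨h1, w, hw, h2⟩ := hcon
    obtain ⟨w', hw', hc⟩ := trunc (b := 4 * ell n - 1) (x := u) (hVconn u hu w hw)
      (by rw [kd_self]; omega) (by rw [kd_comm]; omega)
    have hb : 4 * ell n - 1 + 1 = 4 * ell n := by omega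
    rw [hb] at hc hw'
    apply hshort u w' (by omega) (hc.mono ?_) (by rw [kd_comm]; omega)
    rintro p ⟨hpV, hpu⟩
    by_contra hpn
    have h3 := kd_triangle p u (0, 0)
    have h4 := hscale p hpV (by omega) hpn
    have h5 := h1 p h4
    rw [kd_comm] at h5
    omega
  have hf1 : (1 : ZMod 2) ≠ 0 := by decide
  by_cases hcase : ∃ u ∈ V, kd u (0, 0) ≤ 24 * ell (n + 1) ∧ ∀ w ∈ V, kd u w < 4 * ell n
  · -- small set
    obtain ⟨u, hu, hku, hsmall⟩ := hcase
    have hur : r ≤ kd u (0, 0) := hmin u hu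
    have hdir : ∃ d, IsDir d ∧ ∀ t : ℕ, ray (0, 0) d t ∉ V := by
      by_cases hc1 : 20 * ell n ≤ u.1.natAbs
      · refine ⟨(0, 1), Or.inr (Or.inr (Or.inl rfl)), fun t ht => ?_⟩
        have := hsmall _ ht
        unfold kd ray at this
        simp only [mul_zero, mul_one, zero_add] at this
        omega
      · refine ⟨(1, 0), Or.inl rfl, fun t ht => ?_⟩
        have := hsmall _ ht
        unfold kd at hur
        unfold kd ray at this
        simp only [mul_zero, mul_one, zero_add] at this hur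
        omega
    obtain ⟨d, hd, hray⟩ := hdir
    have h0 := zero_of_path hf hfar (ray (0, 0) d) (ray_adj _ hd) hray (ray_kd _ hd)
    have h1 : ray (0, 0) d 0 = (0, 0) := by simp [ray]
    rw [h1, hf0] at h0
    exact hf1 h0
  · push Not at hcase
    have hnear : ∀ u ∈ V, kd u (0, 0) ≤ 24 * ell (n + 1) →
        ∃ p, VO (LL n) (g0.symm p) ∧ kd u p ≤ 4 * ell n := by
      intro u hu hk
      rcases hA u hu hk with h | h
      · exact h
      · obtain ⟨w, hw, hk'⟩ := hcase u hu hk
        exact absurd (h w hw) (not_lt.2 hk')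
    have hcen : ∀ u p, VO (LL n) (g0.symm p) → kd u p ≤ 4 * ell n →
        kd u (g0 (0, 0)) ≤ 2 * LL n := by
      intro u p hp hk
      have h2 := VO_kd hp
      have h3 := kd_map g0 (g0.symm p) (0, 0)
      rw [RelIso.apply_symm_apply] at h3
      have h4 := kd_triangle u p (g0 (0, 0))
      omega
    have hall : ∀ w ∈ V, kd w (0, 0) ≤ 24 * ell (n + 1) := by
      intro w hw
      have hc := hVconn v0 hv0 w hw
      obtain ⟨p0, hp0, hkp0⟩ := hnear v0 hv0 (by omega)
      have hc0 := hcen v0 p0 hp0 hkp0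
      have key : kd w (g0 (0, 0)) ≤ 2 * LL n ∧ kd w (0, 0) ≤ 24 * ell (n + 1) := by
        clear hw
        induction hc with
        | refl => exact ⟨hc0, by omega⟩
        | tail _ hstep ih =>
          rename_i b c _
          obtain ⟨hbV, hcV, hk⟩ := hstep
          have h1 := kd_triangle c b (g0 (0, 0))
          rw [kd_comm c b] at h1
          have h2 := kd_triangle c (g0 (0, 0)) (0, 0)
          have h3 := kd_triangle (g0 (0, 0)) v0 (0, 0)
          rw [kd_comm (g0 (0, 0)) v0] at h3
          have h4 : kd c (0, 0) ≤ 24 * ell (n + 1) := by omega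
          obtain ⟨p, hp, hkp⟩ := hnear c hcV h4
          exact ⟨hcen c p hp hkp, h4⟩
      exact key.2
    obtain ⟨z, d, hd, hz, hray⟩ := free_ray (L := LL n) (rho := 4 * ell n) (by omega)
      (g0.symm (0, 0))
    have hP : ∀ t : ℕ, g0 (ray z d t) ∉ V := by
      intro t ht
      obtain ⟨p, hp, hkp⟩ := hnear _ ht (hall _ ht)
      have h1 := hray t _ hp
      have h2 := kd_map g0 (ray z d t) (g0.symm p)
      rw [RelIso.apply_symm_apply] at h2
      omega
    have h0 := zero_of_path hf hfar (fun t => g0 (ray z d t))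
      (fun t => g0.map_rel_iff.2 (ray_adj _ hd t)) hP
      (fun t => by rw [kd_map]; exact ray_kd _ hd t)
    have hz0 : ray z d 0 = z := by simp [ray]
    simp only [hz0] at h0
    have h1 : kd (g0 z) (0, 0) < r := by
      have h2 := kd_map g0 z (g0.symm (0, 0))
      rw [RelIso.apply_symm_apply] at h2
      omega
    rw [const_box hf hmin (g0 z) h1, hf0] at h0
    exact hf1 h0

end

section

open MeasureTheory ProbabilityTheory Filter Topology

/-- translations -/
def trA (t : ℤ × ℤ) : Aut where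
  toEquiv := Equiv.addRight t
  map_rel_iff' := by
    intro x y
    show ((x.1 + t.1) - (y.1 + t.1)) ^ 2 + ((x.2 + t.2) - (y.2 + t.2)) ^ 2 = 1 ↔
      (x.1 - y.1) ^ 2 + (x.2 - y.2) ^ 2 = 1
    have e1 : (x.1 + t.1) - (y.1 + t.1) = x.1 - y.1 := by ring
    have e2 : (x.2 + t.2) - (y.2 + t.2) = x.2 - y.2 := by ring
    rw [e1, e2]

lemma trA_apply (t p : ℤ × ℤ) : trA t p = p + t := rfl

lemma trA_symm_apply (t p : ℤ × ℤ) : (trA t).symm p = p - t := by
  apply (trA t).injective
  rw [RelIso.apply_symm_apply, trA_apply, sub_add_cancel]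

lemma trA_inj : Function.Injective trA := by
  intro t t' h
  have := congrArg (fun g : Aut => g (0, 0)) h
  simpa [trA_apply] using this

/-- the window -/
noncomputable def WW (n : ℕ) : Finset (ℤ × ℤ) :=
  Finset.Icc (-((LL n / 2 : ℕ) : ℤ)) (LL n / 2 : ℕ) ×ˢ Finset.Icc (-((LL n / 2 : ℕ) : ℤ)) 0

lemma card_WW (n : ℕ) : (LL n) ^ 2 ≤ 2 * (WW n).card := by
  unfold WW
  rw [Finset.card_product, Int.card_Icc, Int.card_Icc]
  have e1 : (((LL n / 2 : ℕ) : ℤ) + 1 - (-((LL n / 2 : ℕ) : ℤ))).toNat = 2 * (LL n / 2) + 1 := by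
    omega
  have e2 : ((0 : ℤ) + 1 - (-((LL n / 2 : ℕ) : ℤ))).toNat = LL n / 2 + 1 := by omega
  rw [e1, e2]
  have h1 : LL n ≤ 2 * (LL n / 2) + 1 := by omega
  have h2 : LL n ≤ 2 * (LL n / 2 + 1) := by omega
  calc (LL n) ^ 2 = LL n * LL n := sq _
    _ ≤ (2 * (LL n / 2) + 1) * (2 * (LL n / 2 + 1)) := Nat.mul_le_mul h1 h2
    _ = _ := by ring

/-- no holes of scale `n` near the origin -/
def NoHole (v : Idx → Bool) (n : ℕ) : Prop :=
  ∀ e ∈ eNear (0, 0) (3 * LL n), v (ih n e) = false

lemma ae_noHole : ∀ᵐ v ∂base, ∀ᶠ n in atTop, NoHole v n := by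
  have h1 : ∀ n, base.real {v | ¬ NoHole v n} ≤ (1 / 2) ^ (n + 1) := by
    intro n
    have h2 : {v : Idx → Bool | ¬ NoHole v n} ⊆ ⋃ e ∈ eNear (0, 0) (3 * LL n),
        {v : Idx → Bool | v (ih n e) = true} := by
      intro v hv
      have hv' : ¬ NoHole v n := hv
      unfold NoHole at hv'
      push Not at hv'
      obtain ⟨e, he, hve⟩ := hv'
      rw [Set.mem_iUnion₂]
      exact ⟨e, he, by simpa using hve⟩
    refine (measureReal_mono h2 (measure_ne_top _ _)).trans
      ((measureReal_biUnion_finset_le _ _).trans ?_)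
    have h3 : ∀ e ∈ eNear (0, 0) (3 * LL n),
        base.real {v : Idx → Bool | v (ih n e) = true} = hol n := by
      intro e _
      rw [prodB_one, wq]
      simp only [if_true]
      rw [qq_h]; ring
    rw [Finset.sum_congr rfl h3, Finset.sum_const, nsmul_eq_mul]
    unfold hol
    have hc : (0 : ℝ) ≤ (eNear (0, 0) (3 * LL n)).card := Nat.cast_nonneg _
    rw [one_div_pow, mul_one_div, div_le_div_iff₀ (by positivity) (by positivity)]
    nlinarith [pow_pos (two_pos (α := ℝ)) (n + 1)]
  have h2 : Summable fun n : ℕ => ((1 : ℝ) / 2) ^ (n + 1) :=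
    (summable_nat_add_iff 1).2 (summable_geometric_of_lt_one (by norm_num) (by norm_num))
  filter_upwards [ae_eventually_not h1 h2] with v hv
  filter_upwards [hv] with n hn
  by_contra h
  exact hn h

/-- there is an obstacle of scale `n` in the window -/
def HasCap (v : Idx → Bool) (n : ℕ) : Prop := ∃ t ∈ WW n, v (ia n (trA t)) = false

open Classical in
lemma prob_noCap (m M : ℕ) :
    base.real {v | ∀ n ∈ Finset.Ico m M, ¬ HasCap v n} ≤
      Real.exp (-∑ n ∈ Finset.Ico m M, (WW n).card * dens n) := by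
  set J : Finset Idx := (Finset.Ico m M).biUnion fun n => (WW n).image fun t => ia n (trA t) with hJ
  have h1 : {v : Idx → Bool | ∀ n ∈ Finset.Ico m M, ¬ HasCap v n} =
      {v | ∀ i ∈ J, v i = true} := by
    ext v
    simp only [Set.mem_ofPred_eq, hJ, Finset.mem_biUnion, Finset.mem_image]
    constructor
    · rintro h i ⟨n, hn, t, ht, rfl⟩
      have := h n hn
      unfold HasCap at this
      push Not at this
      simpa using this t ht
    · intro h n hn hcap
      obtain ⟨t, ht, hv⟩ := hcap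
      have := h (ia n (trA t)) ⟨n, hn, t, ht, rfl⟩
      rw [hv] at this
      exact Bool.noConfusion this
  have h2 : ∑ i ∈ J, (qq i : ℝ) = ∑ n ∈ Finset.Ico m M, (WW n).card * dens n := by
    rw [hJ, Finset.sum_biUnion]
    · apply Finset.sum_congr rfl
      intro n _
      rw [Finset.sum_image]
      · simp only [qq_a, Finset.sum_const, nsmul_eq_mul]
      · intro t _ t' _ h
        have : trA t = trA t' := by simpa [ia] using h
        exact trA_inj this
    · intro n _ n' _ hne
      rw [Function.onFun, Finset.disjoint_left]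
      intro i hi hi'
      obtain ⟨t, _, rfl⟩ := Finset.mem_image.1 hi
      obtain ⟨t', _, h⟩ := Finset.mem_image.1 hi'
      apply hne
      have : n' = n ∧ trA t' = trA t := by simpa [ia] using h
      exact this.1.symm
  rw [h1, prodB_box qq J (fun _ => true), ← h2, ← Finset.sum_neg_distrib, Real.exp_sum]
  apply Finset.prod_le_prod
  · intro i _; exact wq_nonneg _ _
  · intro i _
    unfold wq
    simp only [if_true]
    have := Real.add_one_le_exp (-(qq i : ℝ))
    linarith

lemma ae_cap : ∀ᵐ v ∂base, ∃ᶠ n in atTop, HasCap v n := by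
  have h1 : ∀ m : ℕ, base.real {v | ∀ n, m ≤ n → ¬ HasCap v n} = 0 := by
    intro m
    apply le_antisymm _ measureReal_nonneg
    have h2 : ∀ M : ℕ, base.real {v | ∀ n, m ≤ n → ¬ HasCap v n} ≤
        Real.exp (∑ n ∈ Finset.range m, (1 / (2 * 10 ^ 13)) * (1 / ((n : ℝ) + 1)) -
          ∑ n ∈ Finset.range M, (1 / (2 * 10 ^ 13)) * (1 / ((n : ℝ) + 1))) := by
      intro M
      have h3 : base.real {v | ∀ n, m ≤ n → ¬ HasCap v n} ≤
          base.real {v | ∀ n ∈ Finset.Ico m M, ¬ HasCap v n} := by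
        apply measureReal_mono _ (measure_ne_top _ _)
        intro v hv n hn
        exact hv n (Finset.mem_Ico.1 hn).1
      refine h3.trans ((prob_noCap m M).trans (Real.exp_le_exp.2 ?_))
      have h4 : ∀ n : ℕ, (1 / (2 * 10 ^ 13)) * (1 / ((n : ℝ) + 1)) ≤ (WW n).card * dens n := by
        intro n
        have hL : (0 : ℝ) < LL n := by
          have := LL_ge' n
          exact_mod_cast (by omega : 0 < LL n)
        have h5 : (LL n : ℝ) ^ 2 ≤ 2 * (WW n).card := by exact_mod_cast card_WW n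
        calc (1 / (2 * 10 ^ 13)) * (1 / ((n : ℝ) + 1)) = ((LL n : ℝ) ^ 2 / 2) * dens n := by
              unfold dens; field_simp
          _ ≤ _ := mul_le_mul_of_nonneg_right (by linarith) (dens_pos n).le
      rcases le_total m M with hmM | hmM
      · have h5 : ∑ n ∈ Finset.range M, (1 / (2 * 10 ^ 13)) * (1 / ((n : ℝ) + 1)) =
            ∑ n ∈ Finset.range m, (1 / (2 * 10 ^ 13)) * (1 / ((n : ℝ) + 1)) +
            ∑ n ∈ Finset.Ico m M, (1 / (2 * 10 ^ 13)) * (1 / ((n : ℝ) + 1)) := by
          rw [← Finset.sum_range_add_sum_Ico _ hmM]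
        rw [h5]
        have h6 := Finset.sum_le_sum (s := Finset.Ico m M) fun n _ => h4 n
        linarith
      · rw [Finset.Ico_eq_empty (by omega)]
        have h5 : ∑ n ∈ Finset.range M, (1 / (2 * 10 ^ 13)) * (1 / ((n : ℝ) + 1)) ≤
            ∑ n ∈ Finset.range m, (1 / (2 * 10 ^ 13)) * (1 / ((n : ℝ) + 1)) := by
          apply Finset.sum_le_sum_of_subset_of_nonneg
          · exact Finset.range_mono hmM
          · intro n _ _; positivity
        simp only [Finset.sum_empty, neg_zero]
        linarith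
    have h3 : Tendsto (fun M : ℕ => Real.exp (∑ n ∈ Finset.range m,
        (1 / (2 * 10 ^ 13)) * (1 / ((n : ℝ) + 1)) -
          ∑ n ∈ Finset.range M, (1 / (2 * 10 ^ 13)) * (1 / ((n : ℝ) + 1)))) atTop (𝓝 0) := by
      apply Real.tendsto_exp_atBot.comp
      apply tendsto_atBot_add_const_left
      rw [tendsto_neg_atBot_iff]
      have h4 := Real.tendsto_sum_range_one_div_nat_succ_atTop
      have h5 := h4.const_mul_atTop (show (0 : ℝ) < 1 / (2 * 10 ^ 13) by norm_num)
      refine h5.congr fun M => ?_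
      rw [Finset.mul_sum]
    exact ge_of_tendsto' h3 h2
  have h2 : ∀ᵐ v ∂base, ∀ m : ℕ, ¬ ∀ n, m ≤ n → ¬ HasCap v n := by
    rw [ae_all_iff]
    intro m
    have h3 := h1 m
    rw [measureReal_eq_zero_iff] at h3
    rw [ae_iff]
    simpa using h3
  filter_upwards [h2] with v hv
  rw [frequently_atTop]
  intro m
  have := hv m
  push Not at this
  exact this

lemma half_det {v : Idx → Bool} (h1 : ∀ᶠ n in atTop, NoHole v n)
    (h2 : ∃ᶠ n in atTop, HasCap v n) : ¬ HasInfiniteComponent (halfPlaneGraph (F v)) := by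
  rintro ⟨C, hC⟩
  obtain ⟨x, rfl⟩ := C.exists_rep
  apply hC
  by_cases hx : 0 ≤ x.2
  · obtain ⟨n, ⟨t, ht, hv⟩, hn1, hn2⟩ :=
      (h2.and_eventually (h1.and (eventually_ge_atTop (2 * kd x (0, 0) + 2)))).exists
    have hell := ell_gt n
    have hLL := LL_ge n
    unfold WW at ht
    rw [Finset.mem_product, Finset.mem_Icc, Finset.mem_Icc] at ht
    have hxk : kd x (0, 0) ≤ kd x (0, 0) := le_rfl
    rw [kd_le_iff] at hxk
    simp only [sub_zero, zero_sub] at hxk
    have hxS : QQ (LL n) (x - t) ∧ 0 ≤ x.2 := by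
      refine ⟨?_, hx⟩
      unfold QQ
      simp only [Prod.fst_sub, Prod.snd_sub]
      omega
    have hclosed : ∀ u w, (halfPlaneGraph (F v)).Adj u w → (QQ (LL n) (u - t) ∧ 0 ≤ u.2) →
        (QQ (LL n) (w - t) ∧ 0 ≤ w.2) := by
      rintro u w ⟨hu2, hw2, hadj, hop⟩ ⟨hu, _⟩
      refine ⟨?_, hw2⟩
      by_contra hw
      have h3 := (F_true.1 hop).2 n (trA t) ⟨u - t, w - t, ?_, hu, hw, ?_⟩
      · rcases h3 with h3 | h3
        · rw [hv] at h3; exact Bool.noConfusion h3
        · have h4 := hn1 ⟨s(u, w), hadj⟩ (mem_eNear (Sym2.mem_mk_left u w) (by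
            rw [kd_le_iff]
            unfold QQ at hu
            simp only [Prod.fst_sub, Prod.snd_sub] at hu
            push_cast
            omega))
          rw [h4] at h3; exact Bool.noConfusion h3
      · show s((trA t).symm u, (trA t).symm w) = s(u - t, w - t)
        rw [trA_symm_apply, trA_symm_apply]
      · simp only [Prod.snd_sub]
        omega
    have hsub : ((halfPlaneGraph (F v)).connectedComponentMk x).supp ⊆
        ((Finset.Icc (t.1 - LL n) (t.1 + LL n) ×ˢ Finset.Icc (t.2) (t.2 + LL n) :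
          Finset (ℤ × ℤ)) : Set (ℤ × ℤ)) := by
      intro y hy
      rw [SimpleGraph.ConnectedComponent.mem_supp_iff] at hy
      obtain ⟨p⟩ := (SimpleGraph.ConnectedComponent.exact hy).symm
      have key : ∀ {a b : ℤ × ℤ} (p : (halfPlaneGraph (F v)).Walk a b),
          (QQ (LL n) (a - t) ∧ 0 ≤ a.2) → (QQ (LL n) (b - t) ∧ 0 ≤ b.2) := by
        intro a b p
        induction p with
        | nil => exact id
        | cons h _ ih => exact fun hu => ih (hclosed _ _ h hu)
      have := (key p hxS).1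
      unfold QQ at this
      simp only [Prod.fst_sub, Prod.snd_sub] at this
      rw [Finset.mem_coe, Finset.mem_product, Finset.mem_Icc, Finset.mem_Icc]
      omega
    exact (Finset.finite_toSet _).subset hsub
  · have hsub : ((halfPlaneGraph (F v)).connectedComponentMk x).supp ⊆ {x} := by
      intro y hy
      rw [SimpleGraph.ConnectedComponent.mem_supp_iff] at hy
      obtain ⟨p⟩ := (SimpleGraph.ConnectedComponent.exact hy).symm
      cases p with
      | nil => rfl
      | cons h _ => exact absurd h.1 hx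
    exact (Set.finite_singleton x).subset hsub

end

section

open MeasureTheory ProbabilityTheory Filter Topology

section
variable {ι : Type*}

open Classical in
/-- extension by `false` -/
noncomputable def exB (J : Finset ι) (a : J → Bool) : ι → Bool :=
  fun i => if h : i ∈ J then a ⟨i, h⟩ else false

lemma exB_mono (J : Finset ι) : Monotone (exB J) := by
  intro a b h i
  unfold exB
  split_ifs with hi
  · exact h _
  · exact le_rfl

/-- weight of a finite configuration -/
noncomputable def wB (q : ι → unitInterval) (J : Finset ι) (a : J → Bool) : ℝ :=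
  ∏ i : J, wq (q i) (a i)

lemma wB_nonneg (q : ι → unitInterval) (J : Finset ι) (a : J → Bool) : 0 ≤ wB q J a :=
  Finset.prod_nonneg fun _ _ => wq_nonneg _ _

open Classical in
lemma real_depJ (q : ι → unitInterval) {J : Finset ι} {A : Set (ι → Bool)}
    (hA : DepJ (J : Set ι) A) :
    (prodB q).real A = ∑ a : J → Bool, wB q J a * (if exB J a ∈ A then 1 else 0) := by
  have hres : Measurable (fun (v : ι → Bool) (i : J) => v i) := by fun_prop
  have h1 : A = (fun (v : ι → Bool) (i : J) => v i) ⁻¹'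
      ((Finset.univ.filter fun a : J → Bool => exB J a ∈ A : Finset (J → Bool)) :
        Set (J → Bool)) := by
    ext v
    simp only [Set.mem_preimage, Finset.coe_filter, Finset.mem_univ, true_and, Set.mem_ofPred_eq]
    constructor
    · intro h
      exact hA _ _ (fun i hi => by
        have : i ∈ J := hi
        simp [exB, this]) h
    · intro h
      exact hA _ _ (fun i hi => by
        have : i ∈ J := hi
        simp [exB, this]) h
  rw [h1]
  rw [← sum_measureReal_preimage_singleton _ (fun a _ => hres (measurableSet_singleton a))]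
  rw [Finset.sum_filter]
  apply Finset.sum_congr rfl
  intro a _
  rw [← h1]
  have h2 : (prodB q).real ((fun (v : ι → Bool) (i : J) => v i) ⁻¹' {a}) = wB q J a := by
    have h3 : ((fun (v : ι → Bool) (i : J) => v i) ⁻¹' {a}) =
        {v : ι → Bool | ∀ i ∈ J, v i = exB J a i} := by
      ext v
      simp only [Set.mem_preimage, Set.mem_singleton_iff, Set.mem_ofPred_eq]
      constructor
      · intro h i hi
        unfold exB
        rw [dif_pos hi, ← h]
      · intro h
        funext i
        have := h i i.2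
        unfold exB at this
        rw [dif_pos i.2] at this
        exact this
    rw [h3, prodB_box, ← Finset.prod_coe_sort J]
    unfold wB
    apply Finset.prod_congr rfl
    intro i _
    congr 1
    unfold exB
    rw [dif_pos i.2]
  rw [h2]
  split_ifs <;> simp

lemma harris_fin (q : ι → unitInterval) {J : Finset ι} {A B : Set (ι → Bool)}
    (hA : DepJ (J : Set ι) A) (hB : DepJ (J : Set ι) B) (hAu : IsUpperSet A) (hBu : IsUpperSet B) :
    (prodB q).real A * (prodB q).real B ≤ (prodB q).real (A ∩ B) := by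
  classical
  have hAB : DepJ (J : Set ι) (A ∩ B) := fun v v' hv h => ⟨hA v v' hv h.1, hB v v' hv h.2⟩
  have hone : ∑ a : J → Bool, wB q J a = 1 := by
    have h1 : DepJ (J : Set ι) (Set.univ : Set (ι → Bool)) := fun _ _ _ _ => trivial
    have h2 := real_depJ q h1
    simpa using h2.symm
  rw [real_depJ q hA, real_depJ q hB, real_depJ q hAB]
  have h1 := fkg (fun a : J → Bool => (if exB J a ∈ A then (1 : ℝ) else 0))
    (fun a => (if exB J a ∈ B then (1 : ℝ) else 0)) (wB q J) (fun a => wB_nonneg q J a)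
    (fun a => by simp only [Pi.zero_apply]; split_ifs <;> norm_num)
    (fun a => by simp only [Pi.zero_apply]; split_ifs <;> norm_num)
    (fun a b hab => by
      simp only
      by_cases h : exB J a ∈ A
      · have h' : exB J b ∈ A := hAu (exB_mono J hab) h
        simp [h, h']
      · simp only [h, if_false]; split_ifs <;> norm_num)
    (fun a b hab => by
      simp only
      by_cases h : exB J a ∈ B
      · have h' : exB J b ∈ B := hBu (exB_mono J hab) h
        simp [h, h']
      · simp only [h, if_false]; split_ifs <;> norm_num)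
    (fun a b => by
      unfold wB
      rw [← Finset.prod_mul_distrib, ← Finset.prod_mul_distrib]
      apply le_of_eq
      apply Finset.prod_congr rfl
      intro i _
      simp only [Pi.inf_apply, Pi.sup_apply]
      cases a i <;> cases b i <;> simp [mul_comm])
  rw [hone, one_mul] at h1
  refine h1.trans (le_of_eq ?_)
  apply Finset.sum_congr rfl
  intro a _
  congr 1
  simp only [Set.mem_inter_iff]
  by_cases h : exB J a ∈ A <;> by_cases h' : exB J a ∈ B <;> simp [h, h']

/-- configurations agreeing on `J` with an element of `K` -/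
def nb (K : Set (ι → Bool)) (J : Finset ι) : Set (ι → Bool) := {v | ∃ κ ∈ K, ∀ i ∈ J, v i = κ i}

lemma nb_dep (K : Set (ι → Bool)) (J : Finset ι) : DepJ (J : Set ι) (nb K J) := by
  rintro v v' hv ⟨κ, hκ, h⟩
  exact ⟨κ, hκ, fun i hi => (hv i hi).symm.trans (h i hi)⟩

lemma nb_upper {K : Set (ι → Bool)} (hK : IsUpperSet K) (J : Finset ι) : IsUpperSet (nb K J) := by
  classical
  rintro v v' hv ⟨κ, hκ, h⟩
  refine ⟨fun i => if i ∈ J then v' i else κ i, ?_, fun i hi => by simp [hi]⟩
  apply hK _ hκ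
  intro i
  by_cases hi : i ∈ J
  · simp only [hi, if_true]
    rw [← h i hi]
    exact hv i
  · simp only [hi, if_false]
    exact le_rfl

lemma isClosed_upper {K : Set (ι → Bool)} (hK : IsCompact K) :
    IsClosed {v : ι → Bool | ∃ κ ∈ K, κ ≤ v} := by
  have h1 : {v : ι → Bool | ∃ κ ∈ K, κ ≤ v} =
      Prod.snd '' ((K ×ˢ (Set.univ : Set (ι → Bool))) ∩ {p | p.1 ≤ p.2}) := by
    ext v
    simp only [Set.mem_image, Set.mem_inter_iff, Set.mem_prod, Set.mem_univ, and_true,
      Set.mem_ofPred_eq, Prod.exists]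
    constructor
    · rintro ⟨κ, hκ, h⟩
      exact ⟨κ, v, ⟨hκ, h⟩, rfl⟩
    · rintro ⟨κ, w, ⟨hκ, h⟩, rfl⟩
      exact ⟨κ, hκ, h⟩
  rw [h1]
  apply IsCompact.isClosed
  apply IsCompact.image _ continuous_snd
  apply IsCompact.inter_right (hK.prod isCompact_univ)
  have h2 : {p : (ι → Bool) × (ι → Bool) | p.1 ≤ p.2} =
      ⋂ i, {p : (ι → Bool) × (ι → Bool) | p.1 i ≤ p.2 i} := by
    ext p; simp [Pi.le_def]
  rw [h2]
  apply isClosed_iInter
  intro i
  have h3 : Continuous fun p : (ι → Bool) × (ι → Bool) => (p.1 i, p.2 i) := by fun_prop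
  exact (isClosed_discrete {b : Bool × Bool | b.1 ≤ b.2}).preimage h3

lemma harris_compact [Countable ι] (q : ι → unitInterval) {A B : Set (ι → Bool)}
    (hA : IsClosed A) (hB : IsClosed B) (hAu : IsUpperSet A) (hBu : IsUpperSet B) :
    prodB q A * prodB q B ≤ prodB q (A ∩ B) := by
  obtain ⟨f, hf⟩ := Countable.exists_injective_nat ι
  set J : ℕ → Finset ι := fun n => ((Set.finite_Iic n).preimage hf.injOn).toFinset with hJ
  have hJmem : ∀ n x, x ∈ J n ↔ f x ≤ n := by
    intro n x; simp [hJ]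
  have hlim : ∀ {K : Set (ι → Bool)}, IsClosed K → ⋂ n, nb K (J n) = K := by
    intro K hK
    ext v
    rw [Set.mem_iInter]
    constructor
    · intro h
      choose κ hκ hκe using h
      apply hK.mem_of_tendsto (f := κ) (b := atTop) _ (Eventually.of_forall hκ)
      rw [tendsto_pi_nhds]
      intro x
      apply tendsto_const_nhds.congr'
      filter_upwards [eventually_ge_atTop (f x)] with m hm
      exact hκe m x ((hJmem m x).2 hm)
    · intro h n
      exact ⟨v, h, fun _ _ => rfl⟩
  have hanti : ∀ K : Set (ι → Bool), Antitone fun n => nb K (J n) := by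
    rintro K n m hnm v ⟨κ, hκ, h⟩
    exact ⟨κ, hκ, fun x hx => h x ((hJmem m x).2 (((hJmem n x).1 hx).trans hnm))⟩
  have hmeas : ∀ (K : Set (ι → Bool)) n, MeasurableSet (nb K (J n)) := fun K n =>
    (nb_dep K (J n)).measurable
  have t1 := tendsto_measure_iInter_atTop (μ := prodB q)
    (fun n => (hmeas A n).nullMeasurableSet) (hanti A) ⟨0, measure_ne_top _ _⟩
  have t2 := tendsto_measure_iInter_atTop (μ := prodB q)
    (fun n => (hmeas B n).nullMeasurableSet) (hanti B) ⟨0, measure_ne_top _ _⟩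
  have t3 := tendsto_measure_iInter_atTop (μ := prodB q)
    (fun n => ((hmeas A n).inter (hmeas B n)).nullMeasurableSet)
    (fun n m hnm => Set.inter_subset_inter (hanti A hnm) (hanti B hnm)) ⟨0, measure_ne_top _ _⟩
  rw [hlim hA] at t1
  rw [hlim hB] at t2
  rw [Set.iInter_inter_distrib, hlim hA, hlim hB] at t3
  have t4 := ENNReal.Tendsto.mul t1 (Or.inr (measure_ne_top _ _)) t2 (Or.inr (measure_ne_top _ _))
  refine le_of_tendsto_of_tendsto' t4 t3 fun n => ?_
  have h1 := harris_fin q (nb_dep A (J n)) (nb_dep B (J n)) (nb_upper hAu (J n))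
    (nb_upper hBu (J n))
  simp only [Function.comp_apply]
  rw [← ENNReal.ofReal_toReal (measure_ne_top (prodB q) (nb A (J n))),
    ← ENNReal.ofReal_toReal (measure_ne_top (prodB q) (nb B (J n))),
    ← ENNReal.ofReal_toReal (measure_ne_top (prodB q) (nb A (J n) ∩ nb B (J n))),
    ← ENNReal.ofReal_mul ENNReal.toReal_nonneg]
  exact ENNReal.ofReal_le_ofReal h1

/-- the Harris inequality for a countable product of Bernoulli measures -/
theorem harris [Countable ι] (q : ι → unitInterval) {A B : Set (ι → Bool)}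
    (hA : MeasurableSet A) (hB : MeasurableSet B) (hAu : IsUpperSet A) (hBu : IsUpperSet B) :
    prodB q A * prodB q B ≤ prodB q (A ∩ B) := by
  apply ENNReal.mul_le_of_forall_lt
  intro a ha b hb
  obtain ⟨K, hKA, hK, haK⟩ := hA.exists_lt_isCompact ha
  obtain ⟨K', hKB, hK', hbK⟩ := hB.exists_lt_isCompact hb
  have h1 := harris_compact q (isClosed_upper hK) (isClosed_upper hK')
    (fun v v' hv ⟨κ, hκ, h⟩ => ⟨κ, hκ, h.trans hv⟩)
    (fun v v' hv ⟨κ, hκ, h⟩ => ⟨κ, hκ, h.trans hv⟩)
  have h2 : {v : ι → Bool | ∃ κ ∈ K, κ ≤ v} ⊆ A := by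
    rintro v ⟨κ, hκ, h⟩
    exact hAu h (hKA hκ)
  have h3 : {v : ι → Bool | ∃ κ ∈ K', κ ≤ v} ⊆ B := by
    rintro v ⟨κ, hκ, h⟩
    exact hBu h (hKB hκ)
  calc a * b ≤ prodB q K * prodB q K' := mul_le_mul' haK.le hbK.le
    _ ≤ prodB q {v | ∃ κ ∈ K, κ ≤ v} * prodB q {v | ∃ κ ∈ K', κ ≤ v} :=
        mul_le_mul' (measure_mono fun v hv => ⟨v, hv, le_rfl⟩)
          (measure_mono fun v hv => ⟨v, hv, le_rfl⟩)
    _ ≤ _ := h1
    _ ≤ _ := measure_mono (Set.inter_subset_inter h2 h3)

end

end

section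

open MeasureTheory ProbabilityTheory Filter Topology

instance : Countable Edge := by
  unfold Edge
  infer_instance

lemma measurable_eval_true {ι : Type*} (i : ι) : Measurable fun v : ι → Bool => v i = true :=
  (Measurable.of_discrete (f := fun b : Bool => b = true)).comp (measurable_pi_apply i)

lemma measurable_F : Measurable F := by
  rw [measurable_pi_iff]
  intro e
  have h1 : Measurable fun v : Idx → Bool => (v (ic e) = true ∧
      ∀ n (g : Aut), Ob (LL n) (g.symm.mapEdgeSet e) → v (ia n g) = true ∨ v (ih n e) = true) := by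
    refine (measurable_eval_true _).and (Measurable.forall fun n => Measurable.forall fun g => ?_)
    exact Measurable.imp measurable_const ((measurable_eval_true _).or (measurable_eval_true _))
  have h2 : (fun v => F v e) = (fun q : Prop => (open Classical in decide q)) ∘
      (fun v : Idx → Bool => (v (ic e) = true ∧
      ∀ n (g : Aut), Ob (LL n) (g.symm.mapEdgeSet e) → v (ia n g) = true ∨ v (ih n e) = true)) := by
    funext v
    simp [F]
  rw [h2]
  exact measurable_from_top.comp h1

/-! ### measurability of the infinite cluster events -/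

lemma measurable_adj (x y : ℤ × ℤ) : Measurable fun ω : Config => (openGraph ω).Adj x y := by
  by_cases h : lattice.Adj x y
  · have : (fun ω : Config => (openGraph ω).Adj x y)
        = fun ω : Config => ω ⟨s(x, y), h⟩ = true := by
      funext ω
      exact propext ⟨fun ⟨_, h2⟩ => h2, fun h2 => ⟨h, h2⟩⟩
    rw [this]
    exact (Measurable.of_discrete (f := fun b : Bool => b = true)).comp (measurable_pi_apply _)
  · have : (fun ω : Config => (openGraph ω).Adj x y) = fun _ => False := by
      funext ω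
      exact propext ⟨fun ⟨h1, _⟩ => h h1, fun h => h.elim⟩
    rw [this]
    exact measurable_const

lemma measurable_adj' (x y : ℤ × ℤ) :
    Measurable fun ω : Config => (halfPlaneGraph ω).Adj x y :=
  measurable_const.and (measurable_const.and (measurable_adj x y))

section
variable {G : Config → SimpleGraph (ℤ × ℤ)} (hG : ∀ x y, Measurable fun ω => (G ω).Adj x y)

/-- reachability in `n` steps -/
def stepReach (G : Config → SimpleGraph (ℤ × ℤ)) (x : ℤ × ℤ) : ℕ → (ℤ × ℤ) → Config → Prop
  | 0, y, _ => x = y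
  | n + 1, y, ω => ∃ w, stepReach G x n w ω ∧ (G ω).Adj w y

include hG in
lemma measurable_stepReach (x : ℤ × ℤ) (n : ℕ) (y : ℤ × ℤ) :
    Measurable fun ω : Config => stepReach G x n y ω := by
  induction n generalizing y with
  | zero => exact measurable_const
  | succ n ih => exact Measurable.exists fun w => (ih w).and (hG w y)

lemma reachable_iff_step (x y : ℤ × ℤ) (ω : Config) :
    (G ω).Reachable x y ↔ ∃ n, stepReach G x n y ω := by
  constructor
  · intro h
    rw [SimpleGraph.reachable_iff_reflTransGen] at h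
    induction h with
    | refl => exact ⟨0, rfl⟩
    | tail _ hadj ih =>
      obtain ⟨n, hn⟩ := ih
      exact ⟨n + 1, _, hn, hadj⟩
  · rintro ⟨n, hn⟩
    induction n generalizing y with
    | zero => rw [show x = y from hn]
    | succ n ih =>
      obtain ⟨w, hw, hadj⟩ := hn
      exact (ih w hw).trans hadj.reachable

include hG in
lemma measurable_reachable (x y : ℤ × ℤ) :
    Measurable fun ω : Config => (G ω).Reachable x y := by
  simp_rw [reachable_iff_step]
  exact Measurable.exists fun n => measurable_stepReach hG x n y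

lemma infinite_iff (ω : Config) : HasInfiniteComponent (G ω) ↔
    ∃ x, ∀ S : Finset (ℤ × ℤ), ∃ y, y ∉ S ∧ (G ω).Reachable x y := by
  constructor
  · rintro ⟨C, hC⟩
    obtain ⟨x, rfl⟩ := C.exists_rep
    refine ⟨x, fun S => ?_⟩
    obtain ⟨y, hy, hyS⟩ := hC.exists_notMem_finset S
    refine ⟨y, hyS, ?_⟩
    rw [SimpleGraph.ConnectedComponent.mem_supp_iff] at hy
    exact (SimpleGraph.ConnectedComponent.exact hy).symm
  · rintro ⟨x, hx⟩
    refine ⟨(G ω).connectedComponentMk x, fun hfin => ?_⟩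
    obtain ⟨y, hyS, hy⟩ := hx hfin.toFinset
    apply hyS
    rw [Set.Finite.mem_toFinset, SimpleGraph.ConnectedComponent.mem_supp_iff,
      SimpleGraph.ConnectedComponent.eq]
    exact hy.symm

include hG in
lemma measurable_infinite : Measurable fun ω : Config => HasInfiniteComponent (G ω) := by
  simp_rw [infinite_iff]
  refine Measurable.exists fun x => Measurable.forall fun S => Measurable.exists fun y => ?_
  exact measurable_const.and (measurable_reachable hG x y)

end

/-! ### the law -/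

/-- the law of the percolation -/
noncomputable def law : Measure Config := base.map F

instance : IsProbabilityMeasure law := by
  unfold law
  exact Measure.isProbabilityMeasure_map measurable_F.aemeasurable

theorem law_percolates : Percolates law := by
  unfold Percolates law
  rw [ae_map_iff measurable_F.aemeasurable
    (measurableSet_setOfPred.2 (measurable_infinite measurable_adj))]
  filter_upwards [ae_good] with v hv
  exact perc_det hv

theorem law_half : ∀ᵐ ω ∂law, ¬ HasInfiniteComponent (halfPlaneGraph ω) := by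
  unfold law
  rw [ae_map_iff measurable_F.aemeasurable
    (measurableSet_setOfPred.2 (measurable_infinite measurable_adj').not)]
  filter_upwards [ae_noHole, ae_cap] with v h1 h2
  exact half_det h1 h2

/-! ### FKG -/

lemma F_mono : Monotone F := by
  intro v v' h e
  by_cases hF : F v e = true
  · have hF' : F v' e = true := by
      rw [F_true] at hF ⊢
      refine ⟨?_, fun n g hOb => ?_⟩
      · have := h (ic e)
        rw [hF.1] at this
        exact top_le_iff.1 this
      · rcases hF.2 n g hOb with h1 | h1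
        · left
          have := h (ia n g)
          rw [h1] at this
          exact top_le_iff.1 this
        · right
          have := h (ih n e)
          rw [h1] at this
          exact top_le_iff.1 this
    rw [hF, hF']
  · rw [Bool.not_eq_true] at hF
    rw [hF]
    exact bot_le

theorem law_fkg : SatisfiesFKG law := by
  intro A B hA hB hAu hBu
  unfold law
  rw [Measure.map_apply measurable_F hA, Measure.map_apply measurable_F hB,
    Measure.map_apply measurable_F (hA.inter hB)]
  exact harris qq (measurable_F hA) (measurable_F hB) (fun v v' h hv => hAu (F_mono h) hv)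
    (fun v v' h hv => hBu (F_mono h) hv)

/-! ### invariance -/

/-- the action on the indices -/
def pim (φ : Aut) : Idx → Idx
  | Sum.inl (n, g) => Sum.inl (n, g.trans φ)
  | Sum.inr (Sum.inl (n, e)) => Sum.inr (Sum.inl (n, φ.mapEdgeSet e))
  | Sum.inr (Sum.inr e) => Sum.inr (Sum.inr (φ.mapEdgeSet e))

lemma pim_inj (φ : Aut) : Function.Injective (pim φ) := by
  intro i j h
  rcases i with ⟨n, g⟩ | ⟨n, e⟩ | e <;> rcases j with ⟨n', g'⟩ | ⟨n', e'⟩ | e' <;>
    simp only [pim, Sum.inl.injEq, Sum.inr.injEq, Prod.mk.injEq, reduceCtorEq] at h ⊢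
  · refine ⟨h.1, ?_⟩
    ext1 p
    have h2 := congrArg (fun k : Aut => k p) h.2
    exact φ.injective h2
  · exact ⟨h.1, φ.mapEdgeSet.injective h.2⟩
  · exact φ.mapEdgeSet.injective h

lemma qq_pim (φ : Aut) (i : Idx) : qq (pim φ i) = qq i := by
  rcases i with ⟨n, g⟩ | ⟨n, e⟩ | e <;> rfl

lemma F_pim (φ : Aut) (v : Idx → Bool) (e : Edge) :
    F v (φ.mapEdgeSet e) = F (fun i => v (pim φ i)) e := by
  have key : F v (φ.mapEdgeSet e) = true ↔ F (fun i => v (pim φ i)) e = true := by
    rw [F_true, F_true]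
    refine and_congr Iff.rfl (forall_congr' fun n => ?_)
    constructor
    · intro h g hOb
      apply h (g.trans φ)
      have : SimpleGraph.Iso.mapEdgeSet (SimpleGraph.Iso.symm (g.trans φ) : Aut)
          (φ.mapEdgeSet e) = g.symm.mapEdgeSet e := by
        apply Subtype.ext
        obtain ⟨e, he⟩ := e
        induction e using Sym2.ind with
        | _ x y =>
          show s(g.symm (φ.symm (φ x)), g.symm (φ.symm (φ y))) = s(g.symm x, g.symm y)
          rw [RelIso.symm_apply_apply, RelIso.symm_apply_apply]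
      exact this ▸ hOb
    · intro h g hOb
      have h2 := h (g.trans φ.symm)
      have h3 : (g.trans φ.symm).trans φ = g := by
        ext1 p
        show φ (φ.symm (g p)) = g p
        rw [RelIso.apply_symm_apply]
      have h4 : SimpleGraph.Iso.mapEdgeSet (SimpleGraph.Iso.symm (g.trans φ.symm) : Aut) e =
          g.symm.mapEdgeSet (φ.mapEdgeSet e) := by
        apply Subtype.ext
        obtain ⟨e, he⟩ := e
        induction e using Sym2.ind with
        | _ x y => rfl
      rw [h4] at h2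
      have h5 := h2 hOb
      simp only [pim, ia] at h5
      rw [h3] at h5
      exact h5
  cases h1 : F v (φ.mapEdgeSet e) <;> cases h2 : F (fun i => v (pim φ i)) e <;>
    rw [h1, h2] at key <;> simp_all

theorem law_invariant : IsInvariant law := by
  intro φ
  have hm : Measurable fun (ω : Config) (e : Edge) => ω (φ.mapEdgeSet e) := by fun_prop
  have hm2 : Measurable fun (v : Idx → Bool) (i : Idx) => v (pim φ i) := by fun_prop
  unfold law
  rw [Measure.map_map hm measurable_F]
  have hfun : ((fun (ω : Config) (e : Edge) => ω (φ.mapEdgeSet e)) ∘ F) =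
      F ∘ (fun (v : Idx → Bool) (i : Idx) => v (pim φ i)) := by
    funext v e
    exact F_pim φ v e
  rw [hfun, ← Measure.map_map measurable_F hm2]
  congr 1
  unfold base prodB
  rw [Measure.map_infinitePi_infinitePi_of_inj (pim_inj φ)]
  congr 1
  funext i
  rw [qq_pim]

end

section

open MeasureTheory ProbabilityTheory Filter Topology

/-- the bits which only influence the edge `e` -/
def Loc (e : Edge) : Set Idx := {i | i = ic e ∨ ∃ n, i = ih n e}

/-- no obstacle of scale at least `N` covers the edge -/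
def Clear (e : Edge) (N : ℕ) : Set (Idx → Bool) :=
  {v | ∀ n, N ≤ n → ∀ g : Aut, Ob (LL n) (g.symm.mapEdgeSet e) → v (ia n g) = true}

lemma measurable_Clear (e : Edge) (N : ℕ) : MeasurableSet (Clear e N) := by
  apply measurableSet_setOfPred.2
  exact Measurable.forall fun n => Measurable.imp measurable_const
    (Measurable.forall fun g => Measurable.imp measurable_const (measurable_eval_true _))

lemma depJ_Clear (e : Edge) (N : ℕ) : DepJ (Loc e)ᶜ (Clear e N) := by
  intro v v' hv h n hn g hOb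
  rw [← hv (ia n g)]
  · exact h n hn g hOb
  · rintro (h | ⟨m, h⟩) <;> simp [ia, ic, ih] at h

lemma ae_Clear (e : Edge) : ∀ᵐ v ∂base, ∃ N, v ∈ Clear e N := by
  obtain ⟨p, hp⟩ : ∃ p, p ∈ e.1 := by
    obtain ⟨e, he⟩ := e
    induction e using Sym2.ind with
    | _ x y => exact ⟨x, Sym2.mem_mk_left x y⟩
  have h1 : ∀ n, base.real {v : Idx → Bool | ∃ g ∈ Hf (LL n) p 0, v (ia n g) = false} ≤
      1 / (((n : ℝ) + 1) * mm n) := by
    intro n
    have h2 : {v : Idx → Bool | ∃ g ∈ Hf (LL n) p 0, v (ia n g) = false} ⊆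
        ⋃ g ∈ Hf (LL n) p 0, {v : Idx → Bool | v (ia n g) = false} := by
      rintro v ⟨g, hg, hv⟩
      rw [Set.mem_iUnion₂]
      exact ⟨g, hg, hv⟩
    refine (measureReal_mono h2 (measure_ne_top _ _)).trans
      ((measureReal_biUnion_finset_le _ _).trans ?_)
    have h3 : ∀ g ∈ Hf (LL n) p 0, base.real {v : Idx → Bool | v (ia n g) = false} = dens n := by
      intro g _
      rw [prodB_one, wq]
      simp only [Bool.false_eq_true, if_false]
      exact qq_a n g
    rw [Finset.sum_congr rfl h3, Finset.sum_const, nsmul_eq_mul]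
    have hL := LL_ge' n
    have h4 : (Hf (LL n) p 0).card ≤ 1000 * LL n := by
      refine (card_Hf (LL n) p 0).trans ?_
      omega
    have h5 : ((Hf (LL n) p 0).card : ℝ) ≤ 1000 * LL n := by exact_mod_cast h4
    have hlr : (1 : ℝ) ≤ ell n := by exact_mod_cast ell_pos n
    have hmr : (0 : ℝ) < mm n := by exact_mod_cast mm_pos n
    have hLr : (LL n : ℝ) = 20 * mm n * ell n := by
      unfold LL; push_cast; ring
    calc ((Hf (LL n) p 0).card : ℝ) * dens n ≤ (1000 * LL n) * dens n :=
          mul_le_mul_of_nonneg_right h5 (dens_pos n).le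
      _ = (1000 / 20 / 10 ^ 13 / ell n) * (1 / (((n : ℝ) + 1) * mm n)) := by
          unfold dens
          rw [hLr]
          field_simp
      _ ≤ 1 * (1 / (((n : ℝ) + 1) * mm n)) := by
          apply mul_le_mul_of_nonneg_right _ (by positivity)
          rw [div_le_one (by linarith)]
          have : (1000 / 20 / 10 ^ 13 : ℝ) ≤ 1 := by norm_num
          linarith
      _ = _ := one_mul _
  filter_upwards [ae_eventually_not h1 summable_one] with v hv
  obtain ⟨N, hN⟩ := eventually_atTop.1 hv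
  refine ⟨N, fun n hn g hOb => ?_⟩
  by_contra hcon
  rw [Bool.not_eq_true] at hcon
  apply hN n hn
  refine ⟨g, mem_Hf (p := p) ?_ (by rw [kd_self]), hcon⟩
  apply Ob_VO hOb
  have : (g.symm.mapEdgeSet e).1 = Sym2.map g.symm e.1 := rfl
  rw [this, Sym2.mem_map]
  exact ⟨p, hp, rfl⟩

lemma otherEdges_le (e : Edge) :
    otherEdges e ≤ (inferInstance : MeasurableSpace Config) := by
  unfold otherEdges
  apply Measurable.comap_le
  fun_prop

lemma measurableSet_coord (e : Edge) (b : Bool) : MeasurableSet {ω : Config | ω e = b} := by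
  have h : Measurable fun ω : Config => ω e := measurable_pi_apply e
  exact h (measurableSet_singleton b)

lemma depJ_pre (e : Edge) {A : Set Config} (hA : MeasurableSet[otherEdges e] A) :
    DepJ (Loc e)ᶜ (F ⁻¹' A) := by
  obtain ⟨A0, _, rfl⟩ := hA
  intro v v' hv h
  have key : ∀ f : Edge, f ≠ e → F v f = F v' f := by
    intro f hf
    have h1 : v (ic f) = v' (ic f) := hv _ (by
      rintro (h | ⟨m, h⟩) <;> simp [ic, ih] at h
      exact hf h)
    have h2 : ∀ n, v (ih n f) = v' (ih n f) := fun n => hv _ (by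
      rintro (h | ⟨m, h⟩) <;> simp [ic, ih] at h
      exact hf h.2)
    have h3 : ∀ n g, v (ia n g) = v' (ia n g) := fun n g => hv _ (by
      rintro (h | ⟨m, h⟩) <;> simp [ia, ic, ih] at h)
    have h4 : F v f = true ↔ F v' f = true := by
      rw [F_true, F_true, h1]
      simp only [h2, h3]
    cases h5 : F v f <;> cases h6 : F v' f <;> rw [h5, h6] at h4 <;> simp_all
  have h5 : (fun f : {f : Edge // f ≠ e} => F v' f) = fun f : {f : Edge // f ≠ e} => F v f :=
    funext fun f => (key f.1 f.2).symm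
  show (fun f : {f : Edge // f ≠ e} => F v' f) ∈ A0
  rw [h5]
  exact h

lemma law_null_of_inter_null (e : Edge) (b : Bool) (A : Set Config)
    (hA : MeasurableSet[otherEdges e] A) (h : law (A ∩ {ω | ω e = b}) = 0) : law A = 0 := by
  classical
  have hAm : MeasurableSet A := otherEdges_le e A hA
  have hbm : MeasurableSet {ω : Config | ω e = b} := measurableSet_coord e b
  unfold law at h ⊢
  rw [Measure.map_apply measurable_F (hAm.inter hbm)] at h
  rw [Measure.map_apply measurable_F hAm]
  have hdis : Disjoint (Loc e)ᶜ (Loc e) := disjoint_compl_left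
  have hdA := depJ_pre e hA
  cases b
  · -- closing the edge
    set B : Set (Idx → Bool) := {v | v (ic e) = false} with hB
    have hev : Measurable fun v : Idx → Bool => v (ic e) := measurable_pi_apply (ic e)
    have hBm : MeasurableSet B := hev (measurableSet_singleton false)
    have hBd : DepJ (Loc e) B := by
      intro v v' hv hvB
      have : v' (ic e) = false := by rw [← hv (ic e) (Or.inl rfl)]; exact hvB
      exact this
    have h1 := prodB_indep qq hdis hdA hBd (measurable_F hAm) hBm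
    have h2 : base (F ⁻¹' A ∩ B) = 0 := by
      refine measure_mono_null ?_ h
      rintro v ⟨hvA, hvB⟩
      exact ⟨hvA, F_false.2 (Or.inl hvB)⟩
    have h3 : base B ≠ 0 := by
      intro h0
      have h4 := prodB_one qq (ic e) false
      rw [measureReal_def] at h4
      have h5 : base {v | v (ic e) = false} = 0 := h0
      rw [h5] at h4
      simp only [wq, Bool.false_eq_true, if_false, ENNReal.toReal_zero] at h4
      have h6 : (qq (ic e) : ℝ) = 1 / 10 ^ 16 := rfl
      rw [h6] at h4
      norm_num at h4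
    have h4 : base (F ⁻¹' A) * base B = 0 := by rw [← h1]; exact h2
    exact (mul_eq_zero.1 h4).resolve_right h3
  · -- opening the edge
    have hN : ∀ N, base (F ⁻¹' A ∩ Clear e N) = 0 := by
      intro N
      set J : Finset Idx := insert (ic e) ((Finset.range N).image fun n => ih n e) with hJ
      set B : Set (Idx → Bool) := {v | ∀ i ∈ J, v i = (fun _ => true) i} with hB
      have hBm : MeasurableSet B := measurableSet_box J _
      have hBd : DepJ (Loc e) B := by
        intro v v' hv hvB i hi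
        have hiL : i ∈ Loc e := by
          rw [hJ, Finset.mem_insert, Finset.mem_image] at hi
          rcases hi with h | ⟨n, _, h⟩
          · exact Or.inl h
          · exact Or.inr ⟨n, h.symm⟩
        rw [← hv i hiL]
        exact hvB i hi
      have hAd : DepJ (Loc e)ᶜ (F ⁻¹' A ∩ Clear e N) := fun v v' hv hm =>
        ⟨hdA v v' hv hm.1, depJ_Clear e N v v' hv hm.2⟩
      have h1 := prodB_indep qq hdis hAd hBd ((measurable_F hAm).inter (measurable_Clear e N)) hBm
      have h2 : base ((F ⁻¹' A ∩ Clear e N) ∩ B) = 0 := by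
        refine measure_mono_null ?_ h
        rintro v ⟨⟨hvA, hvC⟩, hvB⟩
        refine ⟨hvA, F_true.2 ⟨hvB _ (by simp [hJ]), fun n g hOb => ?_⟩⟩
        by_cases hn : N ≤ n
        · exact Or.inl (hvC n hn g hOb)
        · right
          apply hvB
          rw [hJ, Finset.mem_insert, Finset.mem_image]
          exact Or.inr ⟨n, Finset.mem_range.2 (not_le.1 hn), rfl⟩
      have h3 : base B ≠ 0 := by
        intro h0
        have h4 := prodB_box qq J (fun _ => true)
        rw [measureReal_def] at h4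
        have h5 : base {v | ∀ i ∈ J, v i = (fun _ => true) i} = 0 := h0
        rw [h5, ENNReal.toReal_zero] at h4
        have h6 : 0 < ∏ i ∈ J, wq (qq i) ((fun _ => true) i) := by
          apply Finset.prod_pos
          intro i hi
          unfold wq
          simp only [if_true]
          rw [hJ, Finset.mem_insert, Finset.mem_image] at hi
          rcases hi with rfl | ⟨n, _, rfl⟩
          · rw [qq_c]; norm_num
          · rw [qq_h]; linarith [hol_pos n]
        linarith
      have h4 : base (F ⁻¹' A ∩ Clear e N) * base B = 0 := by rw [← h1]; exact h2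
      exact (mul_eq_zero.1 h4).resolve_right h3
    have h1 : base (⋃ N, (F ⁻¹' A ∩ Clear e N)) = 0 := measure_iUnion_null hN
    have h2 : base (⋃ N, Clear e N)ᶜ = 0 := by
      have := ae_Clear e
      rw [ae_iff] at this
      refine measure_mono_null ?_ this
      intro v hv
      simpa using hv
    refine measure_mono_null ?_ (measure_union_null h1 h2)
    intro v hv
    by_cases hc : v ∈ ⋃ N, Clear e N
    · left
      obtain ⟨N, hN⟩ := Set.mem_iUnion.1 hc
      exact Set.mem_iUnion.2 ⟨N, hv, hN⟩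
    · exact Or.inr hc

theorem law_finiteEnergy : HasFiniteEnergy law := by
  intro e
  have hm := otherEdges_le e
  set S : Set Config := {ω : Config | ω e = true} with hS
  have hSm : MeasurableSet S := measurableSet_coord e true
  set f : Config → ℝ := Set.indicator S (fun _ => (1 : ℝ)) with hf
  have hfi : Integrable f law := (integrable_const (1 : ℝ)).indicator hSm
  set g := law[f | otherEdges e] with hg
  have hgm : Measurable[otherEdges e] g := stronglyMeasurable_condExp.measurable
  have hgi : Integrable g law := integrable_condExp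
  have hint : ∀ A, MeasurableSet[otherEdges e] A →
      ∫ ω in A, g ω ∂law = law.real (A ∩ S) := by
    intro A hA
    rw [hg, setIntegral_condExp hm hfi hA, hf, setIntegral_indicator hSm]
    simp
  -- lower bound
  have hlow : law {ω | g ω ≤ 0} = 0 := by
    have hA : MeasurableSet[otherEdges e] {ω | g ω ≤ 0} :=
      @measurableSet_le _ _ _ _ _ (otherEdges e) _ _ _ _ _ hgm measurable_const
    apply law_null_of_inter_null e true _ hA
    have h1 := hint _ hA
    have h2 : ∫ ω in {ω | g ω ≤ 0}, g ω ∂law ≤ 0 :=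
      setIntegral_nonpos (hm _ hA) fun ω hω => hω
    have h3 : law.real ({ω | g ω ≤ 0} ∩ S) = 0 :=
      le_antisymm (h1 ▸ h2) measureReal_nonneg
    rwa [measureReal_eq_zero_iff] at h3
  have hhigh : law {ω | 1 ≤ g ω} = 0 := by
    have hA : MeasurableSet[otherEdges e] {ω | 1 ≤ g ω} :=
      @measurableSet_le _ _ _ _ _ (otherEdges e) _ _ _ _ _ measurable_const hgm
    apply law_null_of_inter_null e false _ hA
    have h1 := hint _ hA
    have h2 : law.real {ω | 1 ≤ g ω} ≤ ∫ ω in {ω | 1 ≤ g ω}, g ω ∂law := by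
      have : ∫ ω in {ω | 1 ≤ g ω}, (1 : ℝ) ∂law ≤ ∫ ω in {ω | 1 ≤ g ω}, g ω ∂law := by
        apply setIntegral_mono_on (integrable_const _).integrableOn hgi.integrableOn (hm _ hA)
        intro ω hω; exact hω
      simpa using this
    rw [h1] at h2
    have h3 : ({ω | 1 ≤ g ω} ∩ {ω : Config | ω e = false}) = {ω | 1 ≤ g ω} \ S := by
      ext ω
      simp only [hS, Set.mem_inter_iff, Set.mem_ofPred_eq, Set.mem_sdiff, Bool.not_eq_true]
    rw [h3]
    have h4 : law.real ({ω | 1 ≤ g ω} \ S) = 0 := by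
      have := measureReal_inter_add_sdiff (μ := law) (s := {ω | 1 ≤ g ω}) hSm
      have h5 : 0 ≤ law.real ({ω | 1 ≤ g ω} \ S) := measureReal_nonneg
      linarith
    rwa [measureReal_eq_zero_iff] at h4
  have h1 : ∀ᵐ ω ∂law, ¬ g ω ≤ 0 := by rw [ae_iff]; simpa using hlow
  have h2 : ∀ᵐ ω ∂law, ¬ 1 ≤ g ω := by rw [ae_iff]; simpa using hhigh
  filter_upwards [h1, h2] with ω h3 h4
  exact ⟨not_le.1 h3, not_le.1 h4⟩

/-- There is an automorphism invariant bond percolation on `ℤ^2` with finite energy, which satisfies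
the FKG inequality and percolates almost surely, but for which almost surely the open edges inside
the half-plane have no infinite connected component. -/
theorem result : ∃ μ : Measure Config, IsProbabilityMeasure μ ∧ IsInvariant μ ∧
    HasFiniteEnergy μ ∧ SatisfiesFKG μ ∧ Percolates μ ∧
    ∀ᵐ ω ∂μ, ¬ HasInfiniteComponent (halfPlaneGraph ω) :=
  ⟨law, inferInstance, law_invariant, law_finiteEnergy, law_fkg, law_percolates, law_half⟩

end

end Pool.Agent.Results.MP_77ae5d_pr.FKGWithoutHalfPlane
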